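import Pool.Agent.V5helper95.IF.Log
import Mathlib.LinearAlgebra.QuadraticForm.Basic

/-!
# Representations with a pseudoreflection: the perfect core is the whole Lie algebra of the form
-/

set_option autoImplicit false
set_option linter.unusedSectionVars false

namespace Pool.Agent.V5helper95.IF

open Module Pool.Agent.N179.GR
open Pool.Agent.TH125.Gal (SI Skew rk wg ss refl rk_apply wg_apply ss_apply skew_bracket
  wg_bracket ss_bracket refl_apply ss_add_left ss_add_right ss_comm wg_skew)

noncomputable section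

variable {K : Type} [Field K] {Γ : Type} [Group Γ]
  {V : Type} [AddCommGroup V] [Module K V] [FiniteDimensional K V]

/-- derivations are infinitesimal similitudes of invariant forms -/
theorem sim_of_form {r : Γ →* Module.End K V} {μ : Γ →* Kˣ} {B : V →ₗ[K] V →ₗ[K] K}
    (hB : ∀ g x y, B (r g x) (r g y) = (μ g : K) * B x y) (D : Der K Γ) :
    ∃ l : K, ∀ x y, B (D.Θ (full V r) x) y + B x (D.Θ (full V r) y) = l * B x y := by
  have h1 : ((μ 1 : Kˣ) : K) = 1 := by rw [map_one, Units.val_one]
  have h2 : ∃ Δ : Subgroup Γ, Δ.FiniteIndex ∧ ∀ g ∈ Δ, ∀ h ∈ Δ,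
      ((μ (g * h) : Kˣ) : K) = (μ g : K) * (μ h : K) :=
    ⟨⊤, inferInstance, fun g _ h _ => by rw [map_mul, Units.val_mul]⟩
  refine ⟨(D.Θ (lineP (fun g => ((μ g : Kˣ) : K)) h1 h2) : K →ₗ[K] K) 1, fun x y => ?_⟩
  have h3 := D.bil (full V r) (full V r) (lineP (fun g => ((μ g : Kˣ) : K)) h1 h2) B
    ⟨⊤, inferInstance, fun g _ x y => by
      have h4 : B (r g x) (r g y) = (μ g : K) * B x y := hB g x y
      exact h4⟩ x y
  refine h3.trans ?_
  have h5 : ∀ (f : K →ₗ[K] K) (c : K), f c = f 1 * c := by
    intro f c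
    conv_lhs => rw [← mul_one c, ← smul_eq_mul, map_smul, smul_eq_mul, mul_comm]
  exact h5 _ _

/-- The skew operators which are given, up to scalars, by derivations. -/
def skL (r : Γ →* Module.End K V) (B : V →ₗ[K] V →ₗ[K] K) : Submodule K (V →ₗ[K] V) where
  carrier := {X | Skew B X ∧ ∃ (c : K) (D : Der K Γ), D.Θ (full V r) = X + c • (1 : Module.End K V)}
  zero_mem' := ⟨fun x y => by simp, 0, 0, by rw [zero_smul, add_zero]; rfl⟩
  add_mem' := by
    rintro X Y ⟨hX, c, D, hD⟩ ⟨hY, c', D', hD'⟩
    refine ⟨fun x y => ?_, c + c', D + D', ?_⟩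
    · rw [LinearMap.add_apply, LinearMap.add_apply, map_add, map_add, LinearMap.add_apply]
      linear_combination hX x y + hY x y
    · rw [add_Θ, hD, hD', add_smul]
      abel
  smul_mem' := by
    rintro a X ⟨hX, c, D, hD⟩
    refine ⟨fun x y => ?_, a * c, a • D, ?_⟩
    · rw [LinearMap.smul_apply, LinearMap.smul_apply, map_smul, map_smul, LinearMap.smul_apply,
        ← smul_add, hX, smul_zero]
    · rw [smul_Θ, hD, smul_add, smul_smul]

theorem mem_skL {r : Γ →* Module.End K V} {B : V →ₗ[K] V →ₗ[K] K} {X : V →ₗ[K] V} :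
    X ∈ skL r B ↔ Skew B X ∧
      ∃ (c : K) (D : Der K Γ), D.Θ (full V r) = X + c • (1 : Module.End K V) := Iff.rfl

theorem br_scal (X Y : Module.End K V) (c d : K) :
    (X + c • 1) * (Y + d • 1) - (Y + d • 1) * (X + c • 1) = X * Y - Y * X := by
  rw [add_mul, add_mul, mul_add, mul_add, mul_add, mul_add]
  simp only [smul_mul_assoc, mul_smul_comm, one_mul, mul_one]
  rw [smul_comm d c]
  abel

/-- the derivations are sums of skew operators and scalars -/
theorem exists_skL [CharZero K] {r : Γ →* Module.End K V} {μ : Γ →* Kˣ}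
    {B : V →ₗ[K] V →ₗ[K] K} (hB : ∀ g x y, B (r g x) (r g y) = (μ g : K) * B x y)
    (D : Der K Γ) : ∃ X ∈ skL r B, ∃ c : K, D.Θ (full V r) = X + c • (1 : Module.End K V) := by
  obtain ⟨l, hl⟩ := sim_of_form hB D
  refine ⟨D.Θ (full V r) - (l / 2) • (1 : Module.End K V), ⟨fun x y => ?_, l / 2, D, ?_⟩, l / 2,
    ?_⟩
  · have h1 := hl x y
    have e1 : (D.Θ (full V r) - (l / 2) • (1 : Module.End K V)) x =
        D.Θ (full V r) x - (l / 2) • x := rfl
    have e2 : (D.Θ (full V r) - (l / 2) • (1 : Module.End K V)) y =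
        D.Θ (full V r) y - (l / 2) • y := rfl
    have e3 : B ((D.Θ (full V r) - (l / 2) • (1 : Module.End K V)) x) y =
        B (D.Θ (full V r) x) y - (l / 2) * B x y := by
      rw [e1, map_sub, map_smul]
      rfl
    have e4 : B x ((D.Θ (full V r) - (l / 2) • (1 : Module.End K V)) y) =
        B x (D.Θ (full V r) y) - (l / 2) * B x y := by
      rw [e2, map_sub, map_smul]
      rfl
    rw [e3, e4]
    linear_combination h1
  · abel
  · abel

/-- **The normalized Lie algebra.** -/
theorem nl_skL {r : Γ →* Module.End K V} {μ : Γ →* Kˣ} {B : V →ₗ[K] V →ₗ[K] K}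
    (hB : ∀ g x y, B (r g x) (r g y) = (μ g : K) * B x y) : NL B r (skL r B) where
  skew := fun X hX => hX.1
  br := by
    rintro X ⟨hX, c, D, hD⟩ Y ⟨hY, d, D', hD'⟩
    refine ⟨skew_bracket hX hY, 0, D.br D', ?_⟩
    rw [br_Θ, hD, hD', zero_smul, add_zero]
    exact br_scal X Y c d
  cj := by
    rintro X ⟨hX, c, D, hD⟩ γ
    refine ⟨fun x y => ?_, c, D.conj γ⁻¹, ?_⟩
    · have h1 := hX (r γ⁻¹ x) (r γ⁻¹ y)
      have h2 := hB γ (X (r γ⁻¹ x)) (r γ⁻¹ y)
      have h3 := hB γ (r γ⁻¹ x) (X (r γ⁻¹ y))
      rw [rg_inv] at h2 h3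
      change B (r γ (X (r γ⁻¹ x))) y + B x (r γ (X (r γ⁻¹ y))) = 0
      rw [h2, h3, ← mul_add, h1, mul_zero]
    · rw [conj_full D γ⁻¹ (isFull_full r), hD, inv_inv]
      change r γ * (X + c • 1) * r γ⁻¹ = r γ ∘ₗ X ∘ₗ r γ⁻¹ + c • 1
      have h1 : r γ * r γ⁻¹ = 1 := by rw [← map_mul, mul_inv_cancel, map_one]
      rw [mul_add, add_mul, mul_smul_comm, mul_one, smul_mul_assoc, h1]
      rfl

/-- irreducibility -/
theorem skL_irr [IsAlgClosed K] [CharZero K] {r : Γ →* Module.End K V} {μ : Γ →* Kˣ}
    {B : V →ₗ[K] V →ₗ[K] K} (hB : ∀ g x y, B (r g x) (r g y) = (μ g : K) * B x y)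
    (hSI : SI r) {A : Submodule K V} (hA : ∀ X ∈ skL r B, ∀ x ∈ A, X x ∈ A) :
    A = ⊥ ∨ A = ⊤ := by
  refine gst_eq hSI fun D x hx => ?_
  obtain ⟨X, hX, c, h⟩ := exists_skL hB D
  have h1 : D.Θ (full V r) x = X x + c • x := LinearMap.congr_fun h x
  rw [h1]
  exact A.add_mem (hA X hX x hx) (A.smul_mem c hx)

/-- **The Lie algebra is the whole one.** -/
theorem skL_full [IsAlgClosed K] [CharZero K] {r : Γ →* Module.End K V} {μ : Γ →* Kˣ}
    {B : V →ₗ[K] V →ₗ[K] K} (hB : ∀ g x y, B (r g x) (r g y) = (μ g : K) * B x y)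
    (hSI : SI r) {s : ℤ} (hs : s = 1 ∨ s = -1) (hsy : ∀ x y, B x y = (s : K) * B y x)
    (hnd : ∀ x, (∀ y, B x y = 0) → x = 0) {g : Γ} {δ : V} {c : K} (hδ : δ ≠ 0) (hc : c ≠ 0)
    (hg : ∀ x, r g x = x + (c * B δ x) • δ) (hdim : s = 1 → 2 ≤ finrank K V) (u v : V) :
    rk B v u - (s : K) • rk B u v ∈ skL r B := by
  have hμ : ∀ g, ((μ g : Kˣ) : K) ≠ 0 := fun g => Units.ne_zero _
  rcases hs with rfl | rfl
  · -- symmetric
    have hsy' : ∀ x y, B x y = B y x := fun x y => by rw [hsy, Int.cast_one, one_mul]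
    -- a vector orthogonal to `δ`
    obtain ⟨x, hx0, hδx⟩ : ∃ x : V, x ≠ 0 ∧ B δ x = 0 := by
      have h1 := LinearMap.finrank_range_add_finrank_ker (B δ)
      have h2 : finrank K (LinearMap.range (B δ)) ≤ 1 := by
        have := Submodule.finrank_le (LinearMap.range (B δ))
        rwa [finrank_self] at this
      have h3 := hdim rfl
      have h4 : 0 < finrank K (LinearMap.ker (B δ)) := by omega
      have := Module.finrank_pos_iff.1 h4
      obtain ⟨⟨x, hx⟩, hx0⟩ := exists_ne (0 : LinearMap.ker (B δ))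
      exact ⟨x, fun h => hx0 (Subtype.ext h), hx⟩
    obtain ⟨y, hxy⟩ : ∃ y, B x y ≠ 0 := by
      by_contra hcon
      push Not at hcon
      exact hx0 (hnd x hcon)
    have hμg : ((μ g : Kˣ) : K) = 1 := by
      have h1 := hB g x y
      rw [hg, hg, hδx, mul_zero, zero_smul, add_zero, map_add, map_smul, hsy' x δ, hδx,
        smul_zero, add_zero] at h1
      have h2 : (((μ g : Kˣ) : K) - 1) * B x y = 0 := by linear_combination -h1
      exact sub_eq_zero.1 ((mul_eq_zero.1 h2).resolve_right hxy)
    obtain ⟨z, hz⟩ : ∃ z, B δ z ≠ 0 := by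
      by_contra hcon
      push Not at hcon
      exact hδ (hnd δ hcon)
    have h3 : 2 + c * B δ δ = 0 := by
      have h1 := hB g z z
      rw [hμg, one_mul, hg] at h1
      simp only [map_add, map_smul, LinearMap.add_apply, LinearMap.smul_apply, smul_eq_mul] at h1
      rw [hsy' z δ] at h1
      have h2 : (c * B δ z * B δ z) * (2 + c * B δ δ) = 0 := by linear_combination h1
      exact (mul_eq_zero.1 h2).resolve_left (mul_ne_zero (mul_ne_zero hc hz) hz)
    have hq : B δ δ ≠ 0 := by
      intro h
      rw [h, mul_zero, add_zero] at h3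
      exact two_ne_zero h3
    have hg' : ∀ x, r g x = refl B δ x := by
      intro x
      rw [hg, refl_apply]
      have h4 : c = -(2 / B δ δ) := by
        field_simp
        linear_combination h3
      rw [h4]
      module
    -- a partner
    obtain ⟨A, hA, hAδ⟩ : ∃ A ∈ skL r B, ∀ a : K, A δ ≠ a • δ := by
      by_contra hcon
      push Not at hcon
      rcases skL_irr hB hSI (A := Submodule.span K {δ}) (by
        intro X hX x hx
        obtain ⟨a, rfl⟩ := Submodule.mem_span_singleton.1 hx
        obtain ⟨b, hb⟩ := hcon X hX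
        rw [map_smul, hb, smul_smul]
        exact Submodule.mem_span_singleton.2 ⟨_, rfl⟩) with h | h
      · exact hδ (Submodule.span_singleton_eq_bot.1 h)
      · have h1 := finrank_span_singleton (K := K) hδ
        rw [h, finrank_top] at h1
        have := hdim rfl
        omega
    have h6 := even_full (nl_skL hB) hsy' hμ hB hq hg' hSI
      (apply_mem_partners (nl_skL hB) hsy' hB hq hg' hA) hAδ u v
    rw [wg] at h6
    rw [Int.cast_one, one_smul]
    exact h6
  · have hsy' : ∀ x y, B x y = -B y x := fun x y => by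
      rw [hsy, Int.cast_neg, Int.cast_one, neg_one_mul]
    have hδδ : B δ δ = 0 := by
      have h1 := hsy' δ δ
      have h2 : (2 : K) * B δ δ = 0 := by linear_combination h1
      exact (mul_eq_zero.1 h2).resolve_left two_ne_zero
    have hN : (c • rk B δ δ : Module.End K V) * (c • rk B δ δ) = 0 := by
      refine LinearMap.ext fun x => ?_
      change c • (B δ (c • (B δ x • δ)) • δ) = 0
      rw [map_smul, map_smul, hδδ, smul_zero, smul_zero, zero_smul, smul_zero]
    have hN0 : (c • rk B δ δ : Module.End K V) ≠ 0 := by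
      intro h
      obtain ⟨z, hz⟩ : ∃ z, B δ z ≠ 0 := by
        by_contra hcon
        push Not at hcon
        exact hδ (hnd δ hcon)
      have h1 := LinearMap.congr_fun h z
      change c • (B δ z • δ) = 0 at h1
      rw [smul_smul] at h1
      rcases smul_eq_zero.1 h1 with h2 | h2
      · exact mul_ne_zero hc hz h2
      · exact hδ h2
    obtain ⟨D, hD⟩ := exists_log hN hN0 (r := r) (g := g) (LinearMap.ext fun x => by
      rw [hg, mul_smul]
      rfl)
    have hsk : Skew B (rk B δ δ) := by
      intro x y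
      rw [rk_apply, rk_apply, map_smul, map_smul, LinearMap.smul_apply, smul_eq_mul, smul_eq_mul,
        hsy' x δ]
      ring
    have h1 : rk B δ δ ∈ skL r B := by
      refine ⟨hsk, 0, c⁻¹ • D, ?_⟩
      rw [smul_Θ, hD, zero_smul, add_zero, smul_smul, inv_mul_cancel₀ hc, one_smul]
    have h2 := odd_full (nl_skL hB) hsy' hnd hμ hB hSI hδ h1 v u
    rw [ss] at h2
    rw [Int.cast_neg, Int.cast_one, neg_one_smul, sub_neg_eq_add]
    exact h2

/-- **Perfectness.** -/
theorem perfect [CharZero K] {B : V →ₗ[K] V →ₗ[K] K} {s : ℤ} (hs : s = 1 ∨ s = -1)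
    (hsy : ∀ x y, B x y = (s : K) * B y x) (hnd : ∀ x, (∀ y, B x y = 0) → x = 0)
    (hdim : s = 1 → 3 ≤ finrank K V) {P Q : Submodule K (Module.End K V)}
    (hPQ : ∀ X ∈ P, ∀ Y ∈ P, X * Y - Y * X ∈ Q)
    (hP : ∀ u v, (rk B v u - (s : K) • rk B u v : Module.End K V) ∈ P) (u v : V) :
    (rk B v u - (s : K) • rk B u v : Module.End K V) ∈ Q := by
  classical
  rcases hs with rfl | rfl
  · -- symmetric
    have hsy' : ∀ x y, B x y = B y x := fun x y => by rw [hsy, Int.cast_one, one_mul]
    have e : ∀ u v, (rk B v u - ((1 : ℤ) : K) • rk B u v : Module.End K V) = wg B u v := by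
      intro u v
      rw [Int.cast_one, one_smul]
      rfl
    have hP' : ∀ u v, (wg B u v : Module.End K V) ∈ P := fun u v => by
      rw [← e]
      exact hP u v
    rw [e]
    have : Invertible (2 : K) := invertibleOfNonzero two_ne_zero
    obtain ⟨b, hb⟩ := LinearMap.BilinForm.exists_orthogonal_basis (B := (B : LinearMap.BilinForm K V))
      ⟨fun x y => by rw [hsy' x y]; rfl⟩
    have hbo : ∀ i j, i ≠ j → B (b i) (b j) = 0 := fun i j hij => hb hij
    have hbi : ∀ i, B (b i) (b i) ≠ 0 := by
      intro i h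
      apply b.ne_zero i
      apply hnd
      intro y
      rw [← b.sum_repr y, map_sum]
      refine Finset.sum_eq_zero fun j _ => ?_
      rw [map_smul]
      by_cases hij : i = j
      · subst hij
        rw [h, smul_zero]
      · rw [hbo i j hij, smul_zero]
    have h1 : ∀ i j, (wg B (b i) (b j) : Module.End K V) ∈ Q := by
      intro i j
      by_cases hij : i = j
      · subst hij
        have : (wg B (b i) (b i) : Module.End K V) = 0 := by
          refine LinearMap.ext fun x => ?_
          rw [wg_apply, sub_self]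
          rfl
        rw [this]
        exact zero_mem _
      obtain ⟨k, hki, hkj⟩ : ∃ k, k ≠ i ∧ k ≠ j := by
        have h2 : (({i, j} : Finset (Fin (finrank K V)))ᶜ).Nonempty := by
          rw [← Finset.card_pos, Finset.card_compl, Fintype.card_fin]
          have := hdim rfl
          have := Finset.card_le_two (a := i) (b := j)
          omega
        obtain ⟨k, hk⟩ := h2
        simp only [Finset.mem_compl, Finset.mem_insert, Finset.mem_singleton, not_or] at hk
        exact ⟨k, hk.1, hk.2⟩
      have h2 := hPQ _ (hP' (b i) (b k)) _ (hP' (b k) (b j))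
      have h3 : (wg B (b i) (b k) : Module.End K V) * wg B (b k) (b j) -
          wg B (b k) (b j) * wg B (b i) (b k) = B (b k) (b k) • wg B (b i) (b j) := by
        refine LinearMap.ext fun x => ?_
        change wg B (b i) (b k) (wg B (b k) (b j) x) - wg B (b k) (b j) (wg B (b i) (b k) x) =
          B (b k) (b k) • wg B (b i) (b j) x
        simp only [wg_apply, map_sub, map_smul, hbo i k hki.symm, hbo k j hkj, hbo i j hij,
          hbo k i hki, hbo j k hkj.symm, hbo j i (Ne.symm hij), smul_eq_mul, mul_zero, sub_zero,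
          zero_sub, zero_smul, smul_sub, smul_smul]
        module
      rw [h3] at h2
      have h4 := Q.smul_mem (B (b k) (b k))⁻¹ h2
      rwa [smul_smul, inv_mul_cancel₀ (hbi k), one_smul] at h4
    have h2 : ∀ j u, (wg B u (b j) : Module.End K V) ∈ Q := by
      intro j u
      have h3 : (wg B u (b j) : Module.End K V) = ∑ i, b.repr u i • wg B (b i) (b j) := by
        refine LinearMap.ext fun x => ?_
        rw [LinearMap.sum_apply]
        simp only [LinearMap.smul_apply, wg_apply, smul_sub, Finset.sum_sub_distrib]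
        conv_lhs => rw [← b.sum_repr u]
        rw [Finset.smul_sum, map_sum, LinearMap.sum_apply, Finset.sum_smul]
        congr 1
        · exact Finset.sum_congr rfl fun i _ => smul_comm _ _ _
        · refine Finset.sum_congr rfl fun i _ => ?_
          rw [map_smul, LinearMap.smul_apply, smul_eq_mul, mul_smul]
      rw [h3]
      exact Q.sum_mem fun i _ => Q.smul_mem _ (h1 i j)
    have h3 : (wg B u v : Module.End K V) = ∑ j, b.repr v j • wg B u (b j) := by
      refine LinearMap.ext fun x => ?_
      rw [LinearMap.sum_apply]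
      simp only [LinearMap.smul_apply, wg_apply, smul_sub, Finset.sum_sub_distrib]
      conv_lhs => rw [← b.sum_repr v]
      rw [Finset.smul_sum, map_sum, LinearMap.sum_apply, Finset.sum_smul]
      congr 1
      · refine Finset.sum_congr rfl fun i _ => ?_
        rw [map_smul, LinearMap.smul_apply, smul_eq_mul, mul_smul]
      · exact Finset.sum_congr rfl fun i _ => smul_comm _ _ _
    rw [h3]
    exact Q.sum_mem fun j _ => Q.smul_mem _ (h2 j u)
  · have hsy' : ∀ x y, B x y = -B y x := fun x y => by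
      rw [hsy, Int.cast_neg, Int.cast_one, neg_one_mul]
    have e : ∀ u v, (rk B v u - ((-1 : ℤ) : K) • rk B u v : Module.End K V) = ss B v u := by
      intro u v
      rw [Int.cast_neg, Int.cast_one, neg_one_smul, sub_neg_eq_add]
      rfl
    have hP' : ∀ u v, (ss B u v : Module.End K V) ∈ P := fun u v => by
      rw [← e]
      exact hP v u
    rw [e]
    have h1 : ∀ a, (ss B a a : Module.End K V) ∈ Q := by
      intro a
      have haa : B a a = 0 := by
        have h1 := hsy' a a
        have h2 : (2 : K) * B a a = 0 := by linear_combination h1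
        exact (mul_eq_zero.1 h2).resolve_left two_ne_zero
      by_cases ha : a = 0
      · subst ha
        have : (ss B (0 : V) 0 : Module.End K V) = 0 := by
          refine LinearMap.ext fun x => ?_
          rw [ss_apply, smul_zero, add_zero]
          rfl
        rw [this]
        exact zero_mem _
      obtain ⟨b, hab⟩ : ∃ b, B a b ≠ 0 := by
        by_contra hcon
        push Not at hcon
        exact ha (hnd a hcon)
      have h2 := hPQ _ (hP' a b) _ (hP' a a)
      have h3 : (ss B a b : Module.End K V) * ss B a a - ss B a a * ss B a b =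
          (2 * B b a) • ss B a a := by
        refine LinearMap.ext fun x => ?_
        change ss B a b (ss B a a x) - ss B a a (ss B a b x) = (2 * B b a) • ss B a a x
        simp only [ss_apply, map_add, map_smul, haa, smul_eq_mul, mul_zero, zero_add, zero_smul,
          smul_add, smul_smul]
        rw [hsy' a b]
        module
      rw [h3] at h2
      have hba : 2 * B b a ≠ 0 := by
        rw [hsy']
        exact mul_ne_zero two_ne_zero (neg_ne_zero.2 hab)
      have h4 := Q.smul_mem (2 * B b a)⁻¹ h2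
      rwa [smul_smul, inv_mul_cancel₀ hba, one_smul] at h4
    have h2 : (ss B v u : Module.End K V) = (2 : K)⁻¹ •
        (ss B (v + u) (v + u) - ss B v v - ss B u u) := by
      refine LinearMap.ext fun x => ?_
      change ss B v u x = (2 : K)⁻¹ • (ss B (v + u) (v + u) x - ss B v v x - ss B u u x)
      simp only [ss_apply, map_add, LinearMap.add_apply]
      module
    rw [h2]
    exact Q.smul_mem _ (Q.sub_mem (Q.sub_mem (h1 _) (h1 _)) (h1 _))

/-- **The perfect core is the whole Lie algebra.** -/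
theorem mem_core_full [IsAlgClosed K] [CharZero K] {r : Γ →* Module.End K V} {μ : Γ →* Kˣ}
    {B : V →ₗ[K] V →ₗ[K] K} (hB : ∀ g x y, B (r g x) (r g y) = (μ g : K) * B x y)
    (hSI : SI r) {s : ℤ} (hs : s = 1 ∨ s = -1) (hsy : ∀ x y, B x y = (s : K) * B y x)
    (hnd : ∀ x, (∀ y, B x y = 0) → x = 0) {g : Γ} {δ : V} {c : K} (hδ : δ ≠ 0) (hc : c ≠ 0)
    (hg : ∀ x, r g x = x + (c * B δ x) • δ) (hdim : s = 1 → 3 ≤ finrank K V) (u v : V) :
    (rk B v u - (s : K) • rk B u v : Module.End K V) ∈ core (full V r) := by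
  have h0 := skL_full hB hSI hs hsy hnd hδ hc hg (fun h => by have := hdim h; omega)
  have h1 : ∀ u v, (rk B v u - (s : K) • rk B u v : Module.End K V) ∈ ak 1 (full V r) ∅ := by
    refine perfect hs hsy hnd hdim (P := skL r B) (Q := ak 1 (full V r) ∅) ?_ h0
    rintro X ⟨hX, c, D, hD⟩ Y ⟨hY, d, D', hD'⟩
    refine ⟨D.br D', InDer.br 0 _ _ (InDer.base _) (InDer.base _), fun N hN => by simp at hN, ?_⟩
    rw [br_Θ, hD, hD']
    exact br_scal X Y c d
  have h2 : ∀ k, ∀ u v, (rk B v u - (s : K) • rk B u v : Module.End K V) ∈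
      ak (k + 1) (full V r) ∅ := by
    intro k
    induction k with
    | zero => exact h1
    | succ k ih =>
      refine perfect hs hsy hnd hdim (P := ak (k + 1) (full V r) ∅)
        (Q := ak (k + 1 + 1) (full V r) ∅) ?_ ih
      rintro _ ⟨D, hD, -, rfl⟩ _ ⟨D', hD', -, rfl⟩
      exact ⟨D.br D', InDer.br _ _ _ hD hD', fun N hN => by simp at hN, rfl⟩
  rw [mem_core]
  intro k
  obtain ⟨D, hD, -, h⟩ := h2 k u v
  exact ⟨D, hD.mono, h⟩

end

end Pool.Agent.V5helper95.IF
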