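import Pool.Agent.H914R2.KLef
import Pool.Agent.H914R2.CPart

/-!
# The conjecture B for varieties whose transcendental cohomology is in the middle degree
-/

open CategoryTheory AlgebraicGeometry Finset

set_option autoImplicit false

universe u v

namespace Pool.Agent.V5helper95.IF

open Pool.Agent.H914 Pool.Agent.H914.VarClass Pool.Agent.H914.VarClass.Obj
  Pool.Agent.H914.WeilCohomology

variable {k : Type u} [Field k] {𝒱 : VarClass k} {ops : CycleOps 𝒱}
  {W : WeilCohomology.{u, v} ops} {X : 𝒱.Obj}

/-- a class outside the middle degree which is orthogonal to the algebraic classes is zero -/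
theorem eq_zero_of_middle (hmid : transcendental W X ≤ W.gr X X.dim) {i : ℕ} (hi : i ≠ X.dim)
    {x : W.H X} (hx : x ∈ W.gr X i)
    (h : ∀ j, i + 2 * j = 2 * X.dim → ∀ c ∈ algClasses W X j, bil W X x c = 0) : x = 0 := by
  have h1 : x ∈ transcendental W X := by
    rw [mem_trans]
    intro j c hc
    by_cases hij : i + 2 * j = 2 * X.dim
    · exact h j hij c hc
    · exact bil_eq_zero hx (alg_gr hc) hij
  have h2 := hmid h1
  have h3 : proj (W.isInternal X) i x = x := proj_same _ hx
  have h4 : proj (W.isInternal X) i x = 0 := proj_ne _ h2 (Ne.symm hi)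
  rw [← h3, h4]

/-- all classes of even degree outside the middle are algebraic -/
theorem exists_dual_of_middle (hmid : transcendental W X ≤ W.gr X X.dim) {q q' : ℕ}
    (hq : q + q' = X.dim) (hne : q ≠ q') :
    ∃ (N : ℕ) (c c' : Fin N → W.H X), (∀ i, c i ∈ W.gr X (2 * q')) ∧
      (∀ i, c' i ∈ spanCycles W X q) ∧
      (∀ i j, bil W X (c i) (c' j) = if i = j then 1 else 0) ∧
      (∀ u ∈ W.gr X (2 * q'), u = ∑ i, bil W X u (c' i) • c i) ∧
      (∀ u ∈ spanCycles W X q, u = ∑ i, bil W X (c i) u • c' i) := by
  refine exists_dual_families (bil W X) (W.gr X (2 * q')) (spanCycles W X q) ?_ ?_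
  · intro u hu h
    refine eq_zero_of_middle hmid (i := 2 * q') (by omega) hu fun j hj c hc => ?_
    obtain rfl : j = q := by omega
    exact h c (alg_mem_span hc)
  · intro u hu h
    apply nondeg_right
    intro a
    refine gr_induction (W.isInternal X) (p := fun a => W.tr X (a * u) = 0) ?_ ?_ a
    · intro i a ha
      by_cases hi : i = 2 * q'
      · subst hi
        exact h a ha
      · exact bil_eq_zero ha (span_gr hu) (by omega)
    · intro a b ha hb
      rw [add_mul, map_add, ha, hb, add_zero]

theorem gr_le_span (hmid : transcendental W X ≤ W.gr X X.dim) {q q' : ℕ}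
    (hq : q + q' = X.dim) (hne : q ≠ q') : W.gr X (2 * q) ≤ spanCycles W X q := by
  obtain ⟨N, c, c', hc, hc', hd, h1, h2⟩ := exists_dual_of_middle (W := W) hmid hq hne
  intro y hy
  have h3 : y - ∑ i, bil W X (c i) y • c' i = 0 := by
    refine eq_zero_of_middle hmid (i := 2 * q) (by omega) ?_ ?_
    · exact Submodule.sub_mem _ hy (Submodule.sum_mem _ fun i _ =>
        Submodule.smul_mem _ _ (span_gr (hc' i)))
    · intro j hj b hb
      obtain rfl : j = q' := by omega
      have hb' := alg_gr hb
      have h4 : bil W X b y = ∑ i, bil W X b (c' i) * bil W X (c i) y := by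
        conv_lhs => rw [h1 b hb']
        rw [map_sum, LinearMap.sum_apply]
        exact Finset.sum_congr rfl fun i _ => by
          rw [map_smul, LinearMap.smul_apply, smul_eq_mul]
      rw [map_sub, LinearMap.sub_apply, map_sum, LinearMap.sum_apply, bil_even hy, h4, sub_eq_zero]
      refine Finset.sum_congr rfl fun i _ => ?_
      rw [map_smul, LinearMap.smul_apply, smul_eq_mul, bil_even hb', mul_comm]
  rw [sub_eq_zero.1 h3]
  exact Submodule.sum_mem _ fun i _ => Submodule.smul_mem _ _ (hc' i)

theorem gr_odd_of_middle (hmid : transcendental W X ≤ W.gr X X.dim) {i : ℕ} (hi : Odd i)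
    (hne : i ≠ X.dim) {x : W.H X} (hx : x ∈ W.gr X i) : x = 0 := by
  refine eq_zero_of_middle hmid hne hx fun j hj => ?_
  obtain ⟨m, rfl⟩ := hi
  omega

/-- **The conjecture B for varieties whose transcendental cohomology is in the middle degree.** -/
theorem lefschetzB_of_middle (hmid : transcendental W X ≤ W.gr X X.dim) {D : X.Cycles}
    (hD : X.IsCyc 1 D) (hHL : HardLefschetz W X D) : LefschetzB W X D := by
  refine lefschetzB_of_inj hD hHL fun c hc => ?_
  by_cases hc0 : c = 0
  · subst hc0
    exact ⟨LinearMap.id, KOp.cast (KOp.id X) (by simp), fun a _ h => h⟩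
  rcases Nat.even_or_odd (X.dim + c) with ⟨q, hq⟩ | hodd
  · obtain ⟨q', hq'⟩ : ∃ q', q + q' = X.dim := ⟨X.dim - q, by omega⟩
    obtain ⟨N, b, b', hb, hb', hd, h1, h2⟩ := exists_dual_of_middle (W := W) hmid hq'
      (by omega)
    have hbs : ∀ i, b i ∈ spanCycles W X q' := fun i =>
      gr_le_span hmid (q := q') (q' := q) (by omega) (by omega) (hb i)
    refine ⟨∑ i, ((bil W X).flip (b i)).smulRight (b i), ?_, ?_⟩
    · refine Submodule.sum_mem _ fun i _ => ?_
      exact KOp.cast (rankOne_mem (hbs i) (hbs i)) (by omega)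
    · intro a ha h0
      rw [LinearMap.sum_apply] at h0
      rw [show X.dim + c = 2 * q by omega] at ha
      have h3 : ∀ j, bil W X a (b j) = 0 := by
        intro j
        have h4 := congrArg (fun u => bil W X u (b' j)) h0
        simp only [map_sum, LinearMap.sum_apply, LinearMap.smulRight_apply, map_smul,
          LinearMap.smul_apply, LinearMap.flip_apply, smul_eq_mul, map_zero,
          LinearMap.zero_apply, hd] at h4
        rw [Finset.sum_eq_single j] at h4
        · simpa using h4
        · intro i _ hij
          rw [if_neg hij, mul_zero]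
        · intro h; exact absurd (Finset.mem_univ j) h
      refine eq_zero_of_middle hmid (i := 2 * q) (by omega) ha fun j hj d hd' => ?_
      obtain rfl : j = q' := by omega
      rw [h1 d (alg_gr hd'), map_sum]
      refine Finset.sum_eq_zero fun i _ => ?_
      rw [map_smul, h3, smul_zero]
  · exact ⟨0, Submodule.zero_mem _, fun a ha _ => gr_odd_of_middle hmid hodd (by omega) ha⟩

end Pool.Agent.V5helper95.IF
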