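import Pool.Agent.N179.GR.Bd

/-!
# The ranks of the representations which do not split off
-/

set_option autoImplicit false
set_option linter.unusedSectionVars false

namespace Pool.Agent.V5helper95.IF

open Module Finset Pool.Agent.N179.GR

noncomputable section

variable {K : Type} [Field K] {Γ : Type} [Group Γ]

/-- elements of the rational span of a finite set -/
theorem card_le_of_span' [CharZero K] {κ : Type} [Fintype κ] {τ : κ → K}
    (hτ : LinearIndependent ℚ τ)
    (s : Finset K) (hs : ∀ i, τ i ∈ Submodule.span ℚ (s : Set K)) : Fintype.card κ ≤ s.card := by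
  have h1 : LinearIndependent ℚ fun i => (⟨τ i, hs i⟩ : Submodule.span ℚ (s : Set K)) :=
    LinearIndependent.of_comp (Submodule.span ℚ (s : Set K)).subtype hτ
  have : FiniteDimensional ℚ (Submodule.span ℚ (s : Set K)) :=
    FiniteDimensional.span_of_finite ℚ s.finite_toSet
  have h2 := h1.fintype_card_le_finrank
  exact h2.trans (finrank_span_finset_le_card s)

/-- **The sum of the ranks of the representations which do not split off.** -/
theorem rank_sum_le [CharZero K] (e : K ≃+* ℂ) {ι : Type} {V : ι → Type}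
    [∀ i, AddCommGroup (V i)]
    [∀ i, Module K (V i)] [∀ i, FiniteDimensional K (V i)] {r : ∀ i, Γ →* Module.End K (V i)}
    {U : Type} [AddCommGroup U] [Module K U] [FiniteDimensional K U] {t : Γ →* Module.End K U}
    (F : Finset ι) (m : ι → ℕ)
    (hI : ∀ i ∈ F, aI (full (V i) (r i)) {full U t} = ⊥)
    (htor : ∀ i ∈ F, ∀ τ : Fin (m i) → K, ∃ x ∈ core (full (V i) (r i)), ∀ a,
      τ a ∈ Submodule.span ℚ {c : K | ∃ w ∈ core (full (V i) (r i)), w ≠ 0 ∧
        x * w - w * x = c • w})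
    (hpair : ∀ i ∈ F, ∀ j ∈ F, i ≠ j → Spl (full (V i) (r i)) {full (V j) (r j)}) :
    ∑ i ∈ F, m i + finrank K (eigSpan t ⊤) ≤ finrank K U ∧
      (FormR t → 2 * ∑ i ∈ F, m i + finrank K (eigSpan t ⊤) ≤ finrank K U) := by
  classical
  have halg : IsAlgClosed K := IsAlgClosed.of_ringEquiv ℂ K e.symm
  choose k₀ hk₀ using fun i => exists_stable (full (V i) (r i)) {full U t}
  let k : ℕ := F.sup k₀ + 1
  have hk : ∀ i ∈ F, ak k (full (V i) (r i)) {full U t} = aI (full (V i) (r i)) {full U t} :=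
    fun i hi => hk₀ i k ((Finset.le_sup hi).trans (Nat.le_succ _))
  have hlift : ∀ i : F, ∀ x ∈ core (full (V i.1) (r i.1)), ∃ D : Der K Γ, InDer k D ∧
      (∀ j : F, j ≠ i → D.Θ (full (V j.1) (r j.1)) = 0) ∧ D.Θ (full (V i.1) (r i.1)) = x := by
    intro i x hx
    have h1 := Spl.iUnion (M := full (V i.1) (r i.1)) (F.erase i.1)
      (fun j => {full (V j) (r j)}) (fun j hj =>
        hpair i.1 i.2 j (Finset.mem_of_mem_erase hj) (Finset.ne_of_mem_erase hj).symm)
    obtain ⟨D, hD, h2, h3⟩ := mem_aI.1 (h1 hx) k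
    refine ⟨D, hD, fun j hj => h2 _ ?_, h3⟩
    rw [Set.mem_iUnion₂]
    exact ⟨j.1, Finset.mem_erase.2 ⟨fun h => hj (Subtype.ext h), j.2⟩, rfl⟩
  -- the characters of the tori
  obtain ⟨τ', hτ'⟩ := exists_indep e (Finset.univ : Finset (Σ i : F, Fin (m i.1)))
  let τ : (Σ i : F, Fin (m i.1)) → K := fun a => τ' ⟨a, Finset.mem_univ a⟩
  have hτ : LinearIndependent ℚ τ :=
    hτ'.comp (fun a => (⟨a, Finset.mem_univ a⟩ : (Finset.univ : Finset (Σ i : F, Fin (m i.1)))))
      fun a b hab => congrArg Subtype.val hab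
  choose x hx hxS using fun i : F => htor i.1 i.2 fun a => τ ⟨i, a⟩
  choose D hD hD0 hDx using fun i : F => hlift i (x i) (hx i)
  obtain ⟨E, hE, hEs⟩ := InDer.sum Finset.univ D (fun i _ => hD i)
  have hEi : ∀ i : F, E.Θ (full (V i.1) (r i.1)) = x i := by
    intro i
    rw [hEs, Finset.sum_eq_single i, hDx]
    · intro j _ hj
      rw [hD0 j i hj.symm]
    · intro h
      exact absurd (Finset.mem_univ i) h
  set y : End K U := E.Θ (full U t) with hy
  have hker : finrank K (eigSpan t ⊤) ≤ finrank K (LinearMap.ker y) := by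
    refine Submodule.finrank_mono (Submodule.span_le.2 fun v hv => ?_)
    have h1 : InDer (F.sup k₀ + 1) E := hE
    exact LinearMap.mem_ker.2 (h1.kill hv.2)
  -- the eigenvalues
  have hX : ∀ (i : F) (c : K), (∃ w ∈ core (full (V i.1) (r i.1)), w ≠ 0 ∧
      x i * w - w * x i = c • w) → ∃ X : End K U, X ≠ 0 ∧ y * X - X * y = c • X := by
    rintro i c ⟨w, hw, hw0, hxw⟩
    by_contra hcon
    push Not at hcon
    let A : End K (End K U) := LinearMap.mulLeft K y - LinearMap.mulRight K y - c • 1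
    have hA : ∀ X, A X = y * X - X * y - c • X := fun X => rfl
    have hinj : Function.Injective A := by
      rw [injective_iff_map_eq_zero]
      intro X hX
      by_contra h0
      exact hcon X h0 (sub_eq_zero.1 hX)
    let M₀ : Submodule K (End K U) :=
      { carrier := {z | ∃ D' : Der K Γ, InDer k D' ∧ D'.Θ (full U t) = z ∧
          D'.Θ (full (V i.1) (r i.1)) ∈ aI (full (V i.1) (r i.1)) {full U t}}
        add_mem' := by
          rintro a b ⟨D₁, h1, h2, h3⟩ ⟨D₂, h1', h2', h3'⟩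
          exact ⟨D₁ + D₂, h1.add' h1', by rw [add_Θ, h2, h2'], add_mem h3 h3'⟩
        zero_mem' := ⟨0, InDer.zero' _, rfl, zero_mem _⟩
        smul_mem' := by
          rintro a b ⟨D₁, h1, h2, h3⟩
          exact ⟨a • D₁, h1.smul a, by rw [smul_Θ, h2], Submodule.smul_mem _ a h3⟩ }
    have hEcore : E.Θ (full (V i.1) (r i.1)) ∈ core (full (V i.1) (r i.1)) := by
      rw [hEi]
      exact hx i
    have hA0 : ∀ z ∈ M₀, A z ∈ M₀ := by
      rintro z ⟨D', h1, h2, h3⟩
      refine ⟨E.br D' + (-c) • D', ((InDer.br k _ _ hE h1).mono).add' (h1.smul _), ?_, ?_⟩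
      · rw [add_Θ, smul_Θ, br_Θ, h2, hA, neg_smul, ← sub_eq_add_neg]
      · rw [add_Θ, smul_Θ, br_Θ]
        exact add_mem (core_br hEcore h3) (Submodule.smul_mem _ _ h3)
    have hsurj : Function.Surjective (A.restrict hA0) := by
      refine LinearMap.injective_iff_surjective.1 ?_
      intro a b hab
      exact Subtype.ext (hinj (congrArg Subtype.val hab))
    obtain ⟨D', hD', -, hD'w⟩ := hlift i w hw
    have h1 : A (D'.Θ (full U t)) ∈ M₀ := by
      refine ⟨E.br D' + (-c) • D', ((InDer.br k _ _ hE hD').mono).add' (hD'.smul _), ?_, ?_⟩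
      · rw [add_Θ, smul_Θ, br_Θ, hA, neg_smul, ← sub_eq_add_neg]
      · rw [add_Θ, smul_Θ, br_Θ, hD'w, hEi, hxw, neg_smul, add_neg_cancel]
        exact zero_mem _
    obtain ⟨⟨z, D'', hD'', h2, h3⟩, hm⟩ := hsurj ⟨_, h1⟩
    have h4 : z = D'.Θ (full U t) := hinj (congrArg Subtype.val hm)
    have h5 : w - D''.Θ (full (V i.1) (r i.1)) ∈ aI (full (V i.1) (r i.1)) {full U t} := by
      rw [← hk i.1 i.2]
      refine ⟨D' + (-1 : K) • D'', hD'.add' (hD''.smul _), ?_, ?_⟩
      · intro N hN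
        rw [Set.mem_singleton_iff.1 hN, add_Θ, smul_Θ, h2, h4, neg_one_smul, add_neg_cancel]
      · rw [add_Θ, smul_Θ, hD'w, neg_one_smul, sub_eq_add_neg]
    have h6 : w ∈ aI (full (V i.1) (r i.1)) {full U t} := by
      have h7 := add_mem h5 h3
      rwa [sub_add_cancel] at h7
    rw [hI i.1 i.2, Submodule.mem_bot] at h6
    exact hw0 h6
  let Λ : Finset K := y.charpoly.roots.toFinset.erase 0
  have hΛ : ∀ c, c ∈ Λ ↔ c ≠ 0 ∧ y.HasEigenvalue c := by
    intro c
    rw [Finset.mem_erase, Multiset.mem_toFinset,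
      Polynomial.mem_roots (LinearMap.charpoly_monic y).ne_zero,
      End.hasEigenvalue_iff_isRoot_charpoly]
  have hcard := card_add_ker_le y Λ fun c hc => (hΛ c).1 hc
  have hspan : ∀ c, y.HasEigenvalue c → c ∈ Submodule.span ℚ (Λ : Set K) := by
    intro c hc
    rcases eq_or_ne c 0 with rfl | h0
    · exact zero_mem _
    · exact Submodule.subset_span (Finset.mem_coe.2 ((hΛ c).2 ⟨h0, hc⟩))
  have hτs : ∀ a, τ a ∈ Submodule.span ℚ (Λ : Set K) := by
    rintro ⟨i, a⟩
    refine (Submodule.span_le.2 ?_) (hxS i a)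
    intro c hc
    obtain ⟨X, h0, h1⟩ := hX i c hc
    obtain ⟨μ, h1, h2⟩ := eig_diff h1 h0
    have h3 := sub_mem (hspan _ h2) (hspan _ h1)
    rwa [add_sub_cancel_left] at h3
  have hcount : Fintype.card (Σ i : F, Fin (m i.1)) = ∑ i ∈ F, m i := by
    rw [Fintype.card_sigma]
    simp only [Fintype.card_fin]
    exact Finset.sum_coe_sort F m
  refine ⟨?_, ?_⟩
  · have h1 := card_le_of_span' hτ Λ hτs
    omega
  · rintro ⟨μ, B, hnd, hB⟩
    have h1 : InDer (F.sup k₀ + 1) E := hE
    obtain ⟨t', ht, hts⟩ := exists_half e Λ (fun h => ((hΛ 0).1 h).1 rfl) (by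
      intro c hc
      rw [hΛ] at hc ⊢
      exact ⟨neg_ne_zero.2 hc.1, eig_neg hnd (fun u w => skew_of_form hB h1 u w) hc.2⟩)
    have h2 := card_le_of_span' hτ t' fun i =>
      (Submodule.span_le.2 fun c hc => hts c (Finset.mem_coe.1 hc)) (hτs i)
    omega

end

end Pool.Agent.V5helper95.IF
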