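import Pool.Agent.V5helper95.IF.Idl

/-!
# Hyperbolic families and tori
-/

set_option autoImplicit false
set_option linter.unusedSectionVars false

namespace Pool.Agent.V5helper95.IF

open Module Pool.Agent.N179.GR
open Pool.Agent.TH125.Gal (SI Skew rk rk_apply)

noncomputable section

variable {K : Type} [Field K] [CharZero K] {V : Type} [AddCommGroup V] [Module K V]
  [FiniteDimensional K V] {B : V →ₗ[K] V →ₗ[K] K} {s : ℤ}

/-- hyperbolic families -/
structure Hyp (B : V →ₗ[K] V →ₗ[K] K) (m : ℕ) (e f : Fin m → V) : Prop where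
  ee : ∀ a b, B (e a) (e b) = 0
  ff : ∀ a b, B (f a) (f b) = 0
  ef : ∀ a b, B (e a) (f b) = if a = b then 1 else 0

/-- the orthogonal complement of a hyperbolic family -/
def Hyp.W (B : V →ₗ[K] V →ₗ[K] K) {m : ℕ} (e f : Fin m → V) : Submodule K V :=
  LinearMap.ker (LinearMap.pi fun a : Fin m ⊕ Fin m => Sum.elim (fun a => B (e a))
    (fun a => B (f a)) a)

theorem Hyp.mem_W {m : ℕ} {e f : Fin m → V} {x : V} :
    x ∈ Hyp.W B e f ↔ (∀ a, B (e a) x = 0) ∧ ∀ a, B (f a) x = 0 := by
  rw [Hyp.W, LinearMap.mem_ker, funext_iff]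
  constructor
  · intro h
    exact ⟨fun a => h (Sum.inl a), fun a => h (Sum.inr a)⟩
  · rintro ⟨h1, h2⟩ (a | a)
    · exact h1 a
    · exact h2 a

theorem Hyp.le_W {m : ℕ} (e f : Fin m → V) : finrank K V ≤ finrank K (Hyp.W B e f) + 2 * m := by
  have h1 := LinearMap.finrank_range_add_finrank_ker (LinearMap.pi fun a : Fin m ⊕ Fin m =>
    Sum.elim (fun a => B (e a)) (fun a => B (f a)) a)
  have h2 := Submodule.finrank_le (LinearMap.range (LinearMap.pi fun a : Fin m ⊕ Fin m =>
    Sum.elim (fun a => B (e a)) (fun a => B (f a)) a))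
  rw [Module.finrank_pi, Fintype.card_sum, Fintype.card_fin] at h2
  rw [Hyp.W]
  omega

/-- isotropic vectors -/
theorem exists_isotropic [IsAlgClosed K] (hs : s = 1 ∨ s = -1)
    (hsy : ∀ x y, B x y = (s : K) * B y x) {W : Submodule K V} (hW : 2 ≤ finrank K W) :
    ∃ x ∈ W, x ≠ 0 ∧ B x x = 0 := by
  obtain ⟨⟨u, hu⟩, hu0⟩ : ∃ u : W, u ≠ 0 := by
    have h1 : 0 < finrank K W := by omega
    have := Module.finrank_pos_iff.1 h1
    exact exists_ne 0
  have hu0' : u ≠ 0 := fun h => hu0 (Subtype.ext h)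
  rcases hs with rfl | rfl
  · have hsy' : ∀ x y, B x y = B y x := fun x y => by rw [hsy, Int.cast_one, one_mul]
    by_cases hq : B u u = 0
    · exact ⟨u, hu, hu0', hq⟩
    obtain ⟨v, hv, hvu⟩ : ∃ v ∈ W, v ∉ Submodule.span K {u} := by
      by_contra hcon
      push Not at hcon
      have h1 : W ≤ Submodule.span K {u} := hcon
      have h2 := Submodule.finrank_mono h1
      have h3 := finrank_span_singleton (K := K) hu0'
      omega
    obtain ⟨z, hz⟩ := IsAlgClosed.exists_pow_nat_eq
      (B u v * B u v - B u u * B v v) (n := 2) (by norm_num)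
    -- the root of the quadratic equation
    set t : K := (-B u v + z) / B u u with ht
    have h1 : t * B u u = -B u v + z := by rw [ht, div_mul_cancel₀ _ hq]
    refine ⟨v + t • u, W.add_mem hv (W.smul_mem t hu), fun h => hvu ?_, ?_⟩
    · rw [Submodule.mem_span_singleton]
      refine ⟨-t, ?_⟩
      rw [neg_smul]
      exact (eq_neg_of_add_eq_zero_left h).symm
    · have h2 : B u u * B (v + t • u) (v + t • u) = 0 := by
        simp only [map_add, map_smul, LinearMap.add_apply, LinearMap.smul_apply, smul_eq_mul]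
        rw [hsy' v u]
        have h3 : B u u * (B v v + t * B u v + t * (B u v + t * B u u)) =
            B u u * B v v + 2 * (t * B u u) * B u v + (t * B u u) ^ 2 := by ring
        rw [h3, h1]
        linear_combination hz
      exact (mul_eq_zero.1 h2).resolve_left hq
  · refine ⟨u, hu, hu0', ?_⟩
    have h1 := hsy u u
    rw [Int.cast_neg, Int.cast_one, neg_one_mul] at h1
    have h2 : (2 : K) * B u u = 0 := by linear_combination h1
    exact (mul_eq_zero.1 h2).resolve_left two_ne_zero

/-- **Hyperbolic families exist.** -/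
theorem exists_hyp [IsAlgClosed K] (hs : s = 1 ∨ s = -1)
    (hsy : ∀ x y, B x y = (s : K) * B y x) (hnd : ∀ x, (∀ y, B x y = 0) → x = 0) (m : ℕ)
    (hm : 2 * m ≤ finrank K V) : ∃ e f : Fin m → V, Hyp B m e f := by
  have hss : (s : K) * (s : K) = 1 := s_sq hs
  induction m with
  | zero => exact ⟨Fin.elim0, Fin.elim0, ⟨fun a => a.elim0, fun a => a.elim0, fun a => a.elim0⟩⟩
  | succ m ih =>
    obtain ⟨e, f, h⟩ := ih (by omega)
    have h1 := Hyp.le_W (B := B) e f
    obtain ⟨x, hxW, hx0, hxx⟩ := exists_isotropic (B := B) hs hsy (W := Hyp.W B e f) (by omega)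
    obtain ⟨hxe, hxf⟩ := Hyp.mem_W.1 hxW
    obtain ⟨z, hz⟩ : ∃ z, B x z ≠ 0 := by
      by_contra hcon
      push Not at hcon
      exact hx0 (hnd x hcon)
    have hfe : ∀ a b, B (f a) (e b) = if a = b then (s : K) else 0 := by
      intro a b
      rw [hsy, h.ef]
      by_cases hab : a = b
      · rw [if_pos hab.symm, if_pos hab, mul_one]
      · rw [if_neg (Ne.symm hab), if_neg hab, mul_zero]
    -- the projection of `z`
    obtain ⟨z', hz'⟩ : ∃ z', z' = z - ∑ a, (B (e a) z • f a + ((s : K) * B (f a) z) • e a) :=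
      ⟨_, rfl⟩
    have hz'e : ∀ b, B (e b) z' = 0 := by
      intro b
      rw [hz', map_sub, map_sum, Finset.sum_eq_single b]
      · rw [map_add, map_smul, map_smul, h.ef, if_pos rfl, h.ee, smul_eq_mul, smul_zero, mul_one,
          add_zero, sub_self]
      · intro a _ ha
        rw [map_add, map_smul, map_smul, h.ef, if_neg ha.symm, h.ee, smul_zero, smul_zero,
          add_zero]
      · intro hb
        exact absurd (Finset.mem_univ _) hb
    have hz'f : ∀ b, B (f b) z' = 0 := by
      intro b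
      rw [hz', map_sub, map_sum, Finset.sum_eq_single b]
      · rw [map_add, map_smul, map_smul, hfe, if_pos rfl, h.ff]
        simp only [smul_eq_mul]
        linear_combination (-B (f b) z) * hss
      · intro a _ ha
        rw [map_add, map_smul, map_smul, hfe, if_neg ha.symm, h.ff, smul_zero, smul_zero,
          add_zero]
      · intro hb
        exact absurd (Finset.mem_univ _) hb
    have hxz' : B x z' = B x z := by
      rw [hz', map_sub, map_sum, Finset.sum_eq_zero, sub_zero]
      intro a _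
      rw [map_add, map_smul, map_smul, hsy x (f a), hsy x (e a), hxf, hxe, mul_zero, smul_zero,
        smul_zero, add_zero]
    obtain ⟨y0, hy0⟩ : ∃ y0 : V, y0 = (B x z)⁻¹ • z' := ⟨_, rfl⟩
    have hxy0 : B x y0 = 1 := by
      rw [hy0, map_smul, hxz', smul_eq_mul, inv_mul_cancel₀ hz]
    have hy0x : B y0 x = s := by
      rw [hsy, hxy0, mul_one]
    obtain ⟨y, hy⟩ : ∃ y : V, y = y0 - ((1 / 2 : K) * B y0 y0 * (s : K)) • x := ⟨_, rfl⟩
    have hxy : B x y = 1 := by
      rw [hy, map_sub, map_smul, hxy0, hxx, smul_zero, sub_zero]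
    have hyy : B y y = 0 := by
      have h2 : B y y = B y0 y0 - ((1 / 2 : K) * B y0 y0 * (s : K)) * s -
          ((1 / 2 : K) * B y0 y0 * (s : K)) := by
        rw [hy]
        simp only [map_sub, map_smul, LinearMap.sub_apply, LinearMap.smul_apply, smul_eq_mul, hxx,
          hxy0, hy0x]
        ring
      rw [h2]
      rcases hs with rfl | rfl
      · rw [Int.cast_one]
        ring
      · have h3 := hsy y0 y0
        rw [Int.cast_neg, Int.cast_one, neg_one_mul] at h3
        have h4 : (2 : K) * B y0 y0 = 0 := by linear_combination h3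
        have h5 := (mul_eq_zero.1 h4).resolve_left two_ne_zero
        rw [h5]
        ring
    have hye : ∀ a, B (e a) y = 0 := by
      intro a
      rw [hy, map_sub, map_smul, hxe, hy0, map_smul, hz'e, smul_zero, smul_zero, sub_zero]
    have hyf : ∀ a, B (f a) y = 0 := by
      intro a
      rw [hy, map_sub, map_smul, hxf, hy0, map_smul, hz'f, smul_zero, smul_zero, sub_zero]
    refine ⟨Fin.cons x e, Fin.cons y f, ?_, ?_, ?_⟩
    · intro a b
      refine Fin.cases ?_ (fun a => ?_) a <;> refine Fin.cases ?_ (fun b => ?_) b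
      · exact hxx
      · rw [Fin.cons_zero, Fin.cons_succ, hsy, hxe, mul_zero]
      · rw [Fin.cons_zero, Fin.cons_succ]
        exact hxe a
      · rw [Fin.cons_succ, Fin.cons_succ]
        exact h.ee a b
    · intro a b
      refine Fin.cases ?_ (fun a => ?_) a <;> refine Fin.cases ?_ (fun b => ?_) b
      · exact hyy
      · rw [Fin.cons_zero, Fin.cons_succ, hsy, hyf, mul_zero]
      · rw [Fin.cons_zero, Fin.cons_succ]
        exact hyf a
      · rw [Fin.cons_succ, Fin.cons_succ]
        exact h.ff a b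
    · intro a b
      refine Fin.cases ?_ (fun a => ?_) a <;> refine Fin.cases ?_ (fun b => ?_) b
      · rw [Fin.cons_zero, Fin.cons_zero, if_pos rfl]
        exact hxy
      · rw [Fin.cons_zero, Fin.cons_succ, hsy, hxf, mul_zero, if_neg (Fin.succ_ne_zero b).symm]
      · rw [Fin.cons_zero, Fin.cons_succ, if_neg (Fin.succ_ne_zero a)]
        exact hye a
      · rw [Fin.cons_succ, Fin.cons_succ, h.ef]
        by_cases hab : a = b
        · rw [if_pos hab, if_pos (congrArg Fin.succ hab)]
        · rw [if_neg hab, if_neg fun h' => hab (Fin.succ_injective _ h')]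

section torus

variable {m : ℕ} {e f : Fin m → V} (h : Hyp B m e f) (hs : s = 1 ∨ s = -1)
  (hsy : ∀ x y, B x y = (s : K) * B y x)

/-- the element of the torus -/
def tor (B : V →ₗ[K] V →ₗ[K] K) (s : ℤ) (e f : Fin m → V) (τ : Fin m → K) : Module.End K V :=
  ∑ a, (τ a * (s : K)) • sk B s (e a) (f a)

theorem tor_mem {C : Submodule K (Module.End K V)} (hC : ∀ u v, sk B s u v ∈ C)
    (τ : Fin m → K) : tor B s e f τ ∈ C :=
  C.sum_mem fun a _ => C.smul_mem _ (hC _ _)

include hs hsy in
theorem tor_skew (τ : Fin m → K) : Skew B (tor B s e f τ) := by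
  intro x y
  rw [tor, LinearMap.sum_apply, LinearMap.sum_apply, map_sum, map_sum, LinearMap.sum_apply,
    ← Finset.sum_add_distrib]
  refine Finset.sum_eq_zero fun a _ => ?_
  rw [LinearMap.smul_apply, LinearMap.smul_apply, map_smul, map_smul, LinearMap.smul_apply,
    ← smul_add, sk_skew hsy hs, smul_zero]

include h hs hsy in
theorem tor_e (τ : Fin m → K) (b : Fin m) : tor B s e f τ (e b) = τ b • e b := by
  have hss : (s : K) * (s : K) = 1 := s_sq hs
  rw [tor, LinearMap.sum_apply, Finset.sum_eq_single b]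
  · rw [LinearMap.smul_apply, sk_apply, h.ee, mul_zero, zero_smul, sub_zero, hsy (f b) (e b), h.ef,
      if_pos rfl, mul_one, smul_smul, mul_assoc, hss, mul_one]
  · intro a _ ha
    rw [LinearMap.smul_apply, sk_apply, h.ee, mul_zero, zero_smul, sub_zero, hsy (f a) (e b), h.ef,
      if_neg ha.symm, mul_zero, zero_smul, smul_zero]
  · intro hb
    exact absurd (Finset.mem_univ _) hb

include h hs in
theorem tor_f (τ : Fin m → K) (b : Fin m) : tor B s e f τ (f b) = (-τ b) • f b := by
  have hss : (s : K) * (s : K) = 1 := s_sq hs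
  rw [tor, LinearMap.sum_apply, Finset.sum_eq_single b]
  · rw [LinearMap.smul_apply, sk_apply, h.ff, zero_smul, zero_sub, h.ef, if_pos rfl, mul_one,
      smul_neg, smul_smul, mul_assoc, hss, mul_one, neg_smul]
  · intro a _ ha
    rw [LinearMap.smul_apply, sk_apply, h.ff, zero_smul, zero_sub, h.ef, if_neg ha, mul_zero,
      zero_smul, neg_zero, smul_zero]
  · intro hb
    exact absurd (Finset.mem_univ _) hb

include hs hsy in
/-- orthogonal vectors are killed -/
theorem tor_u (τ : Fin m → K) {u : V} (h1 : ∀ a, B (e a) u = 0) (h2 : ∀ a, B (f a) u = 0) :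
    tor B s e f τ u = 0 := by
  rw [tor, LinearMap.sum_apply]
  refine Finset.sum_eq_zero fun a _ => ?_
  rw [LinearMap.smul_apply, sk_apply, h1, h2, mul_zero, zero_smul, zero_smul, sub_zero, smul_zero]

include h hs hsy in
/-- **The roots generate the characters of the torus.** -/
theorem tor_roots {C : Submodule K (Module.End K V)} (hC : ∀ u v, sk B s u v ∈ C)
    (τ : Fin m → K) (hm : s = 1 → 2 ≤ m ∨ (m = 1 ∧ 3 ≤ finrank K V)) (a : Fin m) :
    τ a ∈ Submodule.span ℚ {c : K | ∃ w ∈ C, w ≠ 0 ∧
      tor B s e f τ * w - w * tor B s e f τ = c • w} := by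
  have hss : (s : K) * (s : K) = 1 := s_sq hs
  have hx := tor_skew (e := e) (f := f) hs hsy τ
  have he0 : ∀ b, e b ≠ 0 := fun b h0 => by
    have h1 := h.ef b b
    rw [h0, map_zero, LinearMap.zero_apply, if_pos rfl] at h1
    exact zero_ne_one h1
  set S : Set K := {c : K | ∃ w ∈ C, w ≠ 0 ∧ tor B s e f τ * w - w * tor B s e f τ = c • w}
  -- the roots
  have r1 : ∀ a b, sk B s (e a) (e b) ≠ 0 → τ a + τ b ∈ S := by
    intro a b h0
    refine ⟨_, hC (e a) (e b), h0, ?_⟩
    rw [sk_br hx, tor_e h hs hsy, tor_e h hs hsy, sk_smul_left, sk_smul_right, add_smul]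
  have r2 : ∀ a b, sk B s (e a) (f b) ≠ 0 → τ a - τ b ∈ S := by
    intro a b h0
    refine ⟨_, hC (e a) (f b), h0, ?_⟩
    rw [sk_br hx, tor_e h hs hsy, tor_f h hs, sk_smul_left, sk_smul_right, sub_smul, neg_smul,
      sub_eq_add_neg]
  have half : (2 : K) * τ a ∈ Submodule.span ℚ S → τ a ∈ Submodule.span ℚ S := by
    intro h1
    have h2 := Submodule.smul_mem _ (1 / 2 : ℚ) h1
    have h3 : (1 / 2 : ℚ) • ((2 : K) * τ a) = τ a := by
      rw [Algebra.smul_def]
      simp only [one_div, eq_ratCast, Rat.cast_inv, Rat.cast_ofNat]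
      rw [← mul_assoc, inv_mul_cancel₀ two_ne_zero, one_mul]
    rwa [h3] at h2
  rcases hs with rfl | rfl
  · rcases hm rfl with hm | ⟨rfl, hd⟩
    · -- another index
      obtain ⟨b, hb⟩ : ∃ b : Fin m, b ≠ a := by
        have : Nontrivial (Fin m) := Fin.nontrivial_iff_two_le.2 hm
        exact exists_ne a
      have h1 : τ a + τ b ∈ S := r1 a b fun h0 => by
        have h2 := LinearMap.congr_fun h0 (f b)
        rw [sk_apply, h.ef, h.ef, if_pos rfl, if_neg hb.symm, mul_zero, zero_smul, one_smul,
          sub_zero] at h2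
        exact he0 a h2
      have h2 : τ a - τ b ∈ S := r2 a b fun h0 => by
        have h2 := LinearMap.congr_fun h0 (e b)
        rw [sk_apply, h.ee, hsy (f b) (e b), h.ef, if_pos rfl, mul_zero, zero_smul, Int.cast_one,
          mul_one, one_smul, sub_zero] at h2
        exact he0 a h2
      apply half
      have h3 := Submodule.add_mem _ (Submodule.subset_span h1 : _ ∈ Submodule.span ℚ S)
        (Submodule.subset_span h2)
      have h4 : τ a + τ b + (τ a - τ b) = 2 * τ a := by ring
      rwa [h4] at h3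
    · obtain ⟨⟨u, hu⟩, hu0⟩ : ∃ u : Hyp.W B e f, u ≠ 0 := by
        have h1 := Hyp.le_W (B := B) e f
        have h2 : 0 < finrank K (Hyp.W B e f) := by omega
        have := Module.finrank_pos_iff.1 h2
        exact exists_ne 0
      have hu0' : u ≠ 0 := fun h => hu0 (Subtype.ext h)
      obtain ⟨hue, huf⟩ := Hyp.mem_W.1 hu
      refine Submodule.subset_span ⟨_, hC (e a) u, fun h0 => ?_, ?_⟩
      · have h2 := LinearMap.congr_fun h0 (f a)
        rw [sk_apply, hsy u (f a), huf, mul_zero, zero_smul, h.ef, if_pos rfl, Int.cast_one,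
          mul_one, one_smul, zero_sub] at h2
        exact hu0' (neg_eq_zero.1 h2)
      · rw [sk_br hx, tor_e h (Or.inl rfl) hsy, tor_u (Or.inl rfl) hsy τ hue huf, sk_smul_left]
        have h3 : sk B 1 (e a) (0 : V) = 0 := by
          have := sk_smul_right (B := B) (s := 1) (0 : K) (e a) (0 : V)
          rwa [smul_zero, zero_smul] at this
        rw [h3, add_zero]
  · apply half
    have h1 : τ a + τ a ∈ S := r1 a a fun h0 => by
      have h2 := LinearMap.congr_fun h0 (f a)
      rw [sk_apply, h.ef, if_pos rfl, Int.cast_neg, Int.cast_one, mul_one, one_smul, neg_smul,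
        one_smul, sub_neg_eq_add, ← two_smul K] at h2
      exact he0 a ((smul_eq_zero.1 h2).resolve_left two_ne_zero)
    have h2 : (2 : K) * τ a = τ a + τ a := by ring
    rw [h2]
    exact Submodule.subset_span h1

end torus

/-- **Tori.** -/
theorem exists_torus [IsAlgClosed K] (hs : s = 1 ∨ s = -1)
    (hsy : ∀ x y, B x y = (s : K) * B y x) (hnd : ∀ x, (∀ y, B x y = 0) → x = 0)
    (hdim : s = 1 → 3 ≤ finrank K V) {C : Submodule K (Module.End K V)}
    (hC : ∀ u v, sk B s u v ∈ C) (τ : Fin (finrank K V / 2) → K) :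
    ∃ x ∈ C, ∀ a, τ a ∈ Submodule.span ℚ {c : K | ∃ w ∈ C, w ≠ 0 ∧ x * w - w * x = c • w} := by
  obtain ⟨e, f, h⟩ := exists_hyp (B := B) hs hsy hnd (finrank K V / 2) (by omega)
  refine ⟨_, tor_mem hC τ, fun a => tor_roots h hs hsy hC τ (fun h1 => ?_) a⟩
  have := hdim h1
  omega

end

end Pool.Agent.V5helper95.IF
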