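import Pool.Agent.V5helper95.IF.Sys
import Pool.Agent.V5helper95.IF.Tor
import Pool.Agent.V5helper95.IF.Rk
import Pool.Agent.V5helper95.IF.Mid

/-!
# Families of varieties with irreducible, pairwise different spaces of skew operators: the theorem
-/

open CategoryTheory AlgebraicGeometry Finset

set_option autoImplicit false
set_option linter.unusedSectionVars false

universe u

namespace Pool.Agent.V5helper95.IF

open Pool.Agent.TH125.Gal Pool.Agent.N179.GR

open Pool.Agent.H914 Pool.Agent.H914.VarClass Pool.Agent.H914.VarClass.Obj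
  Pool.Agent.H914.WeilCohomology Pool.Agent.H281R3.HT Pool.Agent.W552 Pool.Agent.H447

variable {k : Type u} [Field k] {𝒱 : VarClass k} {ops : CycleOps 𝒱}
  {W : WeilCohomology.{u, 0} ops} {Γ : Type} [Group Γ] {χ : Γ →* W.Kˣ} {G : Set (GVar W Γ)}

section

variable {ι : Type} {X : ι → GVar W Γ} {D : ∀ i, (X i).X.Cycles}

/-- the exceptional indices -/
def exc (h : Fam χ G X D) (Z : GVar W Γ) : Set ι :=
  {i | ¬Spl (h.tr i) {full (W.H Z.X) (algR Z.act)}}

theorem spl_of_not_mem (h : Fam χ G X D) {Z : GVar W Γ} {i : ι} (hi : i ∉ exc h Z) :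
    Spl (h.tr i) {full (W.H Z.X) (algR Z.act)} := by
  by_contra hcon
  exact hi hcon

theorem exc_bound (e : W.K ≃+* ℂ) (h : Fam χ G X D)
    (hp : ∀ i j, i ≠ j → Spl (h.tr i) {h.tr j}) {Z : GVar W Γ} (hZ : Z ∈ G) (F : Finset ι)
    (hF : (F : Set ι) ⊆ exc h Z) :
    ∑ i ∈ F, 2 * (transRank W (X i).X / 2) + semiRank Z ≤ betti Z := by
  classical
  have halg : IsAlgClosed W.K := IsAlgClosed.of_ringEquiv ℂ W.K e.symm
  have hgal := isGalois (h.galoisClass.galois Z hZ)
  have h1 := rank_sum_le e (V := fun i => transcendental W (X i).X)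
    (r := fun i => rhoT (isGalois (h.galoisClass.galois (X i) (h.mem i))))
    (t := algR Z.act) F (fun i => transRank W (X i).X / 2) (fun i hi => ?_) (fun i hi τ => ?_)
    (fun i _ j _ hij => hp i j hij)
  · have h2 := h1.2 ⟨χ ^ Z.X.dim, (LinearMap.mul W.K (W.H Z.X)).compr₂ (W.tr Z.X),
      fun x hx => W.nondeg x fun y => hx y, fun g x y => ?_⟩
    · have h4 : {x : W.H Z.X | x ∈ (⊤ : Submodule W.K (W.H Z.X)) ∧
          (full (W.H Z.X) (algR Z.act)).Eig x} = {x : W.H Z.X | ∃ Δ : Subgroup Γ,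
            Δ.FiniteIndex ∧ ∀ g ∈ Δ, ∃ c : W.K, Z.act g x = c • x} := by
        ext x
        exact ⟨fun h => h.2, fun h => ⟨trivial, h⟩⟩
      have h3 : Module.finrank W.K (eigSpan (algR Z.act) ⊤) = semiRank Z := by
        unfold eigSpan semiRank semiRankAct
        rw [h4]
      rw [h3] at h2
      rw [← Finset.mul_sum]
      exact h2
    · have h4 := hgal.tr_act g (x * y)
      rw [map_mul] at h4
      rw [MonoidHom.pow_apply, Units.val_pow_eq_pow_val]
      exact h4
  · refine aI_bot (μ := χ ^ (X i).X.dim) (rform_inv (P := ⟨(X i).X, D i⟩) _)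
      (neg_one_pow_eq_or ℤ _) (rform_symm (P := ⟨(X i).X, D i⟩) (h.transIrred i).middle)
      (trans_nondeg (h.homEqNum i)) (h.skIrr i) ?_ (hF hi)
    rintro N rfl
    exact isFull_full _
  · exact exists_torus (B := rform W (X i).X (transcendental W (X i).X)) (neg_one_pow_eq_or ℤ _)
      (rform_symm (P := ⟨(X i).X, D i⟩) (h.transIrred i).middle)
      (trans_nondeg (h.homEqNum i)) (fun h' => h.rank i (even_of_one h')) (h.core i) τ

/-- the conjugation in terms of the representation -/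
theorem conj_iff (h : GaloisClass χ G) {A : GVar W Γ} (hA : A ∈ G) (g : Γ)
    (x y : Ops (transcendental W A.X)) : x.Conj y (A.act g) ↔
      y = (cj (rhoT (isGalois (h.galois A hA))) g x :
        Module.End W.K (transcendental W A.X)) := by
  have h0 : ∀ t : transcendental W A.X, (cj (rhoT (isGalois (h.galois A hA))) g x :
        Module.End W.K (transcendental W A.X)) t =
      rhoT (isGalois (h.galois A hA)) g
        ((show Module.End W.K (transcendental W A.X) from x)
          (rhoT (isGalois (h.galois A hA)) g⁻¹ t)) :=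
    fun t => rfl
  constructor
  · intro hxy
    refine LinearMap.ext fun t => ?_
    have h1 : rhoT (isGalois (h.galois A hA)) g
        (rhoT (isGalois (h.galois A hA)) g⁻¹ t) = t := rg_inv _ g t
    have h2 : (t : W.H A.X) =
        A.act g (rhoT (isGalois (h.galois A hA)) g⁻¹ t : transcendental W A.X) :=
      (congrArg Subtype.val h1).symm
    refine Eq.trans ?_ (h0 t).symm
    exact Subtype.ext (hxy _ t h2)
  · rintro rfl s t hst
    have h1 : rhoT (isGalois (h.galois A hA)) g s = t := Subtype.ext hst.symm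
    have h2 : rhoT (isGalois (h.galois A hA)) g⁻¹ t = s := by
      rw [← h1]
      exact rg_inv' _ g s
    have h3 := h0 t
    rw [h2] at h3
    exact congrArg Subtype.val h3

theorem skewOp_iff {A : GVar W Γ} (x : Ops (transcendental W A.X)) :
    x.Skew (W.tr A.X) ↔ Skew (rform W A.X (transcendental W A.X)) x :=
  forall_congr' fun s => forall_congr' fun t => by
    rw [map_add]
    exact Iff.rfl

/-- irreducible spaces of skew operators -/
theorem skIrr_of_skewIrred (h : GaloisClass χ G) {A : GVar W Γ} (hA : A ∈ G)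
    (hmid : transcendental W A.X ≤ W.gr A.X A.X.dim) (hi : SkewIrred A) :
    SkIrr (rhoT (isGalois (h.galois A hA))) (rform W A.X (transcendental W A.X))
      ((-1) ^ A.X.dim) := by
  intro M hM hst
  refine (hi M (fun x hx => (skewOp_iff x).2 (hM x hx)) ?_).imp_right fun h1 u v => ?_
  · rintro x y ⟨g, hxy⟩ hx
    rw [(conj_iff h hA g x y).1 hxy]
    exact hst g x hx
  · exact h1 _ ((skewOp_iff _).2
      (sk_skew (rform_symm (P := ⟨A.X, 0⟩) hmid) (neg_one_pow_eq_or ℤ _) u v))

end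

section

variable {ι : Type} {X : ι → GVar W Γ} {D : ∀ i, (X i).X.Cycles}

theorem Big.transIrred {A : GVar W Γ} {D : A.X.Cycles} (h : Big A D) : TransIrred A D :=
  ⟨⟨h.div, h.hard, lefschetzB_of_middle h.middle h.div h.hard, h.hodge⟩, h.middle,
    h.irreducible⟩

theorem BigFamily.fam [IsAlgClosed W.K] (h : BigFamily χ G X D) : Fam χ G X D := by
  refine ⟨h.galoisClass, h.mem, fun i => (h.big i).transIrred, fun i => (h.big i).pos,
    fun i => (h.big i).rank, fun i => ?_⟩
  rcases (h.big i).big with h1 | ⟨g, hg⟩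
  · exact skIrr_of_skewIrred h.galoisClass (h.mem i) (h.big i).middle h1
  · exact skIrr_trans_of_pl (P := ⟨(X i).X, D i⟩)
      (homEqNum_of_pol (h.big i).transIrred.polarization)
      (h.big i).middle _ (h.big i).irreducible (g := g) hg (h.big i).rank

theorem BigFamily.spl [IsAlgClosed W.K] (h : BigFamily χ G X D) (i j : ι)
    (hij : i ≠ j) : Spl (h.fam.tr i) {h.fam.tr j} := by
  have hB := fun i => rform_inv (P := ⟨(X i).X, D i⟩)
    (isGalois (h.galoisClass.galois (X i) (h.mem i)))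
  have hsy := fun i => rform_symm (P := ⟨(X i).X, D i⟩) (h.big i).middle
  refine spl_of_not_iso (hB i) (neg_one_pow_eq_or ℤ _) (hsy i) (trans_nondeg (h.fam.homEqNum i))
    (h.fam.skIrr i) (h.fam.core i) (hB j) (neg_one_pow_eq_or ℤ _) (hsy j)
    (trans_nondeg (h.fam.homEqNum j)) (h.fam.skIrr j) (h.fam.core j) ?_
  rintro ⟨f, h1, h2, h3, h4, h5⟩
  refine h.notIso i j hij ⟨f, ⟨fun x hx => (skewOp_iff _).2 (h1 x ((skewOp_iff _).1 hx)),
    fun x hx => h2 x ((skewOp_iff _).1 hx), fun y hy => ?_,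
    fun x y hx hy => h4 x y ((skewOp_iff _).1 hx) ((skewOp_iff _).1 hy)⟩,
    fun g x y hx hxy => ?_⟩
  · obtain ⟨x, hx, hxy⟩ := h3 y ((skewOp_iff _).1 hy)
    exact ⟨x, (skewOp_iff _).2 hx, hxy⟩
  · rw [(conj_iff h.galoisClass (h.mem i) g x y).1 hxy]
    exact (conj_iff h.galoisClass (h.mem j) g (f x) _).2 (h5 g x ((skewOp_iff _).1 hx))

/-- **The exceptional indices.** -/
theorem bounded [IsAlgClosed W.K] (e : W.K ≃+* ℂ) (h : BigFamily χ G X D) :
    Bounded G X (exc h.fam) := by
  refine ⟨fun Z hZ F hF => exc_bound e h.fam h.spl hZ F hF, ?_, ?_⟩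
  · intro j i hi
    by_contra hij
    apply hi
    refine (h.spl i j hij).detect1 fun D' hD' h0 N hN => ?_
    rw [Set.mem_singleton_iff.1 hN]
    exact kill_coh (h.fam.homEqNum j) _ hD' (h0 _ rfl)
  · rintro A hA B hB C hC ⟨υ, h1, h2⟩ i hi
    by_contra hcon
    rw [Set.mem_union, not_or] at hcon
    apply hi
    refine ((spl_of_not_mem h.fam hcon.1).union (spl_of_not_mem h.fam hcon.2)).detect1
      fun D' hD' h0 N hN => ?_
    rw [Set.mem_singleton_iff.1 hN]
    exact Θ_prod h1 h2 (h0 _ (Or.inl rfl)) (h0 _ (Or.inr rfl))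

/-- **The standard conjecture of Hodge type and the conjecture D.** -/
theorem final_hodge (hK : Nonempty (W.K ≃+* ℂ)) (h : BigFamily χ G X D) :
    ∃ E : GVar W Γ → Set ι, Bounded G X E ∧ ∀ Z ∈ G, ∀ (B : Z.X.Cycles) (L : List (ι × ℕ)),
      Z.X.IsCyc 1 B → HardLefschetz W Z.X B → Adm X (E Z) L →
      (HodgeType W (nodalTower X D Z B L).X (nodalTower X D Z B L).D ↔ HodgeType W Z.X B) ∧
      (HomEqNum W (nodalTower X D Z B L).X ↔ HomEqNum W Z.X) := by
  obtain ⟨e⟩ := hK
  have halg : IsAlgClosed W.K := IsAlgClosed.of_ringEquiv ℂ W.K e.symm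
  refine ⟨exc h.fam, bounded e h, fun Z hZ B L hB hHL hL => ⟨?_, ?_⟩⟩
  · exact tower_hodge h.fam hZ (fun i hi => spl_of_not_mem h.fam hi) h.spl hB hHL L hL.admO
  · exact tower_homEqNum h.fam hZ (fun i hi => spl_of_not_mem h.fam hi) h.spl B L hL.admO

/-- **The conjecture A.** -/
theorem final_lef (hK : Nonempty (W.K ≃+* ℂ)) (h : BigFamily χ G X D) :
    ∃ E : GVar W Γ → Set ι, Bounded G X E ∧ ∀ Z ∈ G, ∀ (B : Z.X.Cycles) (L : List (ι × ℕ)),
      Z.X.IsCyc 1 B → HardLefschetz W Z.X B → Adm X (E Z) L →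
      (LefschetzA W (nodalTower X D Z B L).X (nodalTower X D Z B L).D ↔ LefschetzA W Z.X B) ∧
      (LefAll W (nodalTower X D Z B L).X ↔ LefAll W Z.X) := by
  obtain ⟨e⟩ := hK
  have halg : IsAlgClosed W.K := IsAlgClosed.of_ringEquiv ℂ W.K e.symm
  refine ⟨exc h.fam, bounded e h, fun Z hZ B L hB hHL hL => ⟨?_, ?_⟩⟩
  · exact tower_lefschetzA h.fam hZ (fun i hi => spl_of_not_mem h.fam hi) h.spl hB hHL L hL.admO
  · exact tower_lefAll h.fam hZ (fun i hi => spl_of_not_mem h.fam hi) h.spl B L hL.admO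

end

end Pool.Agent.V5helper95.IF
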