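import Pool.Agent.TH125.Gal.Final

/-!
# Lie algebras of skew operators which are normalized by a group with a pseudoreflection
-/

open Finset Function

set_option autoImplicit false
set_option linter.unusedSectionVars false

namespace Pool.Agent.V5helper95.IF

open Pool.Agent.TH125.Gal

universe u v w x

variable {K : Type u} [Field K] [CharZero K] {T : Type v} [AddCommGroup T] [Module K T]
  {G : Type x} [Group G] {B : T →ₗ[K] T →ₗ[K] K} {ρ : G →* (T →ₗ[K] T)}

/-- A Lie algebra of skew operators which is normalized by the group. -/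
structure NL (B : T →ₗ[K] T →ₗ[K] K) (ρ : G →* (T →ₗ[K] T)) (L : Submodule K (T →ₗ[K] T)) :
    Prop where
  skew : ∀ X ∈ L, Skew B X
  br : ∀ X ∈ L, ∀ Y ∈ L, X ∘ₗ Y - Y ∘ₗ X ∈ L
  cj : ∀ X ∈ L, ∀ γ, ρ γ ∘ₗ X ∘ₗ ρ γ⁻¹ ∈ L

variable {L : Submodule K (T →ₗ[K] T)} (hL : NL B ρ L)

include hL in
theorem brk {X Y : T →ₗ[K] T} (hX : X ∈ L) (hY : Y ∈ L) : X ∘ₗ Y - Y ∘ₗ X ∈ L :=
  hL.br X hX Y hY

include hL in
theorem cjm {X : T →ₗ[K] T} (hX : X ∈ L) (γ : G) : ρ γ ∘ₗ X ∘ₗ ρ γ⁻¹ ∈ L := hL.cj X hX γ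

include hL in
theorem wg_conj {μ : G → K} (hμ : ∀ g, μ g ≠ 0)
    (hB : ∀ g x y, B (ρ g x) (ρ g y) = μ g * B x y) (γ : G) {a b : T}
    (h : wg B a b ∈ L) : wg B (ρ γ a) (ρ γ b) ∈ L := by
  have h1 := cjm hL h γ
  have h2 : ρ γ ∘ₗ wg B a b ∘ₗ ρ γ⁻¹ = (μ γ)⁻¹ • wg B (ρ γ a) (ρ γ b) := by
    rw [wg, wg, smul_sub, ← rk_conj hμ hB, ← rk_conj hμ hB, LinearMap.sub_comp,
      LinearMap.comp_sub]
  rw [h2] at h1
  have h3 := Submodule.smul_mem _ (μ γ) h1
  rwa [smul_smul, mul_inv_cancel₀ (hμ γ), one_smul] at h3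

/-- the partners of a vector -/
def prt (B : T →ₗ[K] T →ₗ[K] K) (L : Submodule K (T →ₗ[K] T)) (δ : T) : Submodule K T where
  carrier := {w | wg B δ w ∈ L}
  zero_mem' := by
    have h : wg B δ 0 = 0 := by
      apply LinearMap.ext
      intro x
      simp [wg_apply]
    show wg B δ 0 ∈ L
    rw [h]
    exact Submodule.zero_mem _
  add_mem' := by
    intro a b ha hb
    show wg B δ (a + b) ∈ L
    rw [wg_add_right]
    exact Submodule.add_mem _ ha hb
  smul_mem' := by
    intro c a ha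
    show wg B δ (c • a) ∈ L
    rw [wg_smul_right]
    exact Submodule.smul_mem _ c ha

theorem mem_partners {δ w : T} : w ∈ prt B L δ ↔ wg B δ w ∈ L := Iff.rfl

section even

variable (hsy : ∀ x y, B x y = B y x) {μ : G → K} (hμ : ∀ g, μ g ≠ 0)
  (hB : ∀ g x y, B (ρ g x) (ρ g y) = μ g * B x y) {g : G} {δ : T} (hq : B δ δ ≠ 0)
  (hg : ∀ x, ρ g x = refl B δ x)

include hL hsy hq hg hB in
/-- `A δ` is a partner -/
theorem apply_mem_partners {A : T →ₗ[K] T} (hA : A ∈ L) :
    A δ ∈ prt B L δ := by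
  have hR : ∀ x, ρ g (ρ g x) = x := fun x => by rw [hg, hg, refl_refl hq]
  have h1 := cjm hL hA g
  have hinv : ∀ x, ρ g⁻¹ x = ρ g x := by
    intro x
    have := rho_inv' ρ g (ρ g x)
    rw [hR] at this
    exact this
  have hAδ : B δ (A δ) = 0 := by
    have h2 := hL.skew _ hA δ δ
    rw [hsy (A δ) δ] at h2
    have h3 : (2 : K) * B δ (A δ) = 0 := by linear_combination h2
    exact (mul_eq_zero.1 h3).resolve_left two_ne_zero
  have h2 : A - ρ g ∘ₗ A ∘ₗ ρ g⁻¹ = (2 / B δ δ) • wg B (A δ) δ := by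
    apply LinearMap.ext
    intro x
    rw [LinearMap.sub_apply, LinearMap.comp_apply, LinearMap.comp_apply, hinv, hg, hg, refl_apply,
      refl_apply, map_sub, map_sub, map_smul, map_smul, hAδ, LinearMap.smul_apply, wg_apply]
    have h3 := hL.skew _ hA δ x
    have h4 : B δ (A x) = - B (A δ) x := (neg_eq_of_add_eq_zero_right h3).symm
    rw [h4, smul_zero, sub_zero]
    module
  have h3 : (2 / B δ δ) • wg B (A δ) δ ∈ L := by
    rw [← h2]
    exact Submodule.sub_mem _ hA h1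
  have h4 := Submodule.smul_mem _ (-(B δ δ / 2)) h3
  rw [smul_smul] at h4
  have h5 : -(B δ δ / 2) * (2 / B δ δ) = -1 := by field_simp
  rw [h5, neg_one_smul, ← wg_neg_swap] at h4
  exact h4

include hL hsy hq in
/-- pairs of partners -/
theorem pair_mem {w w' : T} (hw : w ∈ prt B L δ) (hw' : w' ∈ prt B L δ) :
    wg B w w' ∈ L := by
  have hw1 : wg B δ w ∈ L := hw
  have hw1' : wg B δ w' ∈ L := hw'
  have h1 := brk hL hw1 hw1'
  rw [wg_bracket (hL.skew _ hw1)] at h1
  have h2 : wg B (wg B δ w δ) w' + wg B δ (wg B δ w w') = B w δ • wg B δ w' -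
      B δ δ • wg B w w' - B δ w' • wg B δ w := by
    apply LinearMap.ext
    intro x
    simp only [wg_apply, LinearMap.add_apply, LinearMap.sub_apply, LinearMap.smul_apply, map_sub,
      map_smul, smul_eq_mul]
    module
  rw [h2] at h1
  have h3 : B δ δ • wg B w w' ∈ L := by
    have h4 : B δ δ • wg B w w' = B w δ • wg B δ w' - B δ w' • wg B δ w - (B w δ • wg B δ w' -
      B δ δ • wg B w w' - B δ w' • wg B δ w) := by abel
    rw [h4]
    exact Submodule.sub_mem _ (Submodule.sub_mem _ (Submodule.smul_mem _ _ hw1')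
      (Submodule.smul_mem _ _ hw1)) h1
  have h4 := Submodule.smul_mem _ (B δ δ)⁻¹ h3
  rwa [smul_smul, inv_mul_cancel₀ hq, one_smul] at h4

include hL hsy hq hg hB in
/-- stability -/
theorem partners_stable {A : T →ₗ[K] T} (hA : A ∈ L) {w : T}
    (hw : w ∈ prt B L δ) : A w ∈ prt B L δ := by
  have h0 : wg B δ w ∈ L := hw
  have h1 := brk hL hA h0
  rw [wg_bracket (hL.skew _ hA)] at h1
  have h2 := pair_mem hL hsy hq (apply_mem_partners hL hsy hB hq hg hA) hw
  have h3 := Submodule.sub_mem _ h1 h2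
  rw [add_sub_cancel_left] at h3
  exact h3

include hL in
/-- partners of translates -/
theorem partners_conj (hμ : ∀ g, μ g ≠ 0) (hB : ∀ g x y, B (ρ g x) (ρ g y) = μ g * B x y)
    (γ : G) {δ w : T} (hw : w ∈ prt B L δ) :
    ρ γ w ∈ prt B L (ρ γ δ) := wg_conj hL hμ hB γ hw

include hL hsy hμ hB hq hg in
/-- the radicals are orthogonal -/
theorem rad_orth {γ γ' : G} {x y : T} (hx : x ∈ prt B L (ρ γ δ))
    (hx' : ∀ z ∈ prt B L (ρ γ δ), B x z = 0)
    (hy : y ∈ prt B L (ρ γ' δ)) (hy' : ∀ z ∈ prt B L (ρ γ' δ), B y z = 0) :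
    B y x = 0 := by
  have hqγ : ∀ γ, B (ρ γ δ) (ρ γ δ) ≠ 0 := fun γ => by
    rw [hB]
    exact mul_ne_zero (hμ γ) hq
  have hy0 : wg B y (ρ γ' δ) ∈ L := by
    rw [wg_neg_swap]
    exact Submodule.neg_mem _ hy
  have hz : wg B y (ρ γ' δ) x ∈ prt B L (ρ γ δ) :=
    partners_stable hL hsy hB (hqγ γ) (conj_refl hμ hB hg γ) hy0 hx
  have hzz : B (wg B y (ρ γ' δ) x) (wg B y (ρ γ' δ) x) = 0 := by
    have h1 := hL.skew _ hy0 x (wg B y (ρ γ' δ) x)
    rw [hx' _ (partners_stable hL hsy hB (hqγ γ) (conj_refl hμ hB hg γ) hy0 hz), add_zero] at h1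
    exact h1
  have hδ : ρ γ' δ ∈ prt B L (ρ γ' δ) := by
    show wg B (ρ γ' δ) (ρ γ' δ) ∈ L
    rw [wg_self]
    exact Submodule.zero_mem _
  have h1 := hy' _ hy
  have h2 := hy' _ hδ
  simp only [wg_apply, map_sub, map_smul, LinearMap.sub_apply, LinearMap.smul_apply,
    smul_eq_mul, h1, h2, hsy (ρ γ' δ) y] at hzz
  have h3 : B y x * B y x * B (ρ γ' δ) (ρ γ' δ) = 0 := by linear_combination hzz
  rcases mul_eq_zero.1 h3 with h | h
  · rcases mul_eq_zero.1 h with h | h <;> exact h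
  · exact absurd h (hqγ γ')

include hL hsy hμ hB hq hg in
theorem rad_zero (hSI : SI ρ) {γ : G} {x : T} (hx : x ∈ prt B L (ρ γ δ))
    (hx' : ∀ z ∈ prt B L (ρ γ δ), B x z = 0) : x = 0 := by
  set P : Set T := {x | ∃ γ : G, x ∈ prt B L (ρ γ δ) ∧
    ∀ z ∈ prt B L (ρ γ δ), B x z = 0} with hP
  have h1 : ∀ g' ∈ (⊤ : Subgroup G), ∀ x ∈ Submodule.span K P, ρ g' x ∈ Submodule.span K P := by
    intro g' _ x hx
    induction hx using Submodule.span_induction with
    | mem x hx =>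
      obtain ⟨γ, h1, h2⟩ := hx
      refine Submodule.subset_span ⟨g' * γ, ?_, fun z hz => ?_⟩
      · rw [rho_mul_apply]
        exact partners_conj hL hμ hB g' h1
      · have h3 := partners_conj hL hμ hB g'⁻¹ hz
        rw [rho_mul_apply, rho_inv'] at h3
        have h4 := h2 _ h3
        have h5 := hB g' x (ρ g'⁻¹ z)
        rw [rho_inv, h4, mul_zero] at h5
        exact h5
    | zero => rw [map_zero]; exact Submodule.zero_mem _
    | add x y _ _ hx hy => rw [map_add]; exact Submodule.add_mem _ hx hy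
    | smul a x _ hx => rw [map_smul]; exact Submodule.smul_mem _ a hx
  have h2 : ∀ x ∈ Submodule.span K P, ∀ y ∈ Submodule.span K P, B x y = 0 := by
    intro x hx
    induction hx using Submodule.span_induction with
    | mem x hx =>
      intro y hy
      induction hy using Submodule.span_induction with
      | mem y hy =>
        obtain ⟨γ, h1, h2⟩ := hx
        obtain ⟨γ', h1', h2'⟩ := hy
        exact rad_orth hL hsy hμ hB hq hg h1' h2' h1 h2
      | zero => rw [map_zero]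
      | add y y' _ _ hy hy' => rw [map_add, hy, hy', add_zero]
      | smul a y _ hy => rw [map_smul, hy, smul_zero]
    | zero => intro y _; rw [map_zero, LinearMap.zero_apply]
    | add x x' _ _ hx hx' =>
      intro y hy
      rw [map_add, LinearMap.add_apply, hx y hy, hx' y hy, add_zero]
    | smul a x _ hx =>
      intro y hy
      rw [map_smul, LinearMap.smul_apply, hx y hy, smul_zero]
  have h3 : x ∈ Submodule.span K P := Submodule.subset_span ⟨γ, hx, hx'⟩
  rcases hSI ⊤ inferInstance _ h1 with h | h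
  · rw [h, Submodule.mem_bot] at h3
    exact h3
  · exact absurd (h2 δ (by rw [h]; exact Submodule.mem_top) δ
      (by rw [h]; exact Submodule.mem_top)) hq

include hL hsy hμ hB hq hg in
/-- **the orthogonal Lie algebra** -/
theorem even_full [Module.Finite K T] (hSI : SI ρ) {δ' : T} (hδ' : δ' ∈ prt B L δ)
    (hne : ∀ c : K, δ' ≠ c • δ) (a b : T) : wg B a b ∈ L := by
  have hqγ : ∀ γ, B (ρ γ δ) (ρ γ δ) ≠ 0 := fun γ => by
    rw [hB]
    exact mul_ne_zero (hμ γ) hq
  have hδ : δ ∈ prt B L δ := by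
    show wg B δ δ ∈ L
    rw [wg_self]
    exact Submodule.zero_mem _
  have step : ∀ γ : G, ∀ w' ∈ prt B L (ρ γ δ), ∀ b ∈ prt B L δ,
      B b w' ≠ 0 → ∀ a ∈ prt B L δ, a ∈ prt B L (ρ γ δ) := by
    intro γ w' hw' b hb hbw a ha
    have hb0 : b ≠ 0 := by
      rintro rfl
      rw [map_zero, LinearMap.zero_apply] at hbw
      exact hbw rfl
    obtain ⟨a0, ha0, ha0b⟩ : ∃ a0 ∈ prt B L δ, ∀ c : K, a0 ≠ c • b := by
      by_contra hcon
      push Not at hcon
      obtain ⟨c, hc⟩ := hcon δ hδ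
      obtain ⟨c', hc'⟩ := hcon δ' hδ'
      have hc0 : c ≠ 0 := by
        rintro rfl
        rw [zero_smul] at hc
        rw [hc, map_zero] at hq
        exact hq rfl
      apply hne (c' * c⁻¹)
      rw [hc, smul_smul, mul_assoc, inv_mul_cancel₀ hc0, mul_one]
      exact hc'
    have hy1 : wg B a0 b w' ∈ prt B L (ρ γ δ) :=
      partners_stable hL hsy hB (hqγ γ) (conj_refl hμ hB hg γ) (pair_mem hL hsy hq ha0 hb) hw'
    have hy2 : wg B a0 b w' ∈ prt B L δ := by
      rw [wg_apply]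
      exact Submodule.sub_mem _ (Submodule.smul_mem _ _ ha0) (Submodule.smul_mem _ _ hb)
    have hy0 : wg B a0 b w' ≠ 0 := by
      intro h
      rw [wg_apply, sub_eq_zero] at h
      apply ha0b ((B b w')⁻¹ * B a0 w')
      have h1 := congrArg (fun z => (B b w')⁻¹ • z) h
      simp only [smul_smul, inv_mul_cancel₀ hbw, one_smul] at h1
      exact h1
    obtain ⟨w'', hw'', hyw⟩ : ∃ w'' ∈ prt B L (ρ γ δ), B (wg B a0 b w') w'' ≠ 0 := by
      by_contra hcon
      push Not at hcon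
      exact hy0 (rad_zero hL hsy hμ hB hq hg hSI hy1 hcon)
    have h1 : wg B a (wg B a0 b w') w'' ∈ prt B L (ρ γ δ) :=
      partners_stable hL hsy hB (hqγ γ) (conj_refl hμ hB hg γ) (pair_mem hL hsy hq ha hy2) hw''
    rw [wg_apply] at h1
    have h2 := Submodule.add_mem _ h1 (Submodule.smul_mem _ (B a w'') hy1)
    rw [sub_add_cancel] at h2
    have h3 := Submodule.smul_mem _ (B (wg B a0 b w') w'')⁻¹ h2
    rwa [smul_smul, inv_mul_cancel₀ hyw, one_smul] at h3
  have htop : prt B L δ = ⊤ := by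
    refine orbit_top hμ (fun x y h => by rw [hsy]; exact h) hB hSI hδ hδ hq fun γ => ?_
    by_contra hcon
    push Not at hcon
    obtain ⟨⟨x, hx, hx'⟩, y, hy, z, hz, hyz⟩ := hcon
    apply hx'
    have h1 : B (ρ γ y) z = μ γ * B y (ρ γ⁻¹ z) := by rw [← hB, rho_inv]
    have h2 : ∀ a ∈ prt B L δ, a ∈ prt B L (ρ γ⁻¹ δ) := by
      refine step γ⁻¹ (ρ γ⁻¹ z) (partners_conj hL hμ hB γ⁻¹ hz) y hy ?_
      intro h
      rw [h, mul_zero] at h1
      exact hyz h1
    have h3 := partners_conj hL hμ hB γ (h2 x hx)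
    rwa [rho_inv] at h3
  exact pair_mem hL hsy hq (by rw [htop]; exact Submodule.mem_top)
    (by rw [htop]; exact Submodule.mem_top)

end even

include hL in
theorem ss_conj {μ : G → K} (hμ : ∀ g, μ g ≠ 0)
    (hB : ∀ g x y, B (ρ g x) (ρ g y) = μ g * B x y) (γ : G) {a b : T}
    (h : ss B a b ∈ L) : ss B (ρ γ a) (ρ γ b) ∈ L := by
  have h1 := cjm hL h γ
  have h2 : ρ γ ∘ₗ ss B a b ∘ₗ ρ γ⁻¹ = (μ γ)⁻¹ • ss B (ρ γ a) (ρ γ b) := by
    rw [ss, ss, smul_add, ← rk_conj hμ hB, ← rk_conj hμ hB, LinearMap.add_comp,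
      LinearMap.comp_add]
  rw [h2] at h1
  have h3 := Submodule.smul_mem _ (μ γ) h1
  rwa [smul_smul, mul_inv_cancel₀ (hμ γ), one_smul] at h3

section odd

variable (hsk : ∀ x y, B x y = -B y x) (hnd : ∀ x, (∀ y, B x y = 0) → x = 0) {μ : G → K}
  (hμ : ∀ g, μ g ≠ 0) (hB : ∀ g x y, B (ρ g x) (ρ g y) = μ g * B x y)

include hL in
/-- the products with a new vector -/
theorem ss_step {U : Submodule K T} (hU : ∀ u ∈ U, ∀ u' ∈ U, ss B u u' ∈ L) {u1 v w : T}
    (hu1 : u1 ∈ U) (hβ : B u1 v ≠ 0) (hwv : ss B w v ∈ L)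
    (hUv : ∀ u ∈ U, ss B (ss B u u1 w) v ∈ L) {u : T} (hu : u ∈ U) :
    ss B w u ∈ L := by
  have key : ∀ u ∈ U, B u v • ss B w u1 + B u1 v • ss B w u ∈ L := by
    intro u hu
    have h1 := brk hL (hU u hu u1 hu1) hwv
    rw [ss_bracket (hL.skew _ (hU u hu u1 hu1))] at h1
    have h2 := Submodule.sub_mem _ h1 (hUv u hu)
    rw [add_sub_cancel_left, ss_apply u u1 v, ss_add_right, ss_smul_right, ss_smul_right] at h2
    exact h2
  have h1 : ss B w u1 ∈ L := by
    have h2 := key u1 hu1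
    rw [← add_smul, ← two_mul] at h2
    have h3 := Submodule.smul_mem _ (2 * B u1 v)⁻¹ h2
    rwa [smul_smul, inv_mul_cancel₀ (mul_ne_zero two_ne_zero hβ), one_smul] at h3
  have h2 := Submodule.sub_mem _ (key u hu) (Submodule.smul_mem _ (B u v) h1)
  rw [add_sub_cancel_left] at h2
  have h3 := Submodule.smul_mem _ (B u1 v)⁻¹ h2
  rwa [smul_smul, inv_mul_cancel₀ hβ, one_smul] at h3

include hL hsk hnd hμ hB in
/-- **the symplectic Lie algebra** -/
theorem odd_full [Module.Finite K T] (hSI : SI ρ) {δ : T} (hδ0 : δ ≠ 0)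
    (hδ : rk B δ δ ∈ L) (a b : T) : ss B a b ∈ L := by
  have hδδ : ss B δ δ ∈ L := Submodule.add_mem _ hδ hδ
  have hgg : ∀ γ, ss B (ρ γ δ) (ρ γ δ) ∈ L := fun γ => ss_conj hL hμ hB γ hδδ
  obtain ⟨U, ⟨hUδ, hU⟩, hmax⟩ := (inferInstance : WellFoundedGT (Submodule K T)).wf.has_min
    {U | δ ∈ U ∧ ∀ u ∈ U, ∀ u' ∈ U, ss B u u' ∈ L} ⟨Submodule.span K {δ}, by
      refine ⟨Submodule.mem_span_singleton_self δ, fun u hu u' hu' => ?_⟩
      obtain ⟨c, rfl⟩ := Submodule.mem_span_singleton.1 hu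
      obtain ⟨c', rfl⟩ := Submodule.mem_span_singleton.1 hu'
      rw [ss_smul_left, ss_smul_right]
      exact Submodule.smul_mem _ _ (Submodule.smul_mem _ _ hδδ)⟩
  have hext : ∀ V : Submodule K T, (∀ v ∈ V, ∀ v' ∈ V, ss B v v' ∈ L) →
      (∀ u ∈ U, ∀ v ∈ V, ss B u v ∈ L) → V ≤ U := by
    intro V h1 h2
    by_contra hVU
    refine hmax (U ⊔ V) ⟨Submodule.mem_sup_left hUδ, fun x hx y hy => ?_⟩ ?_
    · obtain ⟨u, hu, v, hv, rfl⟩ := Submodule.mem_sup.1 hx
      obtain ⟨u', hu', v', hv', rfl⟩ := Submodule.mem_sup.1 hy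
      rw [ss_add_left, ss_add_right, ss_add_right]
      refine Submodule.add_mem _ (Submodule.add_mem _ (hU u hu u' hu') (h2 u hu v' hv'))
        (Submodule.add_mem _ ?_ (h1 v hv v' hv'))
      rw [ss_comm]
      exact h2 u' hu' v hv
    · exact lt_of_le_of_ne le_sup_left (fun h => hVU (h ▸ le_sup_right))
  -- the dichotomy
  have hdi : ∀ γ, (∃ u ∈ U, B u (ρ γ δ) ≠ 0) → ρ γ δ ∈ U := by
    rintro γ ⟨u1, hu1, hβ⟩
    have h1 : Submodule.span K {ρ γ δ} ≤ U := by
      refine hext _ (fun v hv v' hv' => ?_) (fun u hu v hv => ?_)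
      · obtain ⟨c, rfl⟩ := Submodule.mem_span_singleton.1 hv
        obtain ⟨c', rfl⟩ := Submodule.mem_span_singleton.1 hv'
        rw [ss_smul_left, ss_smul_right]
        exact Submodule.smul_mem _ _ (Submodule.smul_mem _ _ (hgg γ))
      · obtain ⟨c, rfl⟩ := Submodule.mem_span_singleton.1 hv
        rw [ss_smul_right]
        refine Submodule.smul_mem _ _ ?_
        -- the bracket with the square
        have key : ∀ u ∈ U, B u (ρ γ δ) • ss B u1 (ρ γ δ) + B u1 (ρ γ δ) • ss B u (ρ γ δ) ∈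
            L := by
          intro u hu
          have h1 := brk hL (hU u hu u1 hu1) (hgg γ)
          rw [ss_bracket (hL.skew _ (hU u hu u1 hu1)), ss_comm (ρ γ δ) (ss B u u1 (ρ γ δ)), ← two_smul K,
            ss_apply u u1, ss_add_left, ss_smul_left, ss_smul_left] at h1
          have h2 := Submodule.smul_mem _ (2 : K)⁻¹ h1
          rwa [smul_smul, inv_mul_cancel₀ two_ne_zero, one_smul] at h2
        have h1 : ss B u1 (ρ γ δ) ∈ L := by
          have h2 := key u1 hu1
          rw [← add_smul, ← two_mul] at h2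
          have h3 := Submodule.smul_mem _ (2 * B u1 (ρ γ δ))⁻¹ h2
          rwa [smul_smul, inv_mul_cancel₀ (mul_ne_zero two_ne_zero hβ), one_smul] at h3
        have h2 := Submodule.sub_mem _ (key u hu) (Submodule.smul_mem _ (B u (ρ γ δ)) h1)
        rw [add_sub_cancel_left] at h2
        have h3 := Submodule.smul_mem _ (B u1 (ρ γ δ))⁻¹ h2
        rwa [smul_smul, inv_mul_cancel₀ hβ, one_smul] at h3
    exact h1 (Submodule.mem_span_singleton_self _)
  -- the orbit spans
  have hst : ∀ g ∈ (⊤ : Subgroup G), ∀ x ∈ Submodule.span K (Set.range fun γ => ρ γ δ),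
      ρ g x ∈ Submodule.span K (Set.range fun γ => ρ γ δ) := by
    intro g _ x hx
    induction hx using Submodule.span_induction with
    | mem x hx =>
      obtain ⟨γ, rfl⟩ := hx
      exact Submodule.subset_span ⟨g * γ, rho_mul_apply ρ g γ δ⟩
    | zero => rw [map_zero]; exact Submodule.zero_mem _
    | add x y _ _ hx hy => rw [map_add]; exact Submodule.add_mem _ hx hy
    | smul a x _ hx => rw [map_smul]; exact Submodule.smul_mem _ a hx
  have hspan : Submodule.span K (Set.range fun γ => ρ γ δ) = ⊤ := by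
    rcases hSI ⊤ inferInstance _ hst with h | h
    · exfalso
      apply hδ0
      have h1 : ρ 1 δ ∈ Submodule.span K (Set.range fun γ => ρ γ δ) :=
        Submodule.subset_span ⟨1, rfl⟩
      rw [h, Submodule.mem_bot, map_one] at h1
      exact h1
    · exact h
  -- nondegenerate
  have hUnd : ∀ r ∈ U, (∀ u ∈ U, B r u = 0) → r = 0 := by
    intro r hr h1
    apply hnd
    intro y
    have hy : y ∈ Submodule.span K (Set.range fun γ => ρ γ δ) := by
      rw [hspan]; exact Submodule.mem_top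
    induction hy using Submodule.span_induction with
    | mem y hy =>
      obtain ⟨γ, rfl⟩ := hy
      by_contra h2
      exact h2 (h1 _ (hdi γ ⟨r, hr, h2⟩))
    | zero => rw [map_zero]
    | add x y _ _ hx hy => rw [map_add, hx, hy, add_zero]
    | smul a x _ hx => rw [map_smul, hx, smul_zero]
  -- generated by the vectors of the orbit
  have hUgen : ∀ u ∈ U, u ∈ Submodule.span K {v | v ∈ U ∧ ∃ γ, ρ γ δ = v} := by
    intro u hu
    have hy : u ∈ Submodule.span K (Set.range fun γ => ρ γ δ) := by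
      rw [hspan]; exact Submodule.mem_top
    have h1 : ∀ y ∈ Submodule.span K (Set.range fun γ => ρ γ δ),
        ∃ y1 ∈ Submodule.span K {v | v ∈ U ∧ ∃ γ, ρ γ δ = v}, ∃ y2, (∀ u ∈ U, B u y2 = 0) ∧
          y = y1 + y2 := by
      intro y hy
      induction hy using Submodule.span_induction with
      | mem y hy =>
        obtain ⟨γ, rfl⟩ := hy
        by_cases h2 : ρ γ δ ∈ U
        · exact ⟨ρ γ δ, Submodule.subset_span ⟨h2, γ, rfl⟩, 0, fun u _ => map_zero _,
            (add_zero _).symm⟩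
        · refine ⟨0, Submodule.zero_mem _, ρ γ δ, fun u hu => ?_, (zero_add _).symm⟩
          by_contra h3
          exact h2 (hdi γ ⟨u, hu, h3⟩)
      | zero => exact ⟨0, Submodule.zero_mem _, 0, fun u _ => map_zero _, (add_zero _).symm⟩
      | add x y _ _ hx hy =>
        obtain ⟨x1, hx1, x2, hx2, rfl⟩ := hx
        obtain ⟨y1, hy1, y2, hy2, rfl⟩ := hy
        refine ⟨x1 + y1, Submodule.add_mem _ hx1 hy1, x2 + y2, fun u hu => ?_, by abel⟩
        rw [map_add, hx2 u hu, hy2 u hu, add_zero]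
      | smul a x _ hx =>
        obtain ⟨x1, hx1, x2, hx2, rfl⟩ := hx
        refine ⟨a • x1, Submodule.smul_mem _ a hx1, a • x2, fun u hu => ?_, smul_add _ _ _⟩
        rw [map_smul, hx2 u hu, smul_zero]
    obtain ⟨y1, hy1, y2, hy2, hyy⟩ := h1 u hy
    have h2 : y1 ∈ U := (Submodule.span_le.2 fun v hv => hv.1) hy1
    have h3 : y2 ∈ U := by
      have : y2 = u - y1 := by rw [hyy, add_sub_cancel_left]
      rw [this]
      exact Submodule.sub_mem _ hu h2
    have h4 : y2 = 0 := hUnd y2 h3 fun u hu => by rw [hsk, hy2 u hu, neg_zero]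
    rw [hyy, h4, add_zero]
    exact hy1
  have hU0 : ∃ u1 ∈ U, B δ u1 ≠ 0 := by
    by_contra hcon
    push Not at hcon
    exact hδ0 (hUnd δ hUδ hcon)
  obtain ⟨u0, hu0, hδu0⟩ := hU0
  have htop : U = ⊤ := by
    refine orbit_top hμ (fun x y h => by rw [hsk, h, neg_zero]) hB hSI hUδ hu0 hδu0 fun γ => ?_
    by_contra hcon
    push Not at hcon
    obtain ⟨⟨x, hx, hx'⟩, y, hy, z, hz, hyz⟩ := hcon
    apply hx'
    -- a vector of the orbit in both spaces
    obtain ⟨v, hv, hvz⟩ : ∃ v ∈ {v | v ∈ U ∧ ∃ γ, ρ γ δ = v}, B (ρ γ v) z ≠ 0 := by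
      by_contra hcon
      push Not at hcon
      apply hyz
      have h1 : ∀ y ∈ Submodule.span K {v | v ∈ U ∧ ∃ γ, ρ γ δ = v}, B (ρ γ y) z = 0 := by
        intro y hy
        induction hy using Submodule.span_induction with
        | mem y hy => exact hcon y hy
        | zero => rw [map_zero, map_zero, LinearMap.zero_apply]
        | add x y _ _ hx hy => rw [map_add, map_add, LinearMap.add_apply, hx, hy, add_zero]
        | smul a x _ hx => rw [map_smul, map_smul, LinearMap.smul_apply, hx, smul_zero]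
      exact h1 y (hUgen y hy)
    obtain ⟨hvU, γ', rfl⟩ := hv
    have hv' : ρ γ (ρ γ' δ) ∈ U := by
      rw [← rho_mul_apply]
      refine hdi _ ⟨z, hz, ?_⟩
      rw [rho_mul_apply, hsk]
      exact neg_ne_zero.2 hvz
    have h1 : U.map (ρ γ) ≤ U := by
      refine hext _ ?_ ?_
      · rintro _ ⟨w, hw, rfl⟩ _ ⟨w', hw', rfl⟩
        exact ss_conj hL hμ hB γ (hU w hw w' hw')
      · rintro u hu _ ⟨w, hw, rfl⟩
        rw [ss_comm]
        refine ss_step hL hU hz (v := ρ γ (ρ γ' δ)) ?_ (ss_conj hL hμ hB γ (hU w hw _ hvU)) ?_ hu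
        · rw [hsk]
          exact neg_ne_zero.2 hvz
        · intro u hu
          refine hU _ ?_ _ hv'
          rw [ss_apply]
          exact Submodule.add_mem _ (Submodule.smul_mem _ _ hz) (Submodule.smul_mem _ _ hu)
    exact h1 ⟨x, hx, rfl⟩
  exact hU a (by rw [htop]; exact Submodule.mem_top) b (by rw [htop]; exact Submodule.mem_top)

end odd

end Pool.Agent.V5helper95.IF
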