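import Pool.Agent.V5helper95.IF.Cor

/-!
# Skew operators: ideals which are stable under the group, and tori
-/

set_option autoImplicit false
set_option linter.unusedSectionVars false

namespace Pool.Agent.V5helper95.IF

open Module Pool.Agent.N179.GR
open Pool.Agent.TH125.Gal (SI Skew rk rk_apply)

noncomputable section

section form

variable {K : Type} [Field K] [CharZero K] {V : Type} [AddCommGroup V] [Module K V]

/-- the basic skew operators -/
def sk (B : V →ₗ[K] V →ₗ[K] K) (s : ℤ) (u v : V) : Module.End K V :=
  rk B v u - (s : K) • rk B u v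

variable {B : V →ₗ[K] V →ₗ[K] K} {s : ℤ}

theorem sk_apply (u v x : V) : sk B s u v x = B v x • u - ((s : K) * B u x) • v := by
  rw [sk, LinearMap.sub_apply, LinearMap.smul_apply, rk_apply, rk_apply, smul_smul]

theorem sk_add_left (u u' v : V) : sk B s (u + u') v = sk B s u v + sk B s u' v := by
  refine LinearMap.ext fun x => ?_
  rw [LinearMap.add_apply, sk_apply, sk_apply, sk_apply, map_add, LinearMap.add_apply]
  module

theorem sk_add_right (u v v' : V) : sk B s u (v + v') = sk B s u v + sk B s u v' := by
  refine LinearMap.ext fun x => ?_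
  rw [LinearMap.add_apply, sk_apply, sk_apply, sk_apply, map_add, LinearMap.add_apply]
  module

theorem sk_smul_left (c : K) (u v : V) : sk B s (c • u) v = c • sk B s u v := by
  refine LinearMap.ext fun x => ?_
  rw [LinearMap.smul_apply, sk_apply, sk_apply, map_smul, LinearMap.smul_apply, smul_eq_mul]
  module

theorem sk_smul_right (c : K) (u v : V) : sk B s u (c • v) = c • sk B s u v := by
  refine LinearMap.ext fun x => ?_
  rw [LinearMap.smul_apply, sk_apply, sk_apply, map_smul, LinearMap.smul_apply, smul_eq_mul]
  module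

theorem sk_br {X : Module.End K V} (hX : Skew B X) (u v : V) :
    X * sk B s u v - sk B s u v * X = sk B s (X u) v + sk B s u (X v) := by
  refine LinearMap.ext fun x => ?_
  rw [LinearMap.sub_apply, LinearMap.add_apply, Module.End.mul_apply, Module.End.mul_apply,
    sk_apply, sk_apply, sk_apply, sk_apply, map_sub, map_smul, map_smul]
  have h1 : B v (X x) = -B (X v) x := eq_neg_of_add_eq_zero_right (hX v x)
  have h2 : B u (X x) = -B (X u) x := eq_neg_of_add_eq_zero_right (hX u x)
  rw [h1, h2]
  module

variable (hsy : ∀ x y, B x y = (s : K) * B y x) (hs : s = 1 ∨ s = -1)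

include hs in
theorem s_sq : (s : K) * (s : K) = 1 := by
  rcases hs with rfl | rfl <;> simp

include hsy hs in
theorem sk_skew (u v : V) : Skew B (sk B s u v) := by
  intro x y
  have h0 : (s : K) * (s : K) = 1 := s_sq hs
  rw [sk_apply, sk_apply]
  simp only [map_sub, map_smul, LinearMap.sub_apply, LinearMap.smul_apply, smul_eq_mul]
  rw [hsy x u, hsy x v]
  linear_combination (-(B v x * B u y)) * h0

include hsy hs in
theorem sk_swap (u v : V) : sk B s v u = -(s : K) • sk B s u v := by
  refine LinearMap.ext fun x => ?_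
  have h0 : (s : K) * (s : K) = 1 := s_sq hs
  rw [LinearMap.smul_apply, sk_apply, sk_apply, smul_sub, smul_smul, smul_smul]
  have h1 : -(s : K) * ((s : K) * B u x) = -B u x := by linear_combination (-B u x) * h0
  rw [h1]
  module

end form

section ideal

variable {K : Type} [Field K] [CharZero K] {Γ : Type} [Group Γ]
  {V : Type} [AddCommGroup V] [Module K V] [FiniteDimensional K V]
  {r : Γ →* Module.End K V} {μ : Γ →* Kˣ} {B : V →ₗ[K] V →ₗ[K] K} {s : ℤ}

theorem cj_sk (hB : ∀ g x y, B (r g x) (r g y) = (μ g : K) * B x y) (g : Γ) (u v : V) :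
    sk B s (r g u) (r g v) = (μ g : K) • cj r g (sk B s u v) := by
  refine LinearMap.ext fun x => ?_
  have h1 : ∀ w, B (r g w) x = (μ g : K) * B w (r g⁻¹ x) := by
    intro w
    have h2 := hB g w (r g⁻¹ x)
    rwa [rg_inv] at h2
  change _ = (μ g : K) • r g (sk B s u v (r g⁻¹ x))
  rw [sk_apply, sk_apply, h1, h1, map_sub, map_smul, map_smul]
  module

/-- **Stable ideals.** -/
theorem ideal_full (hB : ∀ g x y, B (r g x) (r g y) = (μ g : K) * B x y)
    (hirr : ∀ A : Submodule K V, Stab r A → A = ⊥ ∨ A = ⊤) (hs : s = 1 ∨ s = -1)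
    (hsy : ∀ x y, B x y = (s : K) * B y x) (hnd : ∀ x, (∀ y, B x y = 0) → x = 0) {g : Γ} {δ : V}
    {c : K} (hδ : δ ≠ 0) (hc : c ≠ 0) (hg : ∀ x, r g x = x + (c * B δ x) • δ)
    (hdim : s = 1 → 3 ≤ finrank K V)
    {I : Submodule K (Module.End K V)} (hI : ∀ X ∈ I, Skew B X) (hst : Stab (cj r) I)
    (hid : ∀ u v, ∀ X ∈ I, sk B s u v * X - X * sk B s u v ∈ I) (hne : I ≠ ⊥) (u v : V) :
    sk B s u v ∈ I := by
  have hid' : ∀ u v, ∀ X ∈ I, sk B s (X u) v + sk B s u (X v) ∈ I := by
    intro u v X hX
    rw [← sk_br (hI X hX)]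
    have h1 := I.neg_mem (hid u v X hX)
    rwa [neg_sub] at h1
  have hid2 : ∀ a b u v, sk B s u v ∈ I →
      sk B s (sk B s a b u) v + sk B s u (sk B s a b v) ∈ I := by
    intro a b u v h
    rw [← sk_br (sk_skew hsy hs a b)]
    exact hid a b _ h
  -- an element which does not kill `δ`
  obtain ⟨X, hX, hXδ⟩ : ∃ X ∈ I, X δ ≠ 0 := by
    by_contra hcon
    push Not at hcon
    let A : Submodule K V :=
      { carrier := {v | ∀ X ∈ I, X v = 0}
        add_mem' := fun {a b} ha hb X hX => by rw [map_add, ha X hX, hb X hX, add_zero]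
        zero_mem' := fun X _ => map_zero X
        smul_mem' := fun a b hb X hX => by rw [map_smul, hb X hX, smul_zero] }
    have hA : Stab r A := by
      intro γ v hv X hX
      have h1 := hv _ (hst γ⁻¹ X hX)
      have h2 : r γ⁻¹ (X (r γ⁻¹⁻¹ v)) = 0 := h1
      rw [inv_inv] at h2
      rw [← rg_inv r γ (X (r γ v)), h2, map_zero]
    rcases hirr A hA with h | h
    · have h1 : δ ∈ A := hcon
      rw [h, Submodule.mem_bot] at h1
      exact hδ h1
    · apply hne
      rw [eq_bot_iff]
      intro X hX
      rw [Submodule.mem_bot]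
      refine LinearMap.ext fun v => ?_
      have h1 : v ∈ A := by rw [h]; trivial
      exact h1 X hX
  -- a vector `w` with all `sk a w` in the ideal
  obtain ⟨w, hw0, hw⟩ : ∃ w : V, w ≠ 0 ∧ ∀ a, sk B s a w ∈ I := by
    rcases hs with rfl | rfl
    · -- symmetric
      have hsy' : ∀ x y, B x y = B y x := fun x y => by rw [hsy, Int.cast_one, one_mul]
      obtain ⟨x, hx⟩ : ∃ x, B δ x ≠ 0 := by
        by_contra hcon
        push Not at hcon
        exact hδ (hnd δ hcon)
      -- the multiplier is one
      obtain ⟨z, hz0, hδz⟩ : ∃ z : V, z ≠ 0 ∧ B δ z = 0 := by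
        have h1 := LinearMap.finrank_range_add_finrank_ker (B δ)
        have h2 : finrank K (LinearMap.range (B δ)) ≤ 1 := by
          have := Submodule.finrank_le (LinearMap.range (B δ))
          rwa [finrank_self] at this
        have h3 := hdim rfl
        have h4 : 0 < finrank K (LinearMap.ker (B δ)) := by omega
        have := Module.finrank_pos_iff.1 h4
        obtain ⟨⟨z, hz⟩, hz0⟩ := exists_ne (0 : LinearMap.ker (B δ))
        exact ⟨z, fun h => hz0 (Subtype.ext h), hz⟩
      obtain ⟨y, hy⟩ : ∃ y, B z y ≠ 0 := by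
        by_contra hcon
        push Not at hcon
        exact hz0 (hnd z hcon)
      have hμ : (μ g : K) = 1 := by
        have h1 := hB g z y
        rw [hg, hg, hδz, mul_zero, zero_smul, add_zero, map_add, map_smul, hsy' z δ, hδz,
          smul_zero, add_zero] at h1
        have h2 : B z y * (1 - (μ g : K)) = 0 := by linear_combination h1
        have h3 := (mul_eq_zero.1 h2).resolve_left hy
        linear_combination -h3
      have h1 := hB g x x
      rw [hμ, one_mul, hg] at h1
      simp only [map_add, map_smul, LinearMap.add_apply, LinearMap.smul_apply, smul_eq_mul] at h1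
      rw [hsy' x δ] at h1
      have h2 : (c * B δ x * B δ x) * (2 + c * B δ δ) = 0 := by linear_combination h1
      have h3 : 2 + c * B δ δ = 0 :=
        (mul_eq_zero.1 h2).resolve_left (mul_ne_zero (mul_ne_zero hc hx) hx)
      have hq : B δ δ ≠ 0 := by
        intro h
        rw [h, mul_zero, add_zero] at h3
        exact two_ne_zero h3
      have hδX : B δ (X δ) = 0 := by
        have h4 := hI X hX δ δ
        rw [hsy' (X δ) δ] at h4
        have h5 : (2 : K) * B δ (X δ) = 0 := by linear_combination h4
        exact (mul_eq_zero.1 h5).resolve_left two_ne_zero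
      -- the conjugate
      have hmem : sk B 1 δ (X δ) ∈ I := by
        have h4 : cj r g X - X = (-c) • sk B 1 δ (X δ) := by
          refine LinearMap.ext fun y => ?_
          have h5 : r g (r g y) = y := by
            rw [hg (r g y), hg y, map_add, map_smul, smul_eq_mul]
            have h6 : c * (B δ y + c * B δ y * B δ δ) = -(c * B δ y) := by
              linear_combination (c * B δ y) * h3
            rw [h6]
            module
          have h6 : r g⁻¹ y = r g y := by
            rw [← rg_inv' r g (r g y), h5]
          have h7 : B δ (X y) = -B (X δ) y := eq_neg_of_add_eq_zero_right (hI X hX δ y)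
          change r g (X (r g⁻¹ y)) - X y = (-c) • sk B 1 δ (X δ) y
          rw [h6, hg y, map_add, map_smul, hg, map_add, map_smul, h7, hδX, sk_apply,
            Int.cast_one, one_mul, smul_zero, add_zero]
          module
        have h5 := I.smul_mem (-c)⁻¹ (I.sub_mem (hst g X hX) hX)
        rwa [h4, smul_smul, inv_mul_cancel₀ (neg_ne_zero.2 hc), one_smul] at h5
      have hsk0 : sk B 1 δ δ = 0 := by
        refine LinearMap.ext fun y => ?_
        rw [sk_apply, Int.cast_one, one_mul, sub_self]
        rfl
      refine ⟨X δ, hXδ, fun a => ?_⟩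
      set a' : V := a - (B δ a / B δ δ) • δ with ha'
      have h4 : B δ a' = 0 := by
        rw [ha', map_sub, map_smul, smul_eq_mul, div_mul_cancel₀ _ hq, sub_self]
      have h5 : B a' δ = 0 := by rw [hsy', h4]
      have h6 := hid2 δ a' δ (X δ) hmem
      have h7 : sk B 1 δ a' δ = (-B δ δ) • a' := by
        rw [sk_apply, h5, zero_smul, Int.cast_one, one_mul]
        module
      have h8 : sk B 1 δ a' (X δ) = B a' (X δ) • δ := by
        rw [sk_apply, hδX, mul_zero, zero_smul, sub_zero]
      rw [h7, h8, sk_smul_left, sk_smul_right, hsk0, smul_zero, add_zero] at h6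
      have h9 := I.smul_mem (-B δ δ)⁻¹ h6
      rw [smul_smul, inv_mul_cancel₀ (neg_ne_zero.2 hq), one_smul] at h9
      have h10 : a = a' + (B δ a / B δ δ) • δ := by
        rw [ha', sub_add_cancel]
      rw [h10, sk_add_left, sk_smul_left]
      exact I.add_mem h9 (I.smul_mem _ hmem)
    · -- alternating
      have hsy' : ∀ x y, B x y = -B y x := fun x y => by
        rw [hsy, Int.cast_neg, Int.cast_one, neg_one_mul]
      have hself : ∀ x, B x x = 0 := fun x => by
        have h1 := hsy' x x
        have h2 : (2 : K) * B x x = 0 := by linear_combination h1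
        exact (mul_eq_zero.1 h2).resolve_left two_ne_zero
      have hsw : ∀ u v, sk B (-1) v u = sk B (-1) u v := fun u v => by
        rw [sk_swap hsy (Or.inr rfl) u v, Int.cast_neg, Int.cast_one, neg_neg, one_smul]
      have hmem : sk B (-1) δ (X δ) ∈ I := by
        have h1 := hid' δ δ X hX
        rw [hsw δ (X δ), ← two_smul K] at h1
        have h2 := I.smul_mem (2 : K)⁻¹ h1
        rwa [smul_smul, inv_mul_cancel₀ two_ne_zero, one_smul] at h2
      have hap : ∀ a b x, sk B (-1) a b x = B b x • a + B a x • b := by
        intro a b x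
        rw [sk_apply, Int.cast_neg, Int.cast_one, neg_one_mul, neg_smul, sub_neg_eq_add]
      have hδδ : sk B (-1) δ δ ∈ I := by
        by_cases h0 : B δ (X δ) = 0
        · obtain ⟨a, ha⟩ : ∃ a, B a (X δ) ≠ 0 := by
            by_contra hcon
            push Not at hcon
            exact hXδ (hnd _ fun y => by rw [hsy', hcon, neg_zero])
          have h1 := hid2 δ a δ (X δ) hmem
          rw [hap δ a δ, hap δ a (X δ), hself δ, h0, zero_smul, add_zero, add_zero,
            sk_smul_left, sk_smul_right] at h1
          have h2 := I.sub_mem h1 (I.smul_mem (B a δ) hmem)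
          rw [add_sub_cancel_left] at h2
          have h3 := I.smul_mem (B a (X δ))⁻¹ h2
          rwa [smul_smul, inv_mul_cancel₀ ha, one_smul] at h3
        · have h1 := hid2 δ δ δ (X δ) hmem
          rw [hap δ δ δ, hap δ δ (X δ), hself δ, zero_smul, add_zero, ← add_smul,
            sk_smul_right] at h1
          have h1' : sk B (-1) (0 : V) (X δ) = 0 := by
            have := sk_smul_left (B := B) (s := -1) (0 : K) (0 : V) (X δ)
            rwa [smul_zero, zero_smul] at this
          rw [h1', zero_add, ← two_mul] at h1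
          have h3 := I.smul_mem (2 * B δ (X δ))⁻¹ h1
          rwa [smul_smul, inv_mul_cancel₀ (mul_ne_zero two_ne_zero h0), one_smul] at h3
      obtain ⟨y, hy⟩ : ∃ y, B y δ ≠ 0 := by
        by_contra hcon
        push Not at hcon
        exact hδ (hnd _ fun y => by rw [hsy', hcon, neg_zero])
      have hdbl : ∀ a b, sk B (-1) (sk B (-1) a b δ) δ ∈ I := by
        intro a b
        have h1 := hid2 a b δ δ hδδ
        rw [hsw (sk B (-1) a b δ) δ, ← two_smul K] at h1
        have h2 := I.smul_mem (2 : K)⁻¹ h1
        rwa [smul_smul, inv_mul_cancel₀ two_ne_zero, one_smul] at h2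
      have hy1 : sk B (-1) y δ ∈ I := by
        have h1 := hdbl y y
        rw [hap, ← add_smul, sk_smul_left, ← two_mul] at h1
        have h3 := I.smul_mem (2 * B y δ)⁻¹ h1
        rwa [smul_smul, inv_mul_cancel₀ (mul_ne_zero two_ne_zero hy), one_smul] at h3
      refine ⟨δ, hδ, fun a => ?_⟩
      have h1 := hdbl a y
      rw [hap, sk_add_left, sk_smul_left, sk_smul_left] at h1
      have h2 := I.sub_mem h1 (I.smul_mem (B a δ) hy1)
      rw [add_sub_cancel_right] at h2
      have h3 := I.smul_mem (B y δ)⁻¹ h2
      rwa [smul_smul, inv_mul_cancel₀ hy, one_smul] at h3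
  -- all vectors
  let J : Submodule K V :=
    { carrier := {w | ∀ a, sk B s a w ∈ I}
      add_mem' := fun {x y} hx hy a => by
        rw [sk_add_right]
        exact I.add_mem (hx a) (hy a)
      zero_mem' := fun a => by
        have := sk_smul_right (B := B) (s := s) (0 : K) a (0 : V)
        rw [smul_zero, zero_smul] at this
        rw [this]
        exact I.zero_mem
      smul_mem' := fun c x hx a => by
        rw [sk_smul_right]
        exact I.smul_mem c (hx a) }
  have hJ : Stab r J := by
    intro γ x hx a
    have h1 := cj_sk (s := s) hB γ (r γ⁻¹ a) x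
    rw [rg_inv] at h1
    rw [h1]
    exact I.smul_mem _ (hst γ _ (hx _))
  rcases hirr J hJ with h | h
  · exfalso
    have h1 : w ∈ J := hw
    rw [h, Submodule.mem_bot] at h1
    exact hw0 h1
  · have h1 : v ∈ J := by rw [h]; trivial
    exact h1 u

/-- the skew operators are combinations of the basic ones -/
theorem skew_mem (hs : s = 1 ∨ s = -1)
    (hsy : ∀ x y, B x y = (s : K) * B y x) (hnd : ∀ x, (∀ y, B x y = 0) → x = 0)
    {I : Submodule K (Module.End K V)} (h : ∀ u v, sk B s u v ∈ I) {X : Module.End K V}
    (hX : Skew B X) : X ∈ I := by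
  have hBnd : LinearMap.BilinForm.Nondegenerate B := by
    refine ⟨fun x hx => hnd x fun y => hx y, fun x hx => hnd x fun y => ?_⟩
    rw [hsy, show B y x = 0 from hx y, mul_zero]
  let b := finBasis K V
  let d := LinearMap.BilinForm.dualBasis B hBnd b
  have hd : ∀ i j, B (d i) (b j) = if j = i then 1 else 0 := fun i j =>
    LinearMap.BilinForm.apply_dualBasis_left (B := B) hBnd b i j
  have e1 : ∀ x, ∑ j, B (d j) x • b j = x := by
    intro x
    conv_rhs => rw [← b.sum_repr x]
    refine Finset.sum_congr rfl fun j _ => ?_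
    congr 1
    conv_lhs => rw [← b.sum_repr x]
    rw [map_sum, Finset.sum_eq_single j]
    · rw [map_smul, hd, if_pos rfl, smul_eq_mul, mul_one]
    · intro i _ hi
      rw [map_smul, hd, if_neg hi, smul_zero]
    · intro hj
      exact absurd (Finset.mem_univ _) hj
  have e2 : ∀ y, ∑ j, B (b j) y • d j = (s : K) • y := by
    intro y
    rw [← sub_eq_zero]
    refine hnd _ fun z => ?_
    have h3 : ∀ k, B (∑ j, B (b j) y • d j - (s : K) • y) (b k) = 0 := by
      intro k
      rw [map_sub, map_sum, LinearMap.sub_apply, LinearMap.sum_apply, Finset.sum_eq_single k]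
      · rw [map_smul, map_smul, LinearMap.smul_apply, LinearMap.smul_apply, hd, if_pos rfl,
          smul_eq_mul, smul_eq_mul, mul_one, hsy (b k) y, sub_self]
      · intro j _ hj
        rw [map_smul, LinearMap.smul_apply, hd, if_neg hj.symm, smul_zero]
      · intro hk
        exact absurd (Finset.mem_univ _) hk
    rw [← e1 z, map_sum]
    exact Finset.sum_eq_zero fun k _ => by rw [map_smul, h3, smul_zero]
  have key : X = (2 : K)⁻¹ • ∑ j, sk B s (X (b j)) (d j) := by
    refine LinearMap.ext fun x => ?_
    have h4 : (∑ j, sk B s (X (b j)) (d j)) x = (2 : K) • X x := by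
      rw [LinearMap.sum_apply]
      have h5 : ∀ j, sk B s (X (b j)) (d j) x = X (B (d j) x • b j) +
          (s : K) • (B (b j) (X x) • d j) := by
        intro j
        have h6 : B (X (b j)) x = -B (b j) (X x) := eq_neg_of_add_eq_zero_left (hX _ _)
        rw [sk_apply, h6, map_smul]
        module
      rw [Finset.sum_congr rfl fun j _ => h5 j, Finset.sum_add_distrib, ← map_sum, e1,
        ← Finset.smul_sum, e2, smul_smul, s_sq hs, one_smul, two_smul]
    rw [LinearMap.smul_apply, h4, smul_smul, inv_mul_cancel₀ two_ne_zero, one_smul]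
  rw [key]
  exact I.smul_mem _ (I.sum_mem fun j _ => h _ _)

end ideal

end

end Pool.Agent.V5helper95.IF
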