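import Pool.Agent.V5helper95.IF.Idl
import Pool.Agent.N179.GR.Bd

/-!
# Representations with irreducible spaces of skew operators
-/

set_option autoImplicit false
set_option linter.unusedSectionVars false

namespace Pool.Agent.V5helper95.IF

open Module Pool.Agent.N179.GR
open Pool.Agent.TH125.Gal (SI Skew rk rk_apply)

noncomputable section

variable {K : Type} [Field K] [CharZero K] {Γ : Type} [Group Γ]
  {V : Type} [AddCommGroup V] [Module K V] [FiniteDimensional K V]
  {r : Γ →* Module.End K V} {μ : Γ →* Kˣ} {B : V →ₗ[K] V →ₗ[K] K} {s : ℤ}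

/-- The skew operators are an irreducible representation. -/
def SkIrr (r : Γ →* Module.End K V) (B : V →ₗ[K] V →ₗ[K] K) (s : ℤ) : Prop :=
  ∀ M : Submodule K (Module.End K V), (∀ x ∈ M, Skew B x) → Stab (cj r) M →
    M = ⊥ ∨ ∀ u v, sk B s u v ∈ M

/-- from an algebra of derivations to the perfect core -/
theorem mem_core_of_skL (hs : s = 1 ∨ s = -1) (hsy : ∀ x y, B x y = (s : K) * B y x)
    (hnd : ∀ x, (∀ y, B x y = 0) → x = 0) (hdim : s = 1 → 3 ≤ finrank K V)
    (h0 : ∀ u v, sk B s u v ∈ skL r B) (u v : V) : sk B s u v ∈ core (full V r) := by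
  have h1 : ∀ u v, (rk B v u - (s : K) • rk B u v : Module.End K V) ∈ ak 1 (full V r) ∅ := by
    refine perfect hs hsy hnd hdim (P := skL r B) (Q := ak 1 (full V r) ∅) ?_ h0
    rintro X ⟨hX, c, D, hD⟩ Y ⟨hY, d, D', hD'⟩
    refine ⟨D.br D', InDer.br 0 _ _ (InDer.base _) (InDer.base _), fun N hN => by simp at hN, ?_⟩
    rw [br_Θ, hD, hD']
    exact br_scal X Y c d
  have h2 : ∀ k, ∀ u v, (rk B v u - (s : K) • rk B u v : Module.End K V) ∈
      ak (k + 1) (full V r) ∅ := by
    intro k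
    induction k with
    | zero => exact h1
    | succ k ih =>
      refine perfect hs hsy hnd hdim (P := ak (k + 1) (full V r) ∅)
        (Q := ak (k + 1 + 1) (full V r) ∅) ?_ ih
      rintro _ ⟨D, hD, -, rfl⟩ _ ⟨D', hD', -, rfl⟩
      exact ⟨D.br D', InDer.br _ _ _ hD hD', fun N hN => by simp at hN, rfl⟩
  rw [mem_core]
  intro k
  obtain ⟨D, hD, -, h⟩ := h2 k u v
  exact ⟨D, hD.mono, h⟩

/-- **The perfect core for an irreducible space of skew operators.** -/
theorem core_of_irr [IsAlgClosed K] (hB : ∀ g x y, B (r g x) (r g y) = (μ g : K) * B x y)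
    (hSI : SI r) (hs : s = 1 ∨ s = -1) (hsy : ∀ x y, B x y = (s : K) * B y x)
    (hnd : ∀ x, (∀ y, B x y = 0) → x = 0) (hV : 0 < finrank K V)
    (hdim : s = 1 → 3 ≤ finrank K V) (hsk : SkIrr r B s) (u v : V) :
    sk B s u v ∈ core (full V r) := by
  refine mem_core_of_skL hs hsy hnd hdim ?_ u v
  rcases hsk (skL r B) (fun x hx => hx.1) (fun g x hx => (nl_skL hB).cj x hx g) with h | h
  · exfalso
    -- the derivations are scalars
    have h1 : ∀ D : Der K Γ, ∃ c : K, D.Θ (full V r) = c • (1 : Module.End K V) := by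
      intro D
      obtain ⟨X, hX, c, hc⟩ := exists_skL hB D
      rw [h, Submodule.mem_bot] at hX
      exact ⟨c, by rw [hc, hX, zero_add]⟩
    have := Module.finrank_pos_iff.1 hV
    obtain ⟨v, hv⟩ := exists_ne (0 : V)
    obtain ⟨Δ, hΔ, h2⟩ : (full V r).Eig v := eig_of_der (full V r) v fun D => by
      obtain ⟨c, hc⟩ := h1 D
      exact ⟨c, LinearMap.congr_fun hc v⟩
    have h3 : (Submodule.span K {v} : Submodule K V) = ⊤ := by
      refine (hSI Δ hΔ (Submodule.span K {v}) fun g hg x hx => ?_).resolve_left fun h =>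
        hv (Submodule.span_singleton_eq_bot.1 h)
      obtain ⟨a, rfl⟩ := Submodule.mem_span_singleton.1 hx
      obtain ⟨c, hc⟩ := h2 g hg
      have hc' : r g v = c • v := hc
      rw [map_smul, hc']
      exact Submodule.smul_mem _ _ (Submodule.smul_mem _ _ (Submodule.mem_span_singleton_self v))
    have h4 := finrank_span_singleton (K := K) hv
    rw [h3, finrank_top] at h4
    rcases hs with rfl | rfl
    · have := hdim rfl
      omega
    · have h5 : B v v = 0 := by
        have h6 := hsy v v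
        rw [Int.cast_neg, Int.cast_one, neg_one_mul] at h6
        have h7 : (2 : K) * B v v = 0 := by linear_combination h6
        exact (mul_eq_zero.1 h7).resolve_left two_ne_zero
      refine hv (hnd v fun y => ?_)
      have h6 : y ∈ Submodule.span K {v} := by rw [h3]; trivial
      obtain ⟨a, rfl⟩ := Submodule.mem_span_singleton.1 h6
      rw [map_smul, h5, smul_zero]
  · exact h

/-- **Pseudoreflections.** -/
theorem skIrr_of_pl [IsAlgClosed K] (hB : ∀ g x y, B (r g x) (r g y) = (μ g : K) * B x y)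
    (hSI : SI r) (hs : s = 1 ∨ s = -1) (hsy : ∀ x y, B x y = (s : K) * B y x)
    (hnd : ∀ x, (∀ y, B x y = 0) → x = 0) {g : Γ} {δ : V} {c : K} (hδ : δ ≠ 0) (hc : c ≠ 0)
    (hg : ∀ x, r g x = x + (c * B δ x) • δ) (hdim : s = 1 → 3 ≤ finrank K V) :
    SkIrr r B s := by
  intro M hM hst
  by_cases hne : M = ⊥
  · exact Or.inl hne
  · refine Or.inr fun u v => ideal_full hB (fun A hA => ?_) hs hsy hnd hδ hc hg hdim hM hst ?_
      hne u v
    · exact hSI ⊤ inferInstance A fun g _ x hx => hA g x hx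
    · intro u v X hX
      obtain ⟨D, -, h1⟩ := mem_core.1 (mem_core_full hB hSI hs hsy hnd hδ hc hg hdim u v) 0
      have h2 := br_mem hst D hX
      rw [h1] at h2
      exact h2

/-- elements of the core are skew -/
theorem skew_core (hB : ∀ g x y, B (r g x) (r g y) = (μ g : K) * B x y)
    {T : Set (PRep K Γ)} {x : Module.End K V} (hx : x ∈ aI (full V r) T) : Skew B x := by
  obtain ⟨D, hD, -, rfl⟩ := mem_aI.1 hx 1
  exact fun a b => skew_of_form hB hD a b

/-- **Representations which do not split off.** -/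
theorem aI_bot (hB : ∀ g x y, B (r g x) (r g y) = (μ g : K) * B x y) (hs : s = 1 ∨ s = -1)
    (hsy : ∀ x y, B x y = (s : K) * B y x)
    (hnd : ∀ x, (∀ y, B x y = 0) → x = 0) (hsk : SkIrr r B s) {T : Set (PRep K Γ)}
    (hT : ∀ N ∈ T, IsFull N) (hspl : ¬Spl (full V r) T) : aI (full V r) T = ⊥ := by
  rcases hsk _ (fun x hx => skew_core hB hx) (aI_stab r hT) with h | h
  · exact h
  · exfalso
    apply hspl
    intro x hx
    exact skew_mem hs hsy hnd h (skew_core hB hx)

section pair

variable {V' : Type} [AddCommGroup V'] [Module K V'] [FiniteDimensional K V']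
  {r' : Γ →* Module.End K V'} {μ' : Γ →* Kˣ} {B' : V' →ₗ[K] V' →ₗ[K] K} {s' : ℤ}

/-- The adjoint representations are isomorphic. -/
def LieIso (r : Γ →* Module.End K V) (B : V →ₗ[K] V →ₗ[K] K) (r' : Γ →* Module.End K V')
    (B' : V' →ₗ[K] V' →ₗ[K] K) : Prop :=
  ∃ f : Module.End K V →ₗ[K] Module.End K V', (∀ x, Skew B x → Skew B' (f x)) ∧
    (∀ x, Skew B x → f x = 0 → x = 0) ∧ (∀ y, Skew B' y → ∃ x, Skew B x ∧ f x = y) ∧
    (∀ x y, Skew B x → Skew B y → f (x * y - y * x) = f x * f y - f y * f x) ∧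
    ∀ g x, Skew B x → f (cj r g x) = cj r' g (f x)

/-- **The lemma of Goursat.** -/
theorem spl_of_not_iso (hB : ∀ g x y, B (r g x) (r g y) = (μ g : K) * B x y)
    (hs : s = 1 ∨ s = -1) (hsy : ∀ x y, B x y = (s : K) * B y x)
    (hnd : ∀ x, (∀ y, B x y = 0) → x = 0) (hsk : SkIrr r B s)
    (hcore : ∀ u v, sk B s u v ∈ core (full V r))
    (hB' : ∀ g x y, B' (r' g x) (r' g y) = (μ' g : K) * B' x y)
    (hs' : s' = 1 ∨ s' = -1) (hsy' : ∀ x y, B' x y = (s' : K) * B' y x)
    (hnd' : ∀ x, (∀ y, B' x y = 0) → x = 0) (hsk' : SkIrr r' B' s')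
    (hcore' : ∀ u v, sk B' s' u v ∈ core (full V' r')) (hiso : ¬LieIso r B r' B') :
    Spl (full V r) {full V' r'} := by
  by_contra hspl
  apply hiso
  have hfull : ∀ N ∈ ({full V r} : Set (PRep K Γ)), IsFull N := by
    rintro N rfl
    exact isFull_full r
  have hfull' : ∀ N ∈ ({full V' r'} : Set (PRep K Γ)), IsFull N := by
    rintro N rfl
    exact isFull_full r'
  have hA : aI (full V r) {full V' r'} = ⊥ := aI_bot hB hs hsy hnd hsk hfull' hspl
  have hP1 : ∀ x, (x, (0 : Module.End K V')) ∈ pairs (full V r) (full V' r') → x = 0 := by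
    intro x hx
    have h1 : x ∈ aI (full V r) {full V' r'} := by
      rw [mem_aI]
      intro k
      obtain ⟨D, hD, h1, h2⟩ := hx k
      exact ⟨D, hD, fun N hN => by rw [Set.mem_singleton_iff.1 hN]; exact h2, h1⟩
    rwa [hA, Submodule.mem_bot] at h1
  have hC : aI (full V' r') {full V r} = ⊥ := by
    rcases hsk' _ (fun x hx => skew_core hB' hx) (aI_stab r' hfull) with h | h
    · exact h
    · exfalso
      apply hspl
      intro x hx
      obtain ⟨y, hy⟩ := lift_pair (full V r) (full V' r') hx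
      have hy1 : y ∈ core (full V' r') := by
        rw [mem_core]
        intro k
        obtain ⟨D, hD, -, h2⟩ := hy k
        exact ⟨D, hD, h2⟩
      have hy2 : y ∈ aI (full V' r') {full V r} :=
        skew_mem hs' hsy' hnd' h (skew_core hB' hy1)
      have h1 : ((0 : Module.End K V), y) ∈ pairs (full V r) (full V' r') := by
        intro k
        obtain ⟨D, hD, h1, h2⟩ := mem_aI.1 hy2 k
        exact ⟨D, hD, h1 _ rfl, h2⟩
      have h2 := sub_mem (show (x, y) ∈ pairs (full V r) (full V' r') from hy) h1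
      rw [Prod.mk_sub_mk, sub_zero, sub_self] at h2
      rw [hP1 x h2]
      exact zero_mem _
  have hP2 : ∀ y, ((0 : Module.End K V), y) ∈ pairs (full V r) (full V' r') → y = 0 := by
    intro y hy
    have h1 : y ∈ aI (full V' r') {full V r} := by
      rw [mem_aI]
      intro k
      obtain ⟨D, hD, h1, h2⟩ := hy k
      exact ⟨D, hD, fun N hN => by rw [Set.mem_singleton_iff.1 hN]; exact h1, h2⟩
    rwa [hC, Submodule.mem_bot] at h1
  let f1 : pairs (full V r) (full V' r') →ₗ[K] Module.End K V :=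
    LinearMap.fst K _ _ ∘ₗ (pairs (full V r) (full V' r')).subtype
  let g1 : pairs (full V r) (full V' r') →ₗ[K] Module.End K V' :=
    LinearMap.snd K _ _ ∘ₗ (pairs (full V r) (full V' r')).subtype
  obtain ⟨Φ, hΦ⟩ := exists_factor f1 g1 (by
    rintro ⟨⟨x, y⟩, hxy⟩ h0
    obtain rfl : x = 0 := h0
    exact hP2 y hxy)
  have hΦ' : ∀ x y, (x, y) ∈ pairs (full V r) (full V' r') → Φ x = y :=
    fun x y hxy => hΦ ⟨(x, y), hxy⟩
  have hlift : ∀ x, Skew B x → (x, Φ x) ∈ pairs (full V r) (full V' r') := by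
    intro x hx
    have h0 : x ∈ core (full V r) := skew_mem hs hsy hnd hcore hx
    obtain ⟨y, hy⟩ := lift_pair (full V r) (full V' r') h0
    rw [hΦ' x y hy]
    exact hy
  refine ⟨Φ, fun x hx => ?_, fun x hx h0 => ?_, fun y hy => ?_, fun x y hx hy => ?_,
    fun g x hx => ?_⟩
  · obtain ⟨D, hD, -, h2⟩ := hlift x hx 1
    rw [← show D.Θ (full V' r') = Φ x from h2]
    exact fun a b => skew_of_form hB' hD a b
  · have h1 := hlift x hx
    rw [h0] at h1
    exact hP1 x h1
  · have h0 : y ∈ core (full V' r') := skew_mem hs' hsy' hnd' hcore' hy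
    obtain ⟨x, hx⟩ := lift_pair (full V' r') (full V r) h0
    have h1 : (x, y) ∈ pairs (full V r) (full V' r') := by
      intro k
      obtain ⟨D, hD, h1, h2⟩ := hx k
      exact ⟨D, hD, h2, h1⟩
    refine ⟨x, ?_, hΦ' x y h1⟩
    obtain ⟨D, hD, h1, -⟩ := h1 1
    rw [← show D.Θ (full V r) = x from h1]
    exact fun a b => skew_of_form hB hD a b
  · refine hΦ' _ _ fun k => ?_
    obtain ⟨D, hD, h1, h2⟩ := hlift x hx k
    obtain ⟨D', hD', h1', h2'⟩ := hlift y hy k
    have e1 : D.Θ (full V r) = x := h1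
    have e2 : D.Θ (full V' r') = Φ x := h2
    have e3 : D'.Θ (full V r) = y := h1'
    have e4 : D'.Θ (full V' r') = Φ y := h2'
    refine ⟨D.br D', (InDer.br _ _ _ hD hD').mono, ?_, ?_⟩
    · rw [br_Θ, e1, e3]
    · rw [br_Θ, e2, e4]
  · refine hΦ' _ _ fun k => ?_
    obtain ⟨D, hD, h1, h2⟩ := hlift x hx k
    have e1 : D.Θ (full V r) = x := h1
    have e2 : D.Θ (full V' r') = Φ x := h2
    refine ⟨D.conj g⁻¹, hD.conj _, ?_, ?_⟩
    · rw [conj_full D g⁻¹ (isFull_full r), inv_inv, e1]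
      rfl
    · rw [conj_full D g⁻¹ (isFull_full r'), inv_inv, e2]
      rfl

end pair

end

end Pool.Agent.V5helper95.IF
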