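import Pool.Agent.V5helper95.IF.Cor
import Pool.Agent.TH125.Gal.Blk

/-!
# Derivations and equivariant multilinear maps
-/

set_option autoImplicit false
set_option linter.unusedSectionVars false

namespace Pool.Agent.V5helper95.IF

open Module Pool.Agent.N179.GR Finset Function
open Pool.Agent.TH125.Gal (SI Skew rk Eqv Kill LL mem_LL)

noncomputable section

variable {K : Type} [Field K] {Γ : Type} [Group Γ]
  {V : Type} [AddCommGroup V] [Module K V] [FiniteDimensional K V]

/-- the representation on the linear maps -/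
def homR {E : Type} [AddCommGroup E] [Module K E]
    (r : Γ →* Module.End K V) (t : Γ →* Module.End K E) : Γ →* Module.End K (V →ₗ[K] E) where
  toFun g :=
    { toFun := fun f => t g ∘ₗ f ∘ₗ r g⁻¹
      map_add' := fun f f' => LinearMap.ext fun x => map_add (t g) _ _
      map_smul' := fun c f => LinearMap.ext fun x => map_smul (t g) _ _ }
  map_one' := by
    refine LinearMap.ext fun f => LinearMap.ext fun x => ?_
    change t 1 (f (r 1⁻¹ x)) = f x
    rw [inv_one, map_one, map_one]
    rfl
  map_mul' g h := by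
    refine LinearMap.ext fun f => LinearMap.ext fun x => ?_
    change t (g * h) (f (r (g * h)⁻¹ x)) = t g (t h (f (r h⁻¹ (r g⁻¹ x))))
    rw [mul_inv_rev, map_mul, map_mul]
    rfl

theorem homR_apply {E : Type} [AddCommGroup E] [Module K E]
    (r : Γ →* Module.End K V) (t : Γ →* Module.End K E) (g : Γ) (f : V →ₗ[K] E) (x : V) :
    homR r t g f x = t g (f (r g⁻¹ x)) := rfl

theorem homR_Θ {E : Type} [AddCommGroup E] [Module K E] [FiniteDimensional K E]
    (r : Γ →* Module.End K V) (t : Γ →* Module.End K E) (D : Der K Γ) (f : V →ₗ[K] E) (x : V) :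
    (D.Θ (full (V →ₗ[K] E) (homR r t)) f : V →ₗ[K] E) x + f (D.Θ (full V r) x) =
      D.Θ (full E t) (f x) := by
  have h1 := D.bil (full (V →ₗ[K] E) (homR r t)) (full V r) (full E t)
    (LinearMap.id : (V →ₗ[K] E) →ₗ[K] (V →ₗ[K] E))
    ⟨⊤, inferInstance, fun g _ f x => by
      have h2 : r g⁻¹ (r g x) = x := rg_inv' r g x
      have h3 : (homR r t g f : V →ₗ[K] E) (r g x) = t g (f x) := by
        rw [homR_apply, h2]
      exact h3⟩ f x
  exact h1

/-- **Derivations and multilinear maps.** -/
theorem ml_der (r : Γ →* Module.End K V) (n : ℕ) :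
    ∀ {E : Type} [AddCommGroup E] [Module K E] [FiniteDimensional K E]
      (t : Γ →* Module.End K E) (F : MultilinearMap K (fun _ : Fin n => V) E),
      (∃ Δ : Subgroup Γ, Δ.FiniteIndex ∧ ∀ g ∈ Δ, ∀ v, F (fun j => r g (v j)) = t g (F v)) →
      ∀ (D : Der K Γ) (v : Fin n → V),
        ∑ j, F (update v j (D.Θ (full V r) (v j))) = D.Θ (full E t) (F v) := by
  induction n with
  | zero =>
    intro E _ _ _ t F hF D v
    rw [Finset.univ_eq_empty, Finset.sum_empty]
    obtain ⟨Δ, hΔ, h⟩ := hF
    -- `F v` is an invariant vector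
    have h1 : ∀ w : Fin 0 → V, w = v := fun w => Subsingleton.elim _ _
    have h2 : ∀ g ∈ Δ, t g (F v) = F v := fun g hg => by
      rw [← h g hg v, h1 fun j => r g (v j)]
    have h3 := D.bil (full K 1) (full K 1) (full E t)
      ((LinearMap.lsmul K K).compr₂ (LinearMap.toSpanSingleton K E (F v)))
      ⟨Δ, hΔ, fun g hg a b => by
        have h4 : (a • b : K) • F v = t g ((a • b : K) • F v) := by
          rw [map_smul, h2 g hg]
        exact h4⟩ (1 : K) (1 : K)
    have h5 : ∀ (a b : K), ((LinearMap.lsmul K K).compr₂ (LinearMap.toSpanSingleton K E (F v))) a b =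
        (a * b) • F v := fun a b => rfl
    have h6 : D.Θ (full K 1) (1 : K) = (0 : K) := by
      have h7 := D.bil (full K 1) (full K 1) (full K 1) (LinearMap.mul K K)
        ⟨⊤, inferInstance, fun g _ a b => rfl⟩ (1 : K) (1 : K)
      have h8 : (D.Θ (full K 1) (1 : K) : K) * 1 + 1 * (D.Θ (full K 1) (1 : K) : K) =
          D.Θ (full K 1) ((1 : K) * 1 : K) := h7
      rw [mul_one, one_mul, mul_one] at h8
      exact left_eq_add.1 h8.symm
    have h9 : ((D.Θ (full K 1) (1 : K) : K) * 1) • F v + (1 * (D.Θ (full K 1) (1 : K) : K)) • F v =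
        D.Θ (full E t) (((1 : K) * 1) • F v) := h3
    rw [h6, zero_mul, mul_zero, zero_smul, mul_one, one_smul, add_zero] at h9
    exact h9
  | succ n ih =>
    intro E _ _ _ t F hF D v
    obtain ⟨Δ, hΔ, h⟩ := hF
    have hv : v = Fin.snoc (α := fun _ => V) (fun j : Fin n => v j.castSucc) (v (Fin.last n)) :=
      (Fin.snoc_init_self v).symm
    have key := ih (homR r t) F.curryRight ⟨Δ, hΔ, fun g hg w => by
      refine LinearMap.ext fun x => ?_
      rw [homR_apply, MultilinearMap.curryRight_apply, MultilinearMap.curryRight_apply]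
      rw [← h g hg]
      congr 1
      funext j
      refine Fin.lastCases ?_ (fun j => ?_) j
      · rw [Fin.snoc_last, Fin.snoc_last, rg_inv]
      · rw [Fin.snoc_castSucc, Fin.snoc_castSucc]⟩ D fun j => v j.castSucc
    have h1 := homR_Θ r t D (F.curryRight fun j => v j.castSucc) (v (Fin.last n))
    have h2 := LinearMap.congr_fun key (v (Fin.last n))
    have h3 : (D.Θ (full (V →ₗ[K] E) (homR r t)) (F.curryRight fun j => v j.castSucc) :
        V →ₗ[K] E) (v (Fin.last n)) = ∑ j : Fin n, F (update v j.castSucc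
          (D.Θ (full V r) (v j.castSucc))) := by
      refine h2.symm.trans ?_
      rw [LinearMap.sum_apply]
      refine Finset.sum_congr rfl fun j _ => ?_
      rw [MultilinearMap.curryRight_apply]
      congr 1
      conv_rhs => rw [hv]
      rw [Fin.snoc_castSucc]
      exact Fin.snoc_update _ _ _ _
    have h4 : (F.curryRight fun j => v j.castSucc) (D.Θ (full V r) (v (Fin.last n))) =
        F (update v (Fin.last n) (D.Θ (full V r) (v (Fin.last n)))) := by
      rw [MultilinearMap.curryRight_apply]
      congr 1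
      conv_rhs => rw [hv]
      rw [Fin.snoc_last, Fin.update_snoc_last]
    have h5 : (F.curryRight fun j => v j.castSucc) (v (Fin.last n)) = F v := by
      rw [MultilinearMap.curryRight_apply]
      congr 1
      exact hv.symm
    rw [Fin.sum_univ_castSucc]
    rw [h3, h4, h5] at h1
    exact h1

/-- any finite index type -/
theorem ml_der' (r : Γ →* Module.End K V) {S : Type} [Fintype S] [DecidableEq S]
    {E : Type} [AddCommGroup E] [Module K E] [FiniteDimensional K E]
    {t : Γ →* Module.End K E} {F : MultilinearMap K (fun _ : S => V) E} (hF : Eqv r t F)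
    (D : Der K Γ) (v : S → V) :
    ∑ j, F (update v j (D.Θ (full V r) (v j))) = D.Θ (full E t) (F v) := by
  classical
  obtain ⟨Δ, hΔ, h⟩ := hF
  let e : S ≃ Fin (Fintype.card S) := Fintype.equivFin S
  have h1 := ml_der r (Fintype.card S) t (F.domDomCongr e) ⟨Δ, hΔ, fun g hg v => by
    rw [MultilinearMap.domDomCongr_apply, MultilinearMap.domDomCongr_apply]
    exact h g hg _⟩ D fun j => v (e.symm j)
  rw [MultilinearMap.domDomCongr_apply] at h1
  have h2 : (fun i => v (e.symm (e i))) = v := by
    funext i
    rw [e.symm_apply_apply]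
  rw [h2] at h1
  rw [← h1]
  refine (Fintype.sum_equiv e _ _ fun i => ?_)
  rw [MultilinearMap.domDomCongr_apply]
  congr 1
  funext i'
  by_cases hi : i' = i
  · subst hi
    rw [update_self, update_self, e.symm_apply_apply]
  · rw [update_of_ne hi, update_of_ne (fun h => hi (e.injective h)), e.symm_apply_apply]

/-- the twist of a representation by a character -/
def twR {E : Type} [AddCommGroup E] [Module K E] (lam : Γ →* Kˣ) (t : Γ →* Module.End K E) :
    Γ →* Module.End K E where
  toFun g := ((lam g : Kˣ) : K) • t g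
  map_one' := by
    rw [map_one, map_one, Units.val_one, one_smul]
  map_mul' g h := by
    rw [map_mul, map_mul, Units.val_mul, smul_mul_smul_comm]

/-- twists do not matter for the derived algebra -/
theorem twR_Θ {E : Type} [AddCommGroup E] [Module K E] [FiniteDimensional K E] (lam : Γ →* Kˣ)
    (t : Γ →* Module.End K E) {D : Der K Γ} (hD : InDer 1 D) :
    D.Θ (full E (twR lam t)) = D.Θ (full E t) := by
  have h1 : ((lam 1 : Kˣ) : K) = 1 := by rw [map_one, Units.val_one]
  have h2 : ∃ Δ : Subgroup Γ, Δ.FiniteIndex ∧ ∀ g ∈ Δ, ∀ h ∈ Δ,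
      ((lam (g * h) : Kˣ) : K) = (lam g : K) * (lam h : K) :=
    ⟨⊤, inferInstance, fun g _ h _ => by rw [map_mul, Units.val_mul]⟩
  refine LinearMap.ext fun x => ?_
  have h3 := D.bil (lineP (fun g => ((lam g : Kˣ) : K)) h1 h2) (full E t) (full E (twR lam t))
    (LinearMap.lsmul K E) ⟨⊤, inferInstance, fun g _ c x => by
      have h4 : (((lam g : Kˣ) : K) * c) • t g x = ((lam g : Kˣ) : K) • t g (c • x) := by
        rw [map_smul, smul_smul]
      exact h4⟩ (1 : K) x
  rw [lineP_zero hD] at h3
  have h5 : ((0 : Module.End K K) 1 : K) • x + (1 : K) • D.Θ (full E t) x =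
      D.Θ (full E (twR lam t)) ((1 : K) • x) := h3
  rw [LinearMap.zero_apply, zero_smul, zero_add, one_smul, one_smul] at h5
  exact h5.symm

/-- **Derivations which kill the target kill the equivariant multilinear maps.** -/
theorem kill_of_der {r : Γ →* Module.End K V} {S : Type} [Fintype S] [DecidableEq S]
    {E : Type} [AddCommGroup E] [Module K E] [FiniteDimensional K E]
    {t : Γ →* Module.End K E} {lam : Γ →* Kˣ} {F : MultilinearMap K (fun _ : S => V) E}
    (hF : Eqv r (twR lam t) F) {D : Der K Γ} (hD : InDer 1 D) (hE : D.Θ (full E t) = 0) :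
    Kill (D.Θ (full V r)) F := by
  intro v
  rw [ml_der' r hF D v, twR_Θ lam t hD, hE]
  rfl

open Pool.Agent.TH125.Gal Pool.Agent.TH125.Nod in
/-- **Equivariant multilinear maps in a basis.** -/
theorem gen_memF {T : Type} [AddCommGroup T] [Module K T] [Module.Finite K T] [CharZero K]
    {E : Type} [AddCommGroup E] [Module K E] {S : Type} [Fintype S] [DecidableEq S]
    {B : T →ₗ[K] T →ₗ[K] K} {ρ : Γ →* (T →ₗ[K] T)} {σ : Γ →* (E →ₗ[K] E)}
    {s : ℤ} (hs : s = 1 ∨ s = -1)
    (hsy : ∀ x y, B x y = (s : K) * B y x) (hnd : ∀ x, (∀ y, B x y = 0) → x = 0)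
    (hall : ∀ u v, rk B v u - (s : K) • rk B u v ∈ LL S B ρ σ)
    {h : MultilinearMap K (fun _ : S => T) E} (hh : Eqv ρ σ h) {J : Type} [Fintype J]
    [DecidableEq J] (t : Module.Basis J K T) (hcard : s = 1 → Fintype.card S < Fintype.card J) :
    (fun r : S → J => h fun j => t (r j)) ∈ Gen (fun _ : J => ())
      (Matrix.of fun i j => B (t i) (t j)) (fun _ : S => ()) := by
  -- the inverse of the Gram matrix
  have hBnd : LinearMap.BilinForm.Nondegenerate (LinearMap.flip B) := by
    refine ⟨fun x hx => hnd x fun y => ?_, fun x hx => hnd x fun y => hx y⟩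
    rw [hsy, show B y x = 0 from hx y, mul_zero]
  obtain ⟨R, hR⟩ : ∃ R : Matrix J J K, (Matrix.of fun i j => B (t i) (t j)) * R = 1 := by
    refine ⟨Matrix.of fun j k =>
      t.repr (LinearMap.BilinForm.dualBasis (LinearMap.flip B) hBnd t k) j, ?_⟩
    ext i k
    rw [Matrix.mul_apply, Matrix.one_apply]
    simp only [Matrix.of_apply]
    have h1 := LinearMap.BilinForm.apply_dualBasis_left (B := LinearMap.flip B) hBnd t k i
    rw [LinearMap.flip_apply] at h1
    rw [← h1]
    conv_rhs => rw [← t.sum_repr (LinearMap.BilinForm.dualBasis (LinearMap.flip B) hBnd t k)]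
    rw [map_sum]
    refine Finset.sum_congr rfl fun j _ => ?_
    rw [map_smul, smul_eq_mul, mul_comm]
  refine fft (s := fun _ => s) (fun _ => hs) (fun a b hab => absurd rfl hab) (fun a b => hsy _ _)
    hR (Fintype.card S) S (fun _ => ()) _ rfl (fun r hr => absurd (fun _ => rfl) hr) ?_ ?_
  · intro u v _ r
    have h1 := (hall (t u) (t v)).2 h hh (fun j => t (r j))
    rw [← h1]
    refine Finset.sum_congr rfl fun j _ => ?_
    have e1 : (rk B (t v) (t u) - (s : K) • rk B (t u) (t v)) (t (r j)) =
        B (t v) (t (r j)) • t u - ((s : K) * B (t u) (t (r j))) • t v := by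
      rw [LinearMap.sub_apply, LinearMap.smul_apply, rk_apply, rk_apply, smul_smul]
    rw [e1, MultilinearMap.map_update_sub, MultilinearMap.map_update_smul,
      MultilinearMap.map_update_smul]
    have e2 : ∀ a, (fun i => t (update r j a i)) = update (fun i => t (r i)) j (t a) := by
      intro a
      funext i
      by_cases hi : i = j
      · subst hi
        rw [update_self, update_self]
      · rw [update_of_ne hi, update_of_ne hi]
    change B (t v) (t (r j)) • h (fun i => t (update r j u i)) -
      ((s : K) * B (t u) (t (r j))) • h (fun i => t (update r j v i)) = _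
    rw [e2, e2]
  · intro _ hs1
    have h1 := hcard hs1
    refine lt_of_le_of_lt (Finset.card_le_univ _) (lt_of_lt_of_eq h1 ?_)
    rw [blk, Finset.filter_true_of_mem (fun _ _ => rfl), Finset.card_univ]

end

end Pool.Agent.V5helper95.IF
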