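import Pool.Agent.N179.GR.Exc
import Pool.Agent.TH125.Gal.Final
import Pool.Agent.Helper462.Cb.Chev

/-!
# Strongly irreducible representations: the representation on the operators is semisimple
-/

set_option autoImplicit false
set_option linter.unusedSectionVars false

namespace Pool.Agent.V5helper95.IF

open Module Pool.Agent.N179.GR
open Pool.Agent.TH125.Gal (SI)

noncomputable section

variable {K : Type} [Field K] {Γ : Type} [Group Γ]
  {V : Type} [AddCommGroup V] [Module K V] [FiniteDimensional K V]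

/-- The subspace is stable under all derivations. -/
def Gst (r : Γ →* Module.End K V) (A : Submodule K V) : Prop :=
  ∀ D : Der K Γ, ∀ x ∈ A, D.Θ (full V r) x ∈ A

/-- idempotent operators which commute with all derivations commute with a subgroup of finite
index -/
theorem proj_fin [IsAlgClosed K] [CharZero K] {r : Γ →* Module.End K V} {p : Module.End K V}
    (hp : p * p = p)
    (h : ∀ D : Der K Γ, D.Θ (full V r) * p - p * D.Θ (full V r) = 0) :
    ∃ Δ : Subgroup Γ, Δ.FiniteIndex ∧ ∀ g ∈ Δ, r g * p = p * r g := by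
  obtain ⟨Δ, hΔ, h1⟩ := eig_of_der (full (Module.End K V) (cj r)) p
    (fun D => ⟨0, by rw [cj_Θ, h, zero_smul]⟩)
  refine ⟨Δ, hΔ, fun g hg => ?_⟩
  obtain ⟨c, hc⟩ := h1 g hg
  have hc' : r g * p * r g⁻¹ = c • p := hc
  have hinv : r g⁻¹ * r g = 1 := by rw [← map_mul, inv_mul_cancel, map_one]
  have h2 : r g * p = c • (p * r g) := by
    have h3 := congrArg (fun z => z * r g) hc'
    simp only [mul_assoc, hinv, mul_one, smul_mul_assoc] at h3
    exact h3
  have h3 : (c * c) • p = c • p := by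
    have h4 : (r g * p * r g⁻¹) * (r g * p * r g⁻¹) = r g * p * r g⁻¹ := by
      calc (r g * p * r g⁻¹) * (r g * p * r g⁻¹) = r g * p * (r g⁻¹ * r g) * p * r g⁻¹ := by
            simp only [mul_assoc]
        _ = r g * (p * p) * r g⁻¹ := by rw [hinv]; simp only [mul_assoc, one_mul]
        _ = r g * p * r g⁻¹ := by rw [hp]
    rw [hc', smul_mul_smul_comm, hp] at h4
    exact h4
  by_cases hp0 : p = 0
  · rw [hp0, mul_zero, zero_mul]
  have h4 : c * c = c := smul_left_injective K hp0 h3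
  have h5 : c = 0 ∨ c = 1 := by
    have : c * (c - 1) = 0 := by linear_combination h4
    rcases mul_eq_zero.1 this with h | h
    · exact Or.inl h
    · exact Or.inr (sub_eq_zero.1 h)
  rcases h5 with rfl | rfl
  · exfalso
    apply hp0
    rw [zero_smul] at h2
    have h6 : r g⁻¹ * (r g * p) = 0 := by rw [h2, mul_zero]
    rwa [← mul_assoc, hinv, one_mul] at h6
  · rw [h2, one_smul]

theorem Gst.inf {r : Γ →* Module.End K V} {A B : Submodule K V} (hA : Gst r A) (hB : Gst r B) :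
    Gst r (A ⊓ B) := fun D x hx => ⟨hA D x hx.1, hB D x hx.2⟩

theorem Gst.sup {r : Γ →* Module.End K V} {A B : Submodule K V} (hA : Gst r A) (hB : Gst r B) :
    Gst r (A ⊔ B) := by
  intro D x hx
  obtain ⟨a, ha, b, hb, rfl⟩ := Submodule.mem_sup.1 hx
  have h1 : D.Θ (full V r) (a + b) = D.Θ (full V r) a + D.Θ (full V r) b :=
    map_add (D.Θ (full V r)) a b
  rw [h1]
  exact Submodule.add_mem_sup (hA D a ha) (hB D b hb)

/-- translates -/
theorem Gst.trans {r : Γ →* Module.End K V} {A : Submodule K V} (hA : Gst r A) (γ : Γ) :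
    Gst r (A.map (r γ)) := by
  rintro D _ ⟨x, hx, rfl⟩
  refine ⟨(D.conj γ).Θ (full V r) x, hA _ x hx, ?_⟩
  rw [conj_full D γ (isFull_full r)]
  change r γ (r γ⁻¹ (D.Θ (full V r) (r γ x))) = D.Θ (full V r) (r γ x)
  rw [← Module.End.mul_apply, ← map_mul, mul_inv_cancel, map_one]
  rfl

theorem rg_inv (r : Γ →* Module.End K V) (γ : Γ) (x : V) : r γ (r γ⁻¹ x) = x := by
  rw [← Module.End.mul_apply, ← map_mul, mul_inv_cancel, map_one]
  rfl

theorem rg_inv' (r : Γ →* Module.End K V) (γ : Γ) (x : V) : r γ⁻¹ (r γ x) = x := by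
  rw [← Module.End.mul_apply, ← map_mul, inv_mul_cancel, map_one]
  rfl

/-- **Complements.** -/
theorem exists_gst_compl {r : Γ →* Module.End K V} (hSI : SI r) {A : Submodule K V}
    (hA : Gst r A) : ∃ B : Submodule K V, Gst r B ∧ IsCompl A B := by
  classical
  by_cases hV : ∃ S : Submodule K V, Gst r S ∧ S ≠ ⊥
  swap
  · push Not at hV
    have h1 := hV A hA
    have htop : Gst r (⊤ : Submodule K V) := fun D x _ => trivial
    refine ⟨⊤, htop, ?_⟩
    rw [h1]
    exact isCompl_bot_top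
  -- a minimal one
  obtain ⟨S, ⟨hS, hS0⟩, hmin⟩ := (inferInstance : WellFoundedLT (Submodule K V)).wf.has_min
    {S | Gst r S ∧ S ≠ ⊥} hV
  have hminγ : ∀ (γ : Γ) (C : Submodule K V), Gst r C → C ≤ S.map (r γ) →
      C = ⊥ ∨ C = S.map (r γ) := by
    intro γ C hC hle
    by_cases hC0 : C = ⊥
    · exact Or.inl hC0
    right
    have h1 : C.map (r γ⁻¹) ≤ S := by
      rintro _ ⟨x, hx, rfl⟩
      obtain ⟨y, hy, rfl⟩ := hle hx
      rwa [rg_inv']
    have h2 : C.map (r γ⁻¹) ≠ ⊥ := by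
      intro h
      apply hC0
      rw [eq_bot_iff]
      intro x hx
      have h3 : r γ⁻¹ x ∈ C.map (r γ⁻¹) := ⟨x, hx, rfl⟩
      rw [h, Submodule.mem_bot] at h3
      rw [Submodule.mem_bot, ← rg_inv r γ x, h3, map_zero]
    have h3 : C.map (r γ⁻¹) = S := by
      by_contra h
      exact hmin _ ⟨hC.trans γ⁻¹, h2⟩ (lt_of_le_of_ne h1 h)
    refine le_antisymm hle ?_
    rintro _ ⟨x, hx, rfl⟩
    rw [← h3] at hx
    obtain ⟨y, hy, rfl⟩ := hx
    rwa [rg_inv]
  -- the translates span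
  have hspan : (⨆ γ, S.map (r γ)) = (⊤ : Submodule K V) := by
    have hst : ∀ g ∈ (⊤ : Subgroup Γ), ∀ x ∈ ⨆ γ, S.map (r γ), r g x ∈ ⨆ γ, S.map (r γ) := by
      intro g _ x hx
      induction hx using Submodule.iSup_induction' with
      | mem γ x hx =>
        obtain ⟨y, hy, rfl⟩ := hx
        refine Submodule.mem_iSup_of_mem (g * γ) ⟨y, hy, ?_⟩
        rw [map_mul]
        rfl
      | zero => rw [map_zero]; exact zero_mem _
      | add x y _ _ hx hy => rw [map_add]; exact add_mem hx hy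
    rcases hSI ⊤ inferInstance _ hst with h | h
    · exfalso
      apply hS0
      rw [eq_bot_iff]
      intro x hx
      have h1 : r 1 x ∈ ⨆ γ, S.map (r γ) := Submodule.mem_iSup_of_mem 1 ⟨x, hx, rfl⟩
      rw [h, map_one] at h1
      exact h1
    · exact h
  -- a maximal one
  obtain ⟨B, ⟨hB, hAB⟩, hmax⟩ := (inferInstance : WellFoundedGT (Submodule K V)).wf.has_min
    {B | Gst r B ∧ Disjoint A B} ⟨⊥, fun D x hx => by
      rw [Submodule.mem_bot] at hx
      rw [hx]
      have : D.Θ (full V r) (0 : V) = 0 := map_zero (D.Θ (full V r))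
      rw [this]
      exact zero_mem _, disjoint_bot_right⟩
  refine ⟨B, hB, hAB, ?_⟩
  rw [codisjoint_iff, eq_top_iff, ← hspan]
  refine iSup_le fun γ => ?_
  rcases hminγ γ (S.map (r γ) ⊓ (A ⊔ B)) ((hS.trans γ).inf (hA.sup hB)) inf_le_left with h | h
  · exfalso
    have h1 : Disjoint A (B ⊔ S.map (r γ)) := by
      rw [Submodule.disjoint_def]
      intro x hx hx'
      obtain ⟨b, hb, s, hs, rfl⟩ := Submodule.mem_sup.1 hx'
      have h2 : s ∈ S.map (r γ) ⊓ (A ⊔ B) := by
        refine ⟨hs, ?_⟩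
        have h3 : s = (b + s) + -b := by abel
        rw [h3]
        exact Submodule.add_mem_sup hx (neg_mem hb)
      rw [h, Submodule.mem_bot] at h2
      rw [h2, add_zero] at hx ⊢
      exact Submodule.disjoint_def.1 hAB b hx hb
    refine hmax _ ⟨hB.sup (hS.trans γ), h1⟩ (lt_of_le_of_ne le_sup_left fun h2 => ?_)
    have h3 : S.map (r γ) ≤ B := by
      rw [h2]
      exact le_sup_right
    have h4 : S.map (r γ) = ⊥ := by
      rw [← h]
      exact (inf_eq_left.2 (h3.trans le_sup_right)).symm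
    apply hS0
    rw [eq_bot_iff]
    intro x hx
    have h5 : r γ x ∈ S.map (r γ) := ⟨x, hx, rfl⟩
    rw [h4, Submodule.mem_bot] at h5
    rw [Submodule.mem_bot, ← rg_inv' r γ x, h5, map_zero]
  · rw [← h]
    exact inf_le_right

/-- **Irreducibility under the derivations.** -/
theorem gst_eq [IsAlgClosed K] [CharZero K] {r : Γ →* Module.End K V} (hSI : SI r)
    {A : Submodule K V} (hA : Gst r A) : A = ⊥ ∨ A = ⊤ := by
  obtain ⟨B, hB, hc⟩ := exists_gst_compl hSI hA
  let p : Module.End K V := A.subtype ∘ₗ Submodule.projectionOnto A B hc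
  have hp1 : ∀ x ∈ A, p x = x := fun x hx =>
    congrArg Subtype.val (Submodule.projectionOnto_apply_left hc ⟨x, hx⟩)
  have hp2 : ∀ x, p x ∈ A := fun x => SetLike.coe_mem _
  have hp3 : ∀ x ∈ B, p x = 0 := by
    intro x hx
    change A.subtype (Submodule.projectionOnto A B hc x) = 0
    rw [Submodule.projectionOnto_apply_of_mem_right hc hx, map_zero]
  obtain ⟨Δ, hΔ, h1⟩ := proj_fin (r := r) (p := p) (LinearMap.ext fun x => hp1 _ (hp2 x)) (by
    intro D
    refine LinearMap.ext fun x => ?_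
    obtain ⟨a, ha, b, hb, rfl⟩ := Submodule.mem_sup.1
      (hc.sup_eq_top ▸ Submodule.mem_top : x ∈ A ⊔ B)
    have e1 : D.Θ (full V r) (a + b) = D.Θ (full V r) a + D.Θ (full V r) b :=
      map_add (D.Θ (full V r)) a b
    change D.Θ (full V r) (p (a + b)) - p (D.Θ (full V r) (a + b)) = 0
    rw [e1, map_add p, map_add p, hp1 a ha, hp3 b hb, hp1 _ (hA D a ha), hp3 _ (hB D b hb),
      add_zero, add_zero, sub_self])
  refine hSI Δ hΔ A fun g hg x hx => ?_
  have h2 := LinearMap.congr_fun (h1 g hg) x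
  change r g (p x) = p (r g x) at h2
  rw [hp1 x hx] at h2
  rw [h2]
  exact hp2 _

/-- **Averaging.** -/
theorem exists_stab_compl [CharZero K] {t : Γ →* Module.End K V} {A : Submodule K V}
    (hA : Stab t A) {p : Module.End K V} (hp1 : ∀ x ∈ A, p x = x) (hp2 : ∀ x, p x ∈ A)
    {Δ : Subgroup Γ} (hΔ : Δ.FiniteIndex) (h : ∀ g ∈ Δ, t g * p = p * t g) :
    ∃ B : Submodule K V, Stab t B ∧ IsCompl A B := by
  classical
  have hfin : Finite (Γ ⧸ Δ) := Subgroup.finite_quotient_of_finiteIndex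
  have := Fintype.ofFinite (Γ ⧸ Δ)
  let F : Γ → Module.End K V := fun g => t g * p * t g⁻¹
  have hF : ∀ g, ∀ d ∈ Δ, F (g * d) = F g := by
    intro g d hd
    change t (g * d) * p * t (g * d)⁻¹ = t g * p * t g⁻¹
    rw [mul_inv_rev, map_mul, map_mul, mul_assoc (t g) (t d) p, h d hd]
    have h1 : t d * t d⁻¹ = 1 := by rw [← map_mul, mul_inv_cancel, map_one]
    calc t g * (p * t d) * (t d⁻¹ * t g⁻¹) = t g * p * (t d * t d⁻¹) * t g⁻¹ := by
          simp only [mul_assoc]
      _ = t g * p * t g⁻¹ := by rw [h1, mul_one]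
  let F' : Γ ⧸ Δ → Module.End K V := fun c => F c.out
  have hF' : ∀ g : Γ, F' (g : Γ ⧸ Δ) = F g := by
    intro g
    obtain ⟨d, hd⟩ := QuotientGroup.mk_out_eq_mul Δ g
    change F ((g : Γ ⧸ Δ).out) = F g
    rw [hd]
    exact hF g d d.2
  have hn : (Fintype.card (Γ ⧸ Δ) : K) ≠ 0 := by
    rw [Nat.cast_ne_zero]
    exact Fintype.card_ne_zero
  let q : Module.End K V := (Fintype.card (Γ ⧸ Δ) : K)⁻¹ • ∑ c, F' c
  have hF1 : ∀ g, ∀ x ∈ A, F g x = x := by
    intro g x hx
    change t g (p (t g⁻¹ x)) = x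
    rw [hp1 _ (hA _ x hx), rg_inv]
  have hF2 : ∀ g x, F g x ∈ A := fun g x => hA g _ (hp2 _)
  have hq1 : ∀ x ∈ A, q x = x := by
    intro x hx
    change (Fintype.card (Γ ⧸ Δ) : K)⁻¹ • (∑ c, F' c) x = x
    rw [LinearMap.sum_apply, Finset.sum_congr rfl fun c _ => hF1 c.out x hx, Finset.sum_const,
      Finset.card_univ, ← Nat.cast_smul_eq_nsmul K, smul_smul, inv_mul_cancel₀ hn, one_smul]
  have hq2 : ∀ x, q x ∈ A := by
    intro x
    change (Fintype.card (Γ ⧸ Δ) : K)⁻¹ • (∑ c, F' c) x ∈ A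
    rw [LinearMap.sum_apply]
    exact A.smul_mem _ (A.sum_mem fun c _ => hF2 _ _)
  have hq3 : ∀ γ, t γ * q = q * t γ := by
    intro γ
    have h1 : t γ * (∑ c, F' c) = (∑ c, F' c) * t γ := by
      rw [Finset.mul_sum, Finset.sum_mul]
      refine Fintype.sum_equiv (MulAction.toPerm γ) _ _ fun c => ?_
      induction c using QuotientGroup.induction_on with
      | H g =>
        have h2 : (MulAction.toPerm γ ((g : Γ) : Γ ⧸ Δ) : Γ ⧸ Δ) = ((γ * g : Γ) : Γ ⧸ Δ) := rfl
        rw [h2, hF', hF']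
        change t γ * (t g * p * t g⁻¹) = t (γ * g) * p * t (γ * g)⁻¹ * t γ
        have h3 : t γ⁻¹ * t γ = 1 := by rw [← map_mul, inv_mul_cancel, map_one]
        rw [mul_inv_rev, map_mul, map_mul]
        calc t γ * (t g * p * t g⁻¹) = t γ * t g * p * (t g⁻¹ * 1) := by
              rw [mul_one]; simp only [mul_assoc]
          _ = _ := by rw [← h3]; simp only [mul_assoc]
    change t γ * ((Fintype.card (Γ ⧸ Δ) : K)⁻¹ • ∑ c, F' c) =
      ((Fintype.card (Γ ⧸ Δ) : K)⁻¹ • ∑ c, F' c) * t γ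
    rw [mul_smul_comm, h1, smul_mul_assoc]
  refine ⟨LinearMap.ker q, fun g x hx => ?_, ?_, ?_⟩
  · rw [LinearMap.mem_ker] at hx ⊢
    have h2 := LinearMap.congr_fun (hq3 g) x
    change t g (q x) = q (t g x) at h2
    rw [← h2, hx, map_zero]
  · rw [Submodule.disjoint_def]
    intro x hx hx'
    rw [← hq1 x hx]
    exact LinearMap.mem_ker.1 hx'
  · rw [codisjoint_iff, eq_top_iff]
    intro x _
    have h2 : x = q x + (x - q x) := by abel
    rw [h2]
    refine Submodule.add_mem_sup (hq2 x) (LinearMap.mem_ker.2 ?_)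
    rw [map_sub, hq1 _ (hq2 x), sub_self]

/-- **The representation on the operators is semisimple.** -/
theorem semiS_cj [IsAlgClosed K] [CharZero K] {r : Γ →* Module.End K V} (hSI : SI r) :
    SemiS (cj r) := by
  classical
  intro A hA
  let L : Submodule K (Module.End K V) :=
    { carrier := {x | ∃ D : Der K Γ, D.Θ (full V r) = x}
      add_mem' := by
        rintro x y ⟨D, rfl⟩ ⟨D', rfl⟩
        exact ⟨D + D', rfl⟩
      zero_mem' := ⟨0, rfl⟩
      smul_mem' := by
        rintro c x ⟨D, rfl⟩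
        exact ⟨c • D, rfl⟩ }
  obtain ⟨W', hW', hc⟩ := Cb.lie_ad_all K V L
    (by
      rintro _ ⟨D, rfl⟩ _ ⟨D', rfl⟩
      exact ⟨D.br D', rfl⟩)
    (by
      intro W hW
      have hg : Gst r W := fun D x hx => hW _ ⟨D, rfl⟩ x hx
      rcases gst_eq hSI hg with h | h
      · refine ⟨⊤, fun _ _ _ _ => trivial, ?_⟩
        rw [h]
        exact isCompl_bot_top
      · refine ⟨⊥, fun x _ w hw => ?_, ?_⟩
        · rw [Submodule.mem_bot] at hw
          rw [hw, map_zero]
          exact zero_mem _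
        · rw [h]
          exact isCompl_top_bot)
    A (by
      rintro _ ⟨D, rfl⟩ w hw
      exact br_mem hA D hw)
  let p : Module.End K (Module.End K V) := A.subtype ∘ₗ Submodule.projectionOnto A W' hc
  have hp1 : ∀ x ∈ A, p x = x := fun x hx =>
    congrArg Subtype.val (Submodule.projectionOnto_apply_left hc ⟨x, hx⟩)
  have hp2 : ∀ x, p x ∈ A := fun x => SetLike.coe_mem _
  have hp3 : ∀ x ∈ W', p x = 0 := by
    intro x hx
    change A.subtype (Submodule.projectionOnto A W' hc x) = 0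
    rw [Submodule.projectionOnto_apply_of_mem_right hc hx, map_zero]
  obtain ⟨Δ, hΔ, h1⟩ := proj_fin (r := cj r) (p := p) (LinearMap.ext fun x => hp1 _ (hp2 x)) (by
    intro D
    refine LinearMap.ext fun x => ?_
    obtain ⟨a, ha, b, hb, rfl⟩ := Submodule.mem_sup.1
      (hc.sup_eq_top ▸ Submodule.mem_top : x ∈ A ⊔ W')
    have e1 : D.Θ (full (Module.End K V) (cj r)) (a + b) =
        D.Θ (full (Module.End K V) (cj r)) a + D.Θ (full (Module.End K V) (cj r)) b :=
      map_add (D.Θ (full (Module.End K V) (cj r))) a b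
    have hb' : D.Θ (full (Module.End K V) (cj r)) b ∈ W' := by
      rw [cj_Θ]
      exact hW' _ ⟨D, rfl⟩ b hb
    have ha' : D.Θ (full (Module.End K V) (cj r)) a ∈ A := Θ_mem D (r := cj r) hA ha
    change D.Θ (full (Module.End K V) (cj r)) (p (a + b)) -
      p (D.Θ (full (Module.End K V) (cj r)) (a + b)) = 0
    rw [e1, map_add p, map_add p, hp1 a ha, hp3 b hb, hp1 _ ha', hp3 _ hb', add_zero, add_zero,
      sub_self])
  exact exists_stab_compl hA hp1 hp2 hΔ h1

end

end Pool.Agent.V5helper95.IF
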