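import Pool.Agent.V5helper95.IF.Ful
import Pool.Agent.V5helper95.IF.Rep

/-!
# The logarithm of a transvection is given by a derivation
-/

set_option autoImplicit false
set_option linter.unusedSectionVars false

open Filter

namespace Pool.Agent.V5helper95.IF

open Module Pool.Agent.N179.GR
open Pool.Agent.TH125.Gal (SI exists_pow)

noncomputable section

variable {K : Type} [Field K] {Γ : Type} [Group Γ]
  {V : Type} [AddCommGroup V] [Module K V] [FiniteDimensional K V]

/-- the powers of a unipotent element -/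
theorem pow_unip {r : Γ →* Module.End K V} {g : Γ} {N : Module.End K V} (hN : N * N = 0)
    (hg : r g = 1 + N) (n : ℕ) : r (g ^ n) = 1 + (n : K) • N := by
  induction n with
  | zero => rw [pow_zero, map_one, Nat.cast_zero, zero_smul, add_zero]
  | succ n ih =>
    rw [pow_succ, map_mul, ih, hg, add_mul, mul_add, one_mul, one_mul, smul_mul_assoc, mul_add,
      mul_one, hN, add_zero, Nat.cast_succ, add_smul, one_smul]
    abel

theorem thV_const {U : Ultrafilter Γ} (θ : UL K U →ₗ[K] K) (h1 : θ 1 = 1) (v : V) :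
    thV θ (↑v : UV U V) = v := by
  refine eq_of_dual (K := K) fun φ => ?_
  rw [coord_thV, mapL_const, ← smul_const, Algebra.algebraMap_eq_smul_one, map_smul, h1,
    smul_eq_mul, mul_one]

/-- **The logarithm of a unipotent element of rank one.** -/
theorem exists_log [IsAlgClosed K] [CharZero K] {r : Γ →* Module.End K V} {g : Γ}
    {N : Module.End K V} (hN : N * N = 0) (hN0 : N ≠ 0) (hg : r g = 1 + N) :
    ∃ D : Der K Γ, D.Θ (full V r) = N := by
  classical
  have hpow := pow_unip hN hg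
  have hinj : ∀ n m : ℕ, g ^ n = g ^ m → n = m := by
    intro n m h
    have h1 := hpow n
    rw [h, hpow m, add_right_inj] at h1
    exact (Nat.cast_injective (R := K) (smul_left_injective K hN0 h1)).symm
  let P : ℕ → Set Γ := fun m => {h | ∃ n ≥ m, h = g ^ n}
  let 𝒮 : Set (Set Γ) := {s | (∃ Δ : Subgroup Γ, Δ.FiniteIndex ∧ s = Δ) ∨ ∃ m, s = P m}
  have key : ∀ T : Finset (Set Γ), (T : Set (Set Γ)) ⊆ 𝒮 → ∃ (Δ : Subgroup Γ) (m : ℕ),
      Δ.FiniteIndex ∧ ∀ h ∈ Δ, h ∈ P m → ∀ s ∈ T, h ∈ s := by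
    intro T
    induction T using Finset.induction_on with
    | empty => exact fun _ => ⟨⊤, 0, inferInstance, fun h _ _ s hs => by simp at hs⟩
    | insert a T ha ih =>
      intro hT
      rw [Finset.coe_insert, Set.insert_subset_iff] at hT
      obtain ⟨Δ, m, hΔ, h1⟩ := ih hT.2
      rcases hT.1 with ⟨Δ', hΔ', rfl⟩ | ⟨m', rfl⟩
      · refine ⟨Δ ⊓ Δ', m, inferInstance, fun h hh hm s hs => ?_⟩
        rcases Finset.mem_insert.1 hs with rfl | hs
        · exact hh.2
        · exact h1 h hh.1 hm s hs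
      · refine ⟨Δ, max m m', hΔ, fun h hh hm s hs => ?_⟩
        obtain ⟨n, hn, rfl⟩ := hm
        rcases Finset.mem_insert.1 hs with rfl | hs
        · exact ⟨n, (le_max_right _ _).trans hn, rfl⟩
        · exact h1 _ hh ⟨n, (le_max_left _ _).trans hn, rfl⟩ s hs
  obtain ⟨U, hU⟩ := Ultrafilter.exists_ultrafilter_of_finite_inter_nonempty 𝒮 (by
    intro T hT
    obtain ⟨Δ, m, hΔ, h1⟩ := key T hT
    obtain ⟨n, hn, hgn⟩ := exists_pow hΔ g
    refine ⟨g ^ (n * m), fun s hs => h1 _ ?_ ⟨n * m, Nat.le_mul_of_pos_left m hn, rfl⟩ s hs⟩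
    rw [pow_mul]
    exact Δ.pow_mem hgn m)
  have hbig : Big U := fun Δ hΔ => hU (Or.inl ⟨Δ, hΔ, rfl⟩)
  have hP : ∀ m, P m ∈ U := fun m => hU (Or.inr ⟨m, rfl⟩)
  -- the exponent
  let e : Γ → ℕ := fun h => if hh : ∃ n : ℕ, h = g ^ n then hh.choose else 0
  have he : ∀ n : ℕ, e (g ^ n) = n := by
    intro n
    have hh : ∃ n' : ℕ, g ^ n = g ^ n' := ⟨n, rfl⟩
    change (if hh : ∃ n' : ℕ, g ^ n = g ^ n' then hh.choose else 0) = n
    rw [dif_pos hh]
    exact hinj _ _ hh.choose_spec.symm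
  let ν : UL K U := (↑(fun h => (e h : K)) : (U : Filter Γ).Germ K)
  have hν : ∀ a : K, ν ≠ algebraMap K (UL K U) a := by
    intro a ha
    rw [smul_const] at ha
    have h1 := Germ.coe_eq.1 ha
    by_cases h2 : ∃ n₀ : ℕ, (n₀ : K) = a
    · obtain ⟨n₀, hn₀⟩ := h2
      have h3 : ∀ᶠ h in (U : Filter Γ), False := by
        filter_upwards [h1, hP (n₀ + 1)] with h hh hh'
        obtain ⟨n, hn, rfl⟩ := hh'
        rw [he] at hh
        have h4 : n = n₀ := Nat.cast_injective (R := K) (hh.trans hn₀.symm)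
        omega
      obtain ⟨h, hh⟩ := h3.exists
      exact hh
    · have h3 : ∀ᶠ h in (U : Filter Γ), False := by
        filter_upwards [h1] with h hh
        exact h2 ⟨e h, hh⟩
      obtain ⟨h, hh⟩ := h3.exists
      exact hh
  have htr : Transcendental K ν := by
    intro halg
    have h1 := IsAlgClosed.degree_eq_one_of_irreducible K (minpoly.irreducible halg.isIntegral)
    obtain ⟨a, ha⟩ := minpoly.mem_range_of_degree_eq_one K _ h1
    exact hν a ha.symm
  obtain ⟨δ, hδ⟩ := H497R2.exists_derivation K (UL K U) htr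
  obtain ⟨θ, hθ⟩ : ∃ θ : UL K U →ₗ[K] K, θ 1 = 1 := by
    have h1 := mt (Module.forall_dual_apply_eq_zero_iff K (1 : UL K U)).1 one_ne_zero
    push Not at h1
    obtain ⟨ψ, hψ⟩ := h1
    exact ⟨(ψ 1)⁻¹ • ψ, by rw [LinearMap.smul_apply, smul_eq_mul, inv_mul_cancel₀ hψ]⟩
  refine ⟨mkDer δ θ hbig, LinearMap.ext fun v => ?_⟩
  have h1 : eta U (full V r) (↑v : UV U V) = (↑v : UV U V) + ν • (↑(N v) : UV U V) := by
    have h2 : (↑(fun h => r h v) : UV U V) = ↑(fun h => v + (e h : K) • N v) := by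
      refine Germ.coe_eq.2 ?_
      filter_upwards [hP 0] with h hh
      obtain ⟨n, -, rfl⟩ := hh
      rw [he, hpow]
      rfl
    exact h2
  have h2 : nab δ (eta U (full V r) (↑v : UV U V)) = (↑(N v) : UV U V) := by
    rw [h1]
    have e1 := nab_add δ (K := K) (↑v : UV U V) (ν • (↑(N v) : UV U V))
    have e2 := nab_smul δ (K := K) ν (↑(N v) : UV U V)
    have e3 := nab_const δ (K := K) v
    have e4 := nab_const δ (K := K) (N v)
    refine e1.trans ?_
    rw [e3, e2, e4, hδ, smul_zero, add_zero, one_smul, zero_add]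
  have h3 : ld δ (full V r) v = (↑(N v) : UV U V) := by
    unfold ld
    have e1 : etaI U (full V r) (nab δ (eta U (full V r) (↑v : UV U V))) =
        etaI U (full V r) (↑(N v) : UV U V) := congrArg _ h2
    refine e1.trans ?_
    have h4 : (↑(fun h => r h⁻¹ (N v)) : UV U V) = ↑(fun _ : Γ => N v) := by
      refine Germ.coe_eq.2 ?_
      filter_upwards [hP 0] with h hh
      obtain ⟨n, -, rfl⟩ := hh
      have h5 : r (g ^ n) (N v) = N v := by
        have h6 : N (N v) = 0 := LinearMap.congr_fun hN v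
        rw [hpow, LinearMap.add_apply, LinearMap.smul_apply, h6, smul_zero, add_zero]
        rfl
      conv_lhs => rw [← h5]
      exact rg_inv' r (g ^ n) (N v)
    exact h4
  rw [mkDer_apply, h3]
  exact thV_const θ hθ (N v)

end

end Pool.Agent.V5helper95.IF
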