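import Pool.Agent.TH125.Gal.Pub2

/-!
# Families of varieties with irreducible, pairwise different spaces of skew operators: definitions
-/

set_option autoImplicit false

open CategoryTheory AlgebraicGeometry

universe u

namespace Pool.Agent.V5helper95.IF

open Pool.Agent.TH125.Gal

section Alg

variable {K : Type} [Field K] {A : Type} [Ring A] [Algebra K A] {A' : Type} [Ring A']
  [Algebra K A'] {Γ : Type} [Group Γ]

/-- The linear operators on the subspace `T` of the algebra `A`. -/
def Ops (T : Submodule K A) : Type := T →ₗ[K] T

noncomputable instance Ops.ac (T : Submodule K A) : AddCommGroup (Ops T) :=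
  LinearMap.addCommGroup

noncomputable instance Ops.md (T : Submodule K A) : Module K (Ops T) := LinearMap.module

/-- The value of an operator. -/
def Ops.ap {T : Submodule K A} (x : Ops T) (t : T) : A := (show T →ₗ[K] T from x) t

/-- The commutator of two operators. -/
noncomputable def Ops.br {T : Submodule K A} (x y : Ops T) : Ops T :=
  LinearMap.comp (show T →ₗ[K] T from x) y - LinearMap.comp (show T →ₗ[K] T from y) x

/-- The operator `x` on `T` is skew: `tr (x s · t) + tr (s · x t) = 0`. -/
def Ops.Skew {T : Submodule K A} (x : Ops T) (tr : A →ₗ[K] K) : Prop :=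
  ∀ s t : T, tr (x.ap s * t + s * x.ap t) = 0

/-- The operator `y` is `g x g⁻¹`: it maps `g s` to `g (x s)`. -/
def Ops.Conj {T : Submodule K A} (x y : Ops T) (g : A ≃ₐ[K] A) : Prop :=
  ∀ s t : T, (t : A) = g s → y.ap t = g (x.ap s)

/-- Every space of skew operators which is stable under conjugation is `0` or contains all skew
operators. -/
def SkewIrredAct (T : Submodule K A) (tr : A →ₗ[K] K) (ρ : Γ →* (A ≃ₐ[K] A)) : Prop :=
  ∀ M : Submodule K (Ops T), (∀ x ∈ M, x.Skew tr) →
    (∀ x y, (∃ g, x.Conj y (ρ g)) → x ∈ M → y ∈ M) → M = ⊥ ∨ ∀ x : Ops T, x.Skew tr → x ∈ M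

/-- The linear maps from the operators on `T` to the operators on `T'`. -/
def Lin (T : Submodule K A) (T' : Submodule K A') : Type := Ops T →ₗ[K] Ops T'

/-- The value of a linear map. -/
noncomputable def Lin.ap {T : Submodule K A} {T' : Submodule K A'} (f : Lin T T') (x : Ops T) : Ops T' :=
  (show Ops T →ₗ[K] Ops T' from f) x

/-- The linear map `f` is an isomorphism between the spaces of the skew operators which is
compatible with commutators. -/
structure IsLieIso {T : Submodule K A} {T' : Submodule K A'} (tr : A →ₗ[K] K) (tr' : A' →ₗ[K] K)
    (f : Lin T T') : Prop where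
  maps : ∀ x : Ops T, x.Skew tr → (f.ap x).Skew tr'
  inj : ∀ x : Ops T, x.Skew tr → f.ap x = 0 → x = 0
  surj : ∀ y : Ops T', y.Skew tr' → ∃ x : Ops T, x.Skew tr ∧ f.ap x = y
  br : ∀ x y : Ops T, x.Skew tr → y.Skew tr → f.ap (x.br y) = (f.ap x).br (f.ap y)

/-- The spaces of the skew operators are isomorphic as Lie algebras and as representations. -/
def SkewIsoAct (T : Submodule K A) (T' : Submodule K A') (tr : A →ₗ[K] K) (tr' : A' →ₗ[K] K)
    (ρ : Γ →* (A ≃ₐ[K] A)) (ρ' : Γ →* (A' ≃ₐ[K] A')) : Prop :=
  ∃ f : Lin T T', IsLieIso tr tr' f ∧
    ∀ (g : Γ) (x y : Ops T), x.Skew tr → x.Conj y (ρ g) → (f.ap x).Conj (f.ap y) (ρ' g)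

/-- The dimension of the span of the elements `x` such that all `g` in a subgroup of finite index map
`x` to a multiple of `x`. -/
noncomputable def semiRankAct (ρ : Γ →* (A ≃ₐ[K] A)) : ℕ :=
  Module.finrank K (Submodule.span K {x : A | ∃ Δ : Subgroup Γ, Δ.FiniteIndex ∧
    ∀ g ∈ Δ, ∃ c : K, ρ g x = c • x})

/-- The dimension of `T`. -/
noncomputable def rk (T : Submodule K A) : ℕ := Module.finrank K T

/-- `T` is a subspace of `U`. -/
def Inside (T U : Submodule K A) : Prop := T ≤ U

end Alg

open Pool.Agent.H914 Pool.Agent.H914.VarClass Pool.Agent.H914.VarClass.Obj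
  Pool.Agent.H914.WeilCohomology

variable {k : Type u} [Field k] {𝒱 : VarClass k} {ops : CycleOps 𝒱}
  {W : WeilCohomology.{u, 0} ops} {Γ : Type} [Group Γ]

/-- The space of the skew operators on the transcendental cohomology (the second exterior power of
the transcendental cohomology if the intersection form is symmetric, the second symmetric power if
it is alternating) is an irreducible representation: every stable subspace is `0` or the whole
space. -/
def SkewIrred (X : GVar W Γ) : Prop := SkewIrredAct (transcendental W X.X) (W.tr X.X) X.act

/-- The spaces of the skew operators on the transcendental cohomology of `X` and `Y` are isomorphic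
as Lie algebras and as representations of `Γ`. -/
def SkewIso (X Y : GVar W Γ) : Prop :=
  SkewIsoAct (transcendental W X.X) (transcendental W Y.X) (W.tr X.X) (W.tr Y.X) X.act Y.act

/-- The dimension of the transcendental cohomology. -/
noncomputable def trRk (X : GVar W Γ) : ℕ := rk (transcendental W X.X)

/-- The sum of the Betti numbers. -/
noncomputable def betti (Z : GVar W Γ) : ℕ := Module.finrank W.K (W.H Z.X)

/-- The dimension of the span of the semi-invariant classes: the classes which are multiplied by
scalars by all elements of a subgroup of finite index. -/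
noncomputable def semiRank (Z : GVar W Γ) : ℕ := semiRankAct Z.act

/-- The divisor `D` satisfies the hard Lefschetz theorem and the standard conjecture of Hodge type;
the transcendental cohomology of `X` is not `0`, in the middle degree and irreducible under all
subgroups of finite index, and its dimension is at least `3` if `X` has even dimension; the space of
the skew operators is irreducible, or some element of `Γ` acts on the transcendental cohomology by a
Picard-Lefschetz formula. -/
structure Big (X : GVar W Γ) (D : X.X.Cycles) : Prop where
  div : X.X.IsCyc 1 D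
  hard : HardLefschetz W X.X D
  hodge : HodgeType W X.X D
  middle : Inside (transcendental W X.X) (W.gr X.X X.X.dim)
  irreducible : IrredAct X.act (transcendental W X.X)
  pos : 0 < trRk X
  rank : Even X.X.dim → 3 ≤ trRk X
  big : SkewIrred X ∨ ∃ g : Γ, PLAct (W.tr X.X) (transcendental W X.X) X.act g

/-- The `X i` are members of the class `G` of varieties with a Galois action; the divisor `D i` on
`X i` and the transcendental cohomology of `X i` have the property `Big`; for `i ≠ j` the spaces of
the skew operators of `X i` and of `X j` are not isomorphic as Lie algebras with an action of `Γ`. -/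
structure BigFamily (χ : Γ →* W.Kˣ) (G : Set (GVar W Γ)) {ι : Type} (X : ι → GVar W Γ)
    (D : ∀ i, (X i).X.Cycles) : Prop where
  galoisClass : GaloisClass χ G
  mem : ∀ i, X i ∈ G
  big : ∀ i, Big (X i) (D i)
  notIso : ∀ i j, i ≠ j → ¬SkewIso (X i) (X j)

/-- The properties of the sets `E Z` of the exceptional indices: for all finite sets `F` of
exceptional indices for `Z` the sum of the numbers `2 ⌊r / 2⌋`, where `r` is the dimension of the
transcendental cohomology of `X i` and `i` is in `F`, is at most `b - b'`, where `b` is the sum of the
Betti numbers of `Z` and `b'` is the dimension of the span of the semi-invariant classes; only `j` can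
be exceptional for `X j`; and the exceptional indices for a product are exceptional for one of the
factors. -/
structure Bounded (G : Set (GVar W Γ)) {ι : Type} (X : ι → GVar W Γ)
    (E : GVar W Γ → Set ι) : Prop where
  bound : ∀ Z ∈ G, ∀ F : Finset ι, (F : Set ι) ⊆ E Z →
    ∑ i ∈ F, 2 * (trRk (X i) / 2) + semiRank Z ≤ betti Z
  self : ∀ j, E (X j) ⊆ {j}
  prod : ∀ A ∈ G, ∀ B ∈ G, ∀ C ∈ G, IsProdVar A B C → E C ⊆ E A ∪ E B

/-- The indices in the list are not in `S` and pairwise different, and `n + 1` is less than the
dimension of the transcendental cohomology of `X i` for the pairs `(i, n)` for which `X i` has even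
dimension. -/
def Adm {ι : Type} (X : ι → GVar W Γ) (S : Set ι) (L : List (ι × ℕ)) : Prop :=
  (L.map Prod.fst).Nodup ∧ ∀ a ∈ L, a.1 ∉ S ∧ (Even (X a.1).X.dim → a.2 + 1 < trRk (X a.1))

end Pool.Agent.V5helper95.IF
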