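import Pool.Agent.V5helper95.IF.Str
import Pool.Agent.V5helper95.IF.Irr
import Pool.Agent.TH125.Gal.Twr
import Pool.Agent.N179.GR.Fin

/-!
# Towers of products with powers: splitting of the transcendental parts
-/

open CategoryTheory AlgebraicGeometry Finset Function

set_option autoImplicit false
set_option linter.unusedSectionVars false

universe u

namespace Pool.Agent.V5helper95.IF

open Pool.Agent.TH125.Gal Pool.Agent.N179.GR

open Pool.Agent.H914 Pool.Agent.H914.VarClass Pool.Agent.H914.VarClass.Obj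
  Pool.Agent.H914.WeilCohomology Pool.Agent.H281R3.HT Pool.Agent.W552

variable {k : Type u} [Field k] {𝒱 : VarClass k} {ops : CycleOps 𝒱}
  {W : WeilCohomology.{u, 0} ops} {Γ : Type} [Group Γ] {χ : Γ →* W.Kˣ}

section

variable {X : 𝒱.Obj} {ρ : Γ →* (W.H X ≃ₐ[W.K] W.H X)}

/-- derivations which kill the transcendental cohomology kill the cohomology -/
theorem kill_coh (hDX : HomEqNum W X) (hG : IsGalois W χ X ρ) {D : Der W.K Γ} (hD : InDer 1 D)
    (h0 : D.Θ (full (transcendental W X) (rhoT hG)) = 0) : D.Θ (full (W.H X) (algR ρ)) = 0 := by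
  obtain ⟨s⟩ := exists_SB hDX
  refine s.e.ext fun i => ?_
  rcases i with i | i
  · rw [s.e_inl]
    obtain ⟨Δ, hΔ, h1⟩ := hG.cl_fix (s.jC i) (s.bC i) (s.alg i)
    exact hD.kill (M := full (W.H X) (algR ρ)) (f := (s.bC i : W.H X))
      ⟨Δ, hΔ, fun g hg => ⟨_, h1 g hg⟩⟩
  · rw [s.e_inr]
    have h1 := D.lin (full (transcendental W X) (rhoT hG)) (full (W.H X) (algR ρ))
      (transcendental W X).subtype ⟨⊤, inferInstance, fun g _ t => rfl⟩ (s.bT i)
    rw [h0] at h1
    exact h1.symm.trans (map_zero (transcendental W X).subtype)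

end

section

variable {P : Polarized 𝒱} {n : ℕ} {Z : 𝒱.Obj}
  {ρ : Γ →* (W.H P.X ≃ₐ[W.K] W.H P.X)} {τ : Γ →* (W.H Z ≃ₐ[W.K] W.H Z)}
  {υ : Γ →* (W.H ((nest ops n fun _ => P).X.prod Z) ≃ₐ[W.K]
    W.H ((nest ops n fun _ => P).X.prod Z))}

/-- derivations kill products -/
theorem kill_list {A : Type} [Ring A] [Algebra W.K A] [FiniteDimensional W.K A]
    {τ : Γ →* (A ≃ₐ[W.K] A)} {D : Der W.K Γ} :
    ∀ l : List A, (∀ a ∈ l, D.Θ (full A (algR τ)) a = 0) → D.Θ (full A (algR τ)) l.prod = 0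
  | [], _ => Θ_one D
  | a :: l, h => by
    have h1 := kill_list l fun b hb => h b (List.mem_cons_of_mem _ hb)
    have h2 := h a List.mem_cons_self
    rw [List.prod_cons, Θ_mul]
    have h3 : ∀ x y : A, x = 0 → y = 0 → x * l.prod + a * y = 0 := by
      rintro x y rfl rfl
      rw [zero_mul, mul_zero, add_zero]
    exact h3 _ _ h2 h1

/-- derivations which kill the factors kill the products with powers -/
theorem kill_pow (hP : IsPowAct W P n Z ρ τ υ) {D : Der W.K Γ}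
    (h1 : D.Θ (full (W.H P.X) (algR ρ)) = 0) (h2 : D.Θ (full (W.H Z) (algR τ)) = 0) :
    D.Θ (full _ (algR υ)) = 0 := by
  obtain ⟨b, hb⟩ := exists_monoBasis (ops := ops) P (Module.finBasis W.K (W.H P.X)) n
  have e1 : ∀ (p : Fin (n + 1)) (a : W.H P.X),
      D.Θ (full _ (algR υ)) (W.map (fst _ Z) (W.map (prj ops n (fun _ => P) p) a)) = 0 := by
    intro p a
    have h3 := D.lin (full (W.H P.X) (algR ρ)) (full _ (algR υ))
      ((W.map (fst _ Z)).toLinearMap ∘ₗ (W.map (prj ops n (fun _ => P) p)).toLinearMap)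
      ⟨⊤, inferInstance, fun g _ v => ((hP g).1 p v).symm⟩ a
    rw [h1] at h3
    exact h3.symm.trans (map_zero ((W.map (fst _ Z)).toLinearMap ∘ₗ
      (W.map (prj ops n (fun _ => P) p)).toLinearMap))
  have e2 : ∀ w : W.H Z, D.Θ (full _ (algR υ)) (W.map (snd _ Z) w) = 0 := by
    intro w
    have h3 := D.lin (full (W.H Z) (algR τ)) (full _ (algR υ)) (W.map (snd _ Z)).toLinearMap
      ⟨⊤, inferInstance, fun g _ v => ((hP g).2 v).symm⟩ w
    rw [h2] at h3
    exact h3.symm.trans (map_zero (W.map (snd (nest ops n fun _ => P).X Z)).toLinearMap)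
  refine LinearMap.ext fun c => ?_
  have h4 : ∀ (r : Fin (n + 1) → _) (w : W.H Z), D.Θ (full _ (algR υ))
      (W.map (fst _ Z) (b r) * W.map (snd _ Z) w) = 0 := by
    intro r w
    have h5 : D.Θ (full _ (algR υ)) (W.map (fst _ Z) (b r)) = 0 := by
      rw [hb r, mono, map_list_prod, List.map_ofFn]
      refine kill_list _ fun a ha => ?_
      obtain ⟨p, rfl⟩ := (List.mem_ofFn' _ _).1 ha
      exact e1 p _
    rw [Θ_mul]
    have h6 : ∀ x y : W.H ((nest ops n fun _ => P).X.prod Z), x = 0 → y = 0 →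
        x * W.map (snd _ Z) w + W.map (fst _ Z) (b r) * y = 0 := by
      rintro x y rfl rfl
      rw [zero_mul, mul_zero, add_zero]
    exact h6 _ _ h5 (e2 w)
  rw [expand b c]
  refine (map_sum (D.Θ (full _ (algR υ))) _ _).trans ?_
  exact Finset.sum_eq_zero fun r _ => h4 r _

end

section

variable {G : Set (GVar W Γ)} {ι : Type} {X : ι → GVar W Γ} {D : ∀ i, (X i).X.Cycles}
  {Z : GVar W Γ}

/-- the transcendental part as a representation -/
noncomputable abbrev tr (hG : GaloisClass χ G) (hX : ∀ i, X i ∈ G) (i : ι) : PRep W.K Γ :=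
  full (transcendental W (X i).X) (rhoT (isGalois (hG.galois (X i) (hX i))))

/-- the action on the towers -/
theorem exists_tower_actF (hG : GaloisClass χ G) (hX : ∀ i, X i ∈ G)
    (hDX : ∀ i, HomEqNum W (X i).X) (hZ : Z ∈ G) (E : Z.X.Cycles) (L : List (ι × ℕ)) :
    ∃ υ : Γ →* (W.H (tower' ops (fun i => ⟨(X i).X, D i⟩) ⟨Z.X, E⟩ L).X ≃ₐ[W.K]
        W.H (tower' ops (fun i => ⟨(X i).X, D i⟩) ⟨Z.X, E⟩ L).X),
      (⟨(tower' ops (fun i => ⟨(X i).X, D i⟩) ⟨Z.X, E⟩ L).X, υ⟩ : GVar W Γ) ∈ G ∧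
      ∀ D' : Der W.K Γ, InDer 1 D' → D'.Θ (full (W.H Z.X) (algR Z.act)) = 0 →
        (∀ a ∈ L, D'.Θ (tr hG hX a.1) = 0) → D'.Θ (full _ (algR υ)) = 0 := by
  induction L with
  | nil => exact ⟨Z.act, hZ, fun D' _ h _ => h⟩
  | cons a L ih =>
    obtain ⟨τ, hτ, hτ'⟩ := ih
    obtain ⟨υ, hυ, hP⟩ := exists_pow_act hG (hX a.1) hτ (D a.1) a.2
    refine ⟨υ, hυ, fun D' hD' hZ' hL => ?_⟩
    refine kill_pow hP ?_ (hτ' D' hD' hZ' fun b hb => hL b (List.mem_cons_of_mem _ hb))
    exact kill_coh (hDX a.1) _ hD' (hL a List.mem_cons_self)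

/-- splitting from the towers -/
theorem spl_tower (hG : GaloisClass χ G) (hX : ∀ i, X i ∈ G) {i : ι}
    (hi : Spl (tr hG hX i) {full (W.H Z.X) (algR Z.act)}) {L : List (ι × ℕ)}
    (hL : ∀ a ∈ L, Spl (tr hG hX i) {tr hG hX a.1}) {Y : 𝒱.Obj}
    {υ : Γ →* (W.H Y ≃ₐ[W.K] W.H Y)}
    (hυ : ∀ D' : Der W.K Γ, InDer 1 D' → D'.Θ (full (W.H Z.X) (algR Z.act)) = 0 →
        (∀ a ∈ L, D'.Θ (tr hG hX a.1) = 0) → D'.Θ (full (W.H Y) (algR υ)) = 0) :
    Spl (tr hG hX i) {full (W.H Y) (algR υ)} := by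
  classical
  have h2 : Spl (tr hG hX i) (⋃ j ∈ (L.map Prod.fst).toFinset, {tr hG hX j}) :=
    Spl.iUnion _ (fun j => {tr hG hX j}) fun j hj => by
      obtain ⟨x, hx, rfl⟩ := List.mem_map.1 (List.mem_toFinset.1 hj)
      exact hL x hx
  refine (hi.union h2).detect1 fun D hD h0 N hN => ?_
  rw [Set.mem_singleton_iff.1 hN]
  refine hυ D hD (h0 _ (Or.inl rfl)) fun x hx => h0 _ (Or.inr ?_)
  exact Set.mem_iUnion₂.2 ⟨x.1, List.mem_toFinset.2 (List.mem_map.2 ⟨x, hx, rfl⟩), rfl⟩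

end

section

variable {P : Polarized 𝒱} {Z : 𝒱.Obj} {ρ : Γ →* (W.H P.X ≃ₐ[W.K] W.H P.X)}
  {τ : Γ →* (W.H Z ≃ₐ[W.K] W.H Z)}

theorem rform_inv (hG : IsGalois W χ P.X ρ) (g : Γ) (a b : transcendental W P.X) :
    rform W P.X (transcendental W P.X) (rhoT hG g a) (rhoT hG g b) =
      ((χ ^ P.X.dim) g : W.K) * rform W P.X (transcendental W P.X) a b := by
  rw [MonoidHom.pow_apply, Units.val_pow_eq_pow_val]
  exact bil_act hG g a b

theorem rform_symm (hmid : transcendental W P.X ≤ W.gr P.X P.X.dim)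
    (a b : transcendental W P.X) : rform W P.X (transcendental W P.X) a b =
      (((-1 : ℤ) ^ P.X.dim : ℤ) : W.K) * rform W P.X (transcendental W P.X) b a := by
  rw [rform_apply, rform_apply, trans_symm hmid a.2 b.2]
  push_cast
  rfl

theorem even_of_one {n : ℕ} (h : (-1 : ℤ) ^ n = 1) : Even n := by
  by_contra h'
  rw [(Nat.not_even_iff_odd.1 h').neg_one_pow] at h
  exact absurd h (by decide)

/-- Picard-Lefschetz formulas -/
theorem skIrr_trans_of_pl [IsAlgClosed W.K] (hDX : HomEqNum W P.X)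
    (hmid : transcendental W P.X ≤ W.gr P.X P.X.dim)
    (hG : IsGalois W χ P.X ρ) (hirr : StronglyIrreducible ρ (transcendental W P.X)) {g : Γ}
    (hPL : PicardLefschetz W P.X (ρ g))
    (hrank : Even P.X.dim → 3 ≤ Module.finrank W.K (transcendental W P.X)) :
    SkIrr (rhoT hG) (rform W P.X (transcendental W P.X)) ((-1) ^ P.X.dim) := by
  obtain ⟨δ, hδ, hδ0, c, hc, hgx⟩ := hPL
  exact skIrr_of_pl (μ := χ ^ P.X.dim) (rform_inv hG) (SI_rhoT hG hirr) (neg_one_pow_eq_or ℤ _)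
    (rform_symm hmid) (trans_nondeg hDX) (g := g) (δ := ⟨δ, hδ⟩) (c := c)
    (fun h => hδ0 (congrArg Subtype.val h)) hc (fun t => Subtype.ext (hgx t t.2))
    fun h => hrank (even_of_one h)

/-- the operators of the form belong to the perfect core -/
theorem core_trans [IsAlgClosed W.K] (hDX : HomEqNum W P.X)
    (hmid : transcendental W P.X ≤ W.gr P.X P.X.dim)
    (hG : IsGalois W χ P.X ρ) (hirr : StronglyIrreducible ρ (transcendental W P.X))
    (hpos : 0 < Module.finrank W.K (transcendental W P.X))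
    (hrank : Even P.X.dim → 3 ≤ Module.finrank W.K (transcendental W P.X))
    (hsk : SkIrr (rhoT hG) (rform W P.X (transcendental W P.X)) ((-1) ^ P.X.dim))
    (x y : transcendental W P.X) :
    sk (rform W P.X (transcendental W P.X)) ((-1) ^ P.X.dim) x y ∈
      core (full (transcendental W P.X) (rhoT hG)) :=
  core_of_irr (μ := χ ^ P.X.dim) (rform_inv hG) (SI_rhoT hG hirr) (neg_one_pow_eq_or ℤ _)
    (rform_symm hmid) (trans_nondeg hDX) hpos (fun h => hrank (even_of_one h)) hsk x y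

/-- **From the splitting to the structure theorem.** -/
theorem fullF_of_spl (hmid : transcendental W P.X ≤ W.gr P.X P.X.dim)
    (hG : IsGalois W χ P.X ρ)
    (hcore : ∀ x y, sk (rform W P.X (transcendental W P.X)) ((-1) ^ P.X.dim) x y ∈
      core (full (transcendental W P.X) (rhoT hG)))
    (hspl : Spl (full (transcendental W P.X) (rhoT hG)) {full (W.H Z) (algR τ)}) :
    FullF (Z := Z) hG τ := by
  intro S _ _ lam x y
  refine ⟨sk_skew (rform_symm hmid) (neg_one_pow_eq_or ℤ _) x y, fun h hh => ?_⟩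
  obtain ⟨D, hD, h0, h1⟩ := mem_aI.1 (hspl (hcore x y)) 1
  have h2 : rk (rform W P.X (transcendental W P.X)) y x -
      (((-1 : ℤ) ^ P.X.dim : ℤ) : W.K) • rk (rform W P.X (transcendental W P.X)) x y =
      D.Θ (full (transcendental W P.X) (rhoT hG)) := h1.symm
  rw [h2]
  exact kill_of_der (t := algR τ) (lam := lam) hh hD (h0 _ rfl)

end

end Pool.Agent.V5helper95.IF
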