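import Pool.Agent.V5helper95.IF.Spl
import Pool.Agent.V5helper95.IF.Pub
import Pool.Agent.TH125.Gal.Lef
import Pool.Agent.TH132.A.Hodge

/-!
# The standard conjectures for products with powers
-/

open CategoryTheory AlgebraicGeometry Finset

set_option autoImplicit false
set_option linter.unusedSectionVars false

universe u

namespace Pool.Agent.V5helper95.IF

open Pool.Agent.TH125.Gal Pool.Agent.N179.GR

open Pool.Agent.H914 Pool.Agent.H914.VarClass Pool.Agent.H914.VarClass.Obj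
  Pool.Agent.H914.WeilCohomology Pool.Agent.H281R3.HT Pool.Agent.W552 Pool.Agent.H447

variable {k : Type u} [Field k] {𝒱 : VarClass k} {ops : CycleOps 𝒱}
  {W : WeilCohomology.{u, 0} ops} {Γ : Type} [Group Γ] {χ : Γ →* W.Kˣ} {G : Set (GVar W Γ)}

/-- The conditions on the polarized variety `A` relative to `B`. -/
structure SplitN (A : GVar W Γ) (D : A.X.Cycles) (B : 𝒱.Obj) (n : ℕ) : Prop where
  pol : IsPolarization W A.X D
  middle : transcendental W A.X ≤ W.gr A.X A.X.dim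
  one_ne : (1 : W.H A.X) ≠ 0
  tgt : ∀ (s : SB W A.X), ∀ m ≤ n, ∀ (c : W.H ((nest ops m fun _ => ⟨A.X, D⟩).X.prod B)),
    W552.AS W _ c → c ∈ Tgt (P := ⟨A.X, D⟩) s m B

theorem homEqNum_of_pol {X : 𝒱.Obj} {D : X.Cycles} (h : IsPolarization W X D) :
    HomEqNum W X := by
  obtain ⟨f, F, _⟩ := exists_Fp h.div h.hard h.lefschetz h.hodge
  exact F.hodge.2

/-- The conjecture of Hodge type for varieties without cohomology. -/
theorem hodge_of_zero {X : 𝒱.Obj} (h : (1 : W.H X) = 0) (D : X.Cycles) : HodgeType W X D := by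
  intro j hj z hz hprim hz0
  exfalso
  apply hz0
  rw [← one_mul (W.cl X z), h, zero_mul]

section

variable {A : GVar W Γ} {B : 𝒱.Obj} {D : A.X.Cycles} {n : ℕ}

theorem SplitN.homEqNum (h : SplitN A D B n) : HomEqNum W A.X := homEqNum_of_pol h.pol

/-- positivity on the powers -/
theorem SplitN.fp_nest (h : SplitN A D B n) (hB1 : (1 : W.H B) ≠ 0) :
    ∃ g, Fp W (nest ops n fun _ => ⟨A.X, D⟩).X (nest ops n fun _ => ⟨A.X, D⟩).D g := by
  obtain ⟨f, F, hls⟩ := exists_Fp h.pol.div h.pol.hard h.pol.lefschetz h.pol.hodge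
  obtain ⟨s⟩ := exists_SB h.homEqNum
  have key : ∀ m ≤ n, ∀ c, W552.AS W (nest ops m fun _ => ⟨A.X, D⟩).X c → c ∈
      Submodule.span W.K {c | ∃ S i, Mq s (prj ops m fun _ => ⟨A.X, D⟩) S i c} := by
    intro m hm c hc
    exact mq_of_fst (P := ⟨A.X, D⟩) hB1 (h.tgt s m hm _ (hc.map (fst _ B)))
  exact Pool.Agent.TH125.Gal.fp_nest (P := ⟨A.X, D⟩) F hls h.pol.hard h.pol.lefschetz h.homEqNum
    h.middle s h.one_ne n (fun hn => key 1 hn) (key n le_rfl)

/-- **The conjecture D for products with powers.** -/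
theorem SplitN.homEqNum_prod (h : SplitN A D B n) (hDB : HomEqNum W B) :
    HomEqNum W ((nest ops n fun _ => ⟨A.X, D⟩).X.prod B) := by
  by_cases hB1 : (1 : W.H B) = 0
  · intro j _ z _ _
    rw [← one_mul (W.cl _ z), ← map_one (W.map (snd _ B)), hB1, map_zero, zero_mul]
  · obtain ⟨g, F⟩ := h.fp_nest hB1
    obtain ⟨s⟩ := exists_SB h.homEqNum
    exact Pool.Agent.TH125.Gal.homEqNum_prod F (fun c hc => tgt_lspan h.homEqNum h.middle
      (h.tgt s n le_rfl c hc)) hDB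

/-- The algebraic cycles on a product split. -/
theorem SplitN.tens (h : SplitN A D B n) (hB1 : (1 : W.H B) ≠ 0) :
    ∀ z, W552.AS W ((nest ops n fun _ => (⟨A.X, D⟩ : Polarized 𝒱)).X.prod B) z →
      z ∈ TH132.A.tens W (nest ops n fun _ => (⟨A.X, D⟩ : Polarized 𝒱)).X B := by
  obtain ⟨g, F⟩ := h.fp_nest hB1
  obtain ⟨s⟩ := exists_SB h.homEqNum
  intro z hz
  exact TH132.A.mem_tens F.hodge.2 hz
    (lspan_le (tgt_lspan h.homEqNum h.middle (h.tgt s n le_rfl _ hz)))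

theorem SplitN.nest_one_ne (h : SplitN A D B n) :
    (1 : W.H (nest ops n fun _ => (⟨A.X, D⟩ : Polarized 𝒱)).X) ≠ 0 := by
  obtain ⟨x, hx⟩ := exists_tr h.one_ne
  have h2 : W.tr (nest ops n fun _ => (⟨A.X, D⟩ : Polarized 𝒱)).X
      (mono (prj ops n fun _ => (⟨A.X, D⟩ : Polarized 𝒱)) fun _ => x) ≠ 0 := by
    rw [tr_mono]
    exact pow_ne_zero _ hx
  intro h0
  apply h2
  rw [← one_mul (mono _ _), h0, zero_mul, map_zero]

theorem SplitN.nest_hard (h : SplitN A D B n) (m : ℕ) :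
    (nest ops m fun _ => (⟨A.X, D⟩ : Polarized 𝒱)).X.IsCyc 1
      (nest ops m fun _ => (⟨A.X, D⟩ : Polarized 𝒱)).D ∧
    HardLefschetz W (nest ops m fun _ => (⟨A.X, D⟩ : Polarized 𝒱)).X
      (nest ops m fun _ => (⟨A.X, D⟩ : Polarized 𝒱)).D := by
  induction m with
  | zero => exact ⟨h.pol.div, h.pol.hard⟩
  | succ m ih =>
    exact ⟨SmVar.IsCyc.add (ops.pull_mem _ h.pol.div) (ops.pull_mem _ ih.1),
      hardLefschetz_prod h.pol.div ih.1 h.pol.hard ih.2⟩

theorem one_prod {X : 𝒱.Obj} (hB1 : (1 : W.H B) = 0) : (1 : W.H (X.prod B)) = 0 := by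
  rw [← map_one (W.map (snd _ B)), hB1, map_zero]

/-- **The conjecture A for products with powers.** -/
theorem SplitN.lefschetzA_iff (h : SplitN A D B n) {E : B.Cycles}
    (hE : B.IsCyc 1 E) (hHL : HardLefschetz W B E) :
    LefschetzA W ((nest ops n fun _ => (⟨A.X, D⟩ : Polarized 𝒱)).prod ops ⟨B, E⟩).X
      ((nest ops n fun _ => (⟨A.X, D⟩ : Polarized 𝒱)).prod ops ⟨B, E⟩).D ↔
      LefschetzA W B E := by
  by_cases hB1 : (1 : W.H B) = 0
  · exact iff_of_true (lefschetzA_of_zero (one_prod hB1) _) (lefschetzA_of_zero hB1 _)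
  · obtain ⟨g, F⟩ := h.fp_nest hB1
    obtain ⟨hP, hPL⟩ := h.nest_hard n
    refine TH132.A.lefschetzA_prod_iff (TH132.A.clSplit_of_tens (h.tens hB1)) hP hE
      (SmVar.IsCyc.add (ops.pull_mem _ hP) (ops.pull_mem _ hE)) ?_ hPL hHL
      (lefschetzA_of_D hP hPL F.hodge.2) h.nest_one_ne
    show W.cl _ (ops.pull _ _ + ops.pull _ _) = _
    rw [map_add, W.cl_pull, W.cl_pull]

/-- **The conjecture A for products with powers and all divisors.** -/
theorem SplitN.lefAll_iff (h : SplitN A D B n) :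
    LefAll W ((nest ops n fun _ => (⟨A.X, D⟩ : Polarized 𝒱)).X.prod B) ↔ LefAll W B := by
  by_cases hB1 : (1 : W.H B) = 0
  · exact iff_of_true (fun _ _ _ => lefschetzA_of_zero (one_prod hB1) _)
      (fun _ _ _ => lefschetzA_of_zero hB1 _)
  have hP1 := h.nest_one_ne
  obtain ⟨g, F⟩ := h.fp_nest hB1
  have hS := TH132.A.clSplit_of_tens (h.tens hB1)
  constructor
  · intro h1 E hE hHL
    obtain ⟨hP, hPL⟩ := h.nest_hard n
    exact (h.lefschetzA_iff hE hHL).1 (h1 _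
      (SmVar.IsCyc.add (ops.pull_mem _ hP) (ops.pull_mem _ hE))
      (hardLefschetz_prod hP hE hPL hHL))
  · intro h1 C hC hHL
    obtain ⟨D', E', hD', hE', hDE⟩ := TH132.A.div_split hS hC
    have h2 := TH132.A.hl_left hD' hE' hDE hHL hB1
    have h3 := TH132.A.hl_right hE' hD' hDE hHL hP1
    exact (TH132.A.lefschetzA_prod_iff hS hD' hE' hC hDE h2 h3
      (lefschetzA_of_D hD' h2 F.hodge.2) hP1).2 (h1 E' hE' h3)

/-- **The conjecture of Hodge type for products with powers.** -/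
theorem SplitN.hodge_iff (h : SplitN A D B n) {E : B.Cycles}
    (hE : B.IsCyc 1 E) (hHL : HardLefschetz W B E) :
    HodgeType W ((nest ops n fun _ => (⟨A.X, D⟩ : Polarized 𝒱)).prod ops ⟨B, E⟩).X
      ((nest ops n fun _ => (⟨A.X, D⟩ : Polarized 𝒱)).prod ops ⟨B, E⟩).D ↔
      HodgeType W B E := by
  by_cases hB1 : (1 : W.H B) = 0
  · exact iff_of_true (hodge_of_zero (one_prod hB1) _) (hodge_of_zero hB1 _)
  · obtain ⟨g, F⟩ := h.fp_nest hB1
    obtain ⟨hP, hPL⟩ := h.nest_hard n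
    obtain ⟨f₁, F₁, hf₁⟩ := TH132.A.exists_lw hP hPL
    obtain ⟨g₁, G₁, hg₁⟩ := TH132.A.exists_lw hE hHL
    have hst := TH132.A.stable_of_lefschetzA F₁.hD F₁.sl2
      (lefschetzA_of_D F₁.hD hPL F.hodge.2)
    exact ⟨fun h1 => TH132.A.hodge_of_prod F₁ G₁ F.hodge.1 h.nest_one_ne h1,
      fun h1 => TH132.A.hodge_prod_of (h.tens hB1) F₁ hf₁ hPL hst F.hodge.1 G₁ hg₁ h1⟩

theorem SplitN.homEqNum_iff (h : SplitN A D B n) :
    HomEqNum W ((nest ops n fun _ => ⟨A.X, D⟩).X.prod B) ↔ HomEqNum W B := by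
  constructor
  · intro h1
    obtain ⟨x, hx⟩ := exists_tr h.one_ne
    have h2 : W.tr (nest ops n fun _ => (⟨A.X, D⟩ : Polarized 𝒱)).X
        (mono (prj ops n fun _ => (⟨A.X, D⟩ : Polarized 𝒱)) fun _ => x) ≠ 0 := by
      rw [tr_mono]
      exact pow_ne_zero _ hx
    exact homEqNum_factor h2 h1
  · exact h.homEqNum_prod

end

/-- The conditions on the family which are used. -/
structure Fam (χ : Γ →* W.Kˣ) (G : Set (GVar W Γ)) {ι : Type} (X : ι → GVar W Γ)
    (D : ∀ i, (X i).X.Cycles) : Prop where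
  galoisClass : GaloisClass χ G
  mem : ∀ i, X i ∈ G
  transIrred : ∀ i, TransIrred (X i) (D i)
  pos : ∀ i, 0 < transRank W (X i).X
  rank : ∀ i, Even (X i).X.dim → 3 ≤ transRank W (X i).X
  skIrr : ∀ i, SkIrr (rhoT (isGalois (galoisClass.galois (X i) (mem i))))
    (rform W (X i).X (transcendental W (X i).X)) ((-1) ^ (X i).X.dim)

section

variable {ι : Type} {X : ι → GVar W Γ} {D : ∀ i, (X i).X.Cycles} {Z : GVar W Γ}

theorem Fam.homEqNum (h : Fam χ G X D) (i : ι) : HomEqNum W (X i).X :=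
  homEqNum_of_pol (h.transIrred i).polarization

theorem Fam.one_ne (h : Fam χ G X D) (i : ι) : (1 : W.H (X i).X) ≠ 0 := by
  intro h3
  have h1 := Module.finrank_pos_iff.1 (h.pos i)
  obtain ⟨x, hx⟩ := exists_ne (0 : transcendental W (X i).X)
  apply hx
  refine Subtype.ext ?_
  rw [← one_mul (x : W.H (X i).X), h3, zero_mul]
  rfl

theorem Fam.core [IsAlgClosed W.K] (h : Fam χ G X D) (i : ι)
    (u v : transcendental W (X i).X) :
    sk (rform W (X i).X (transcendental W (X i).X)) ((-1) ^ (X i).X.dim) u v ∈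
      N179.GR.core (full (transcendental W (X i).X)
        (rhoT (isGalois (h.galoisClass.galois (X i) (h.mem i))))) :=
  core_trans (P := ⟨(X i).X, D i⟩) (h.homEqNum i) (h.transIrred i).middle _
    (h.transIrred i).irreducible (h.pos i) (h.rank i) (h.skIrr i) u v

/-- the representation on the transcendental cohomology -/
noncomputable abbrev Fam.tr (h : Fam χ G X D) (i : ι) : PRep W.K Γ :=
  Pool.Agent.V5helper95.IF.tr h.galoisClass h.mem i

/-- one step -/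
theorem Fam.split [IsAlgClosed W.K] (h : Fam χ G X D) {i : ι} {n : ℕ}
    (hn : Even (X i).X.dim → n + 1 < transRank W (X i).X) {Y : 𝒱.Obj}
    {υ : Γ →* (W.H Y ≃ₐ[W.K] W.H Y)} (hY : (⟨Y, υ⟩ : GVar W Γ) ∈ G)
    (hspl : Spl (h.tr i) {full (W.H Y) (algR υ)}) : SplitN (X i) (D i) Y n := by
  have hDX := h.homEqNum i
  have hfull : FullF (P := ⟨(X i).X, D i⟩) (Z := Y)
      (isGalois (h.galoisClass.galois (X i) (h.mem i))) υ :=
    fullF_of_spl (P := ⟨(X i).X, D i⟩) (h.transIrred i).middle _ (h.core i) hspl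
  exact ⟨(h.transIrred i).polarization, (h.transIrred i).middle, h.one_ne i,
    fun s m hm c hc => tgt_of_fullF (B := ⟨Y, υ⟩) h.galoisClass (h.mem i) hY
      (h.transIrred i).middle hDX hfull s m (fun he => by have := hn he; omega) c hc⟩

/-- the steps of the tower -/
theorem Fam.step [IsAlgClosed W.K] (h : Fam χ G X D) (hZ : Z ∈ G) {S : Set ι}
    (hS : ∀ i ∉ S, Spl (h.tr i) {full (W.H Z.X) (algR Z.act)})
    (hp : ∀ i j, i ≠ j → Spl (h.tr i) {h.tr j})
    (E : Z.X.Cycles) {a : ι × ℕ} {L : List (ι × ℕ)} (hL : Admissible X (a :: L))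
    (haS : a.1 ∉ S) :
    ∃ Y : GVar W Γ, Y ∈ G ∧
      Y.X = (tower' ops (fun i => (⟨(X i).X, D i⟩ : Polarized 𝒱)) ⟨Z.X, E⟩ L).X ∧
      SplitN (X a.1) (D a.1)
        (tower' ops (fun i => (⟨(X i).X, D i⟩ : Polarized 𝒱)) ⟨Z.X, E⟩ L).X a.2 := by
  obtain ⟨hL1, hL2⟩ := hL
  rw [List.map_cons, List.nodup_cons] at hL1
  obtain ⟨υ, hυ, hυ'⟩ := exists_tower_actF (D := D) h.galoisClass h.mem h.homEqNum hZ E L
  have hspl := spl_tower h.galoisClass h.mem (Z := Z) (hS a.1 haS) (L := L)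
    (fun b hb => hp _ _ fun h0 => hL1.1 (List.mem_map.2 ⟨b, hb, h0.symm⟩)) hυ'
  exact ⟨⟨_, υ⟩, hυ, rfl, h.split (hL2 a List.mem_cons_self) hυ hspl⟩

/-- The admissible lists. -/
def AdmO {ι : Type} (X : ι → GVar W Γ) (S : Set ι) (L : List (ι × ℕ)) : Prop :=
  Admissible X L ∧ ∀ a ∈ L, a.1 ∉ S

theorem Adm.admO {S : Set ι} {L : List (ι × ℕ)} (h : Adm X S L) : AdmO X S L :=
  ⟨⟨h.1, fun a ha => (h.2 a ha).2⟩, fun a ha => (h.2 a ha).1⟩

theorem AdmO.tail {S : Set ι} {a : ι × ℕ} {L : List (ι × ℕ)} (h : AdmO X S (a :: L)) :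
    AdmO X S L := by
  obtain ⟨⟨h1, h2⟩, h3⟩ := h
  rw [List.map_cons, List.nodup_cons] at h1
  exact ⟨⟨h1.2, fun b hb => h2 b (List.mem_cons_of_mem _ hb)⟩,
    fun b hb => h3 b (List.mem_cons_of_mem _ hb)⟩

variable [IsAlgClosed W.K] (h : Fam χ G X D) (hZ : Z ∈ G) {S : Set ι}
    (hS : ∀ i ∉ S, Spl (h.tr i) {full (W.H Z.X) (algR Z.act)})
    (hp : ∀ i j, i ≠ j → Spl (h.tr i) {h.tr j})

include hZ hS hp in
/-- **The conjecture D.** -/
theorem tower_homEqNum (E : Z.X.Cycles) (L : List (ι × ℕ)) (hL : AdmO X S L) :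
    HomEqNum W (nodalTower X D Z E L).X ↔ HomEqNum W Z.X := by
  rw [nodalTower, tower_eq]
  induction L with
  | nil => exact Iff.rfl
  | cons a L ih =>
    obtain ⟨-, -, -, hN⟩ := h.step hZ hS hp E hL.1 (hL.2 a List.mem_cons_self)
    rw [← ih hL.tail]
    exact hN.homEqNum_iff

include hZ hS hp in
theorem tower_hard {E : Z.X.Cycles} (hE : Z.X.IsCyc 1 E) (hHL : HardLefschetz W Z.X E)
    (L : List (ι × ℕ)) (hL : AdmO X S L) :
    (tower' ops (fun i => ⟨(X i).X, D i⟩) ⟨Z.X, E⟩ L).X.IsCyc 1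
      (tower' ops (fun i => ⟨(X i).X, D i⟩) ⟨Z.X, E⟩ L).D ∧
    HardLefschetz W (tower' ops (fun i => ⟨(X i).X, D i⟩) ⟨Z.X, E⟩ L).X
      (tower' ops (fun i => ⟨(X i).X, D i⟩) ⟨Z.X, E⟩ L).D := by
  induction L with
  | nil => exact ⟨hE, hHL⟩
  | cons a L ih =>
    obtain ⟨-, -, -, hN⟩ := h.step hZ hS hp E hL.1 (hL.2 a List.mem_cons_self)
    have h1 := ih hL.tail
    obtain ⟨hP, hPL⟩ := hN.nest_hard a.2
    exact ⟨SmVar.IsCyc.add (ops.pull_mem _ hP) (ops.pull_mem _ h1.1),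
      hardLefschetz_prod hP h1.1 hPL h1.2⟩

include hZ hS hp in
/-- **The conjecture of Hodge type.** -/
theorem tower_hodge {E : Z.X.Cycles} (hE : Z.X.IsCyc 1 E) (hHL : HardLefschetz W Z.X E)
    (L : List (ι × ℕ)) (hL : AdmO X S L) :
    HodgeType W (nodalTower X D Z E L).X (nodalTower X D Z E L).D ↔ HodgeType W Z.X E := by
  rw [nodalTower, tower_eq]
  induction L with
  | nil => exact Iff.rfl
  | cons a L ih =>
    obtain ⟨-, -, -, hN⟩ := h.step hZ hS hp E hL.1 (hL.2 a List.mem_cons_self)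
    have h1 := tower_hard h hZ hS hp hE hHL L hL.tail
    rw [← ih hL.tail]
    exact hN.hodge_iff h1.1 h1.2

include hZ hS hp in
/-- **The conjecture A.** -/
theorem tower_lefschetzA {E : Z.X.Cycles} (hE : Z.X.IsCyc 1 E) (hHL : HardLefschetz W Z.X E)
    (L : List (ι × ℕ)) (hL : AdmO X S L) :
    LefschetzA W (nodalTower X D Z E L).X (nodalTower X D Z E L).D ↔ LefschetzA W Z.X E := by
  rw [nodalTower, tower_eq]
  induction L with
  | nil => exact Iff.rfl
  | cons a L ih =>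
    obtain ⟨-, -, -, hN⟩ := h.step hZ hS hp E hL.1 (hL.2 a List.mem_cons_self)
    have h1 := tower_hard h hZ hS hp hE hHL L hL.tail
    rw [← ih hL.tail]
    exact hN.lefschetzA_iff h1.1 h1.2

include hZ hS hp in
/-- **The conjecture A for all divisors.** -/
theorem tower_lefAll (E : Z.X.Cycles) (L : List (ι × ℕ)) (hL : AdmO X S L) :
    LefAll W (nodalTower X D Z E L).X ↔ LefAll W Z.X := by
  rw [nodalTower, tower_eq]
  induction L with
  | nil => exact Iff.rfl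
  | cons a L ih =>
    obtain ⟨-, -, -, hN⟩ := h.step hZ hS hp E hL.1 (hL.2 a List.mem_cons_self)
    rw [← ih hL.tail]
    exact hN.lefAll_iff

end

end Pool.Agent.V5helper95.IF
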